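import Pool.Agent.Lib.MP_f20cd2_co.EX.Defs

set_option autoImplicit false
set_option linter.unusedSectionVars false

namespace Pool.Agent.Lib.MP_f20cd2_co.EX

open Finset
open Pool.Agent.Lib.MP_f20cd2_co.H83 (Conn Cells)
open Pool.Agent.Lib.MP_f20cd2_co.PL
open Pool.Agent.Lib.MP_f20cd2_co.HM (dg)
open Pool.Agent.Lib.MP_f20cd2_co.DP
open scoped Classical

variable {V : Type} [Fintype V] [DecidableEq V] {G : SimpleGraph V}

/-- The root map: iterate `v ↦ if v ∈ l then v else par v` (or strong recursion on `dp`). -/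
theorem fo_exists {H : SimpleGraph V} {W : Finset V} {l : List V} {par : V → V} {dp : V → ℕ}
    (h1 : ∀ v ∈ l, v ∈ W) (h2 : ∀ v, dp v ≤ 27)
    (h3 : ∀ v, v ∉ l → H.Adj v (par v) ∧ par v ∈ W ∧ dp (par v) < dp v) :
    ∃ rt, Fo H W l.toFinset par dp rt := by
  let f : V → V := fun v => if v ∈ l then v else par v
  have hf : ∀ v ∈ l, ∀ n, f^[n] v = v := fun v hv n =>
    Function.iterate_fixed (f := f) (if_pos hv) n
  have hm : ∀ n v, dp v ≤ n → f^[n] v ∈ l := by
    intro n
    induction n with
    | zero => exact fun v hv => by_contra fun h => by have := (h3 v h).2.2; omega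
    | succ n ih =>
      intro v hv
      by_cases h : v ∈ l
      · rwa [hf v h]
      · rw [Function.iterate_succ_apply, show f v = par v from if_neg h]
        exact ih _ (by have := (h3 v h).2.2; omega)
  refine ⟨f^[27], fun v hv => h1 v (List.mem_toFinset.1 hv), h2, fun v hv => ?_,
    fun v hv => hf v (List.mem_toFinset.1 hv) _, fun v => List.mem_toFinset.2 (hm _ v (h2 v))⟩
  rw [List.mem_toFinset] at hv
  refine ⟨(h3 v hv).1, (h3 v hv).2.1, (h3 v hv).2.2, ?_⟩
  rw [← show f v = par v from if_neg hv, ← Function.iterate_succ_apply,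
    Function.iterate_succ_apply']
  exact if_pos (hm _ v (h2 v))

theorem Fo.nr {H : SimpleGraph V} {W X : Finset V} {par : V → V} {dp : V → ℕ} {rt : V → V}
    (h : Fo H W X par dp rt) (v : V) : Nr H 27 v (rt v) := by
  have key : ∀ n v, dp v ≤ n → Nr H n v (rt v) := by
    intro n
    induction n with
    | zero =>
      intro v hv
      have h1 : v ∈ X := by_contra fun h1 => by have := (h.step v h1).2.2.1; omega
      rw [h.fix v h1]
      exact ⟨SimpleGraph.Walk.nil, le_rfl⟩
    | succ n ih =>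
      intro v hv
      by_cases h1 : v ∈ X
      · rw [h.fix v h1]
        exact ⟨SimpleGraph.Walk.nil, Nat.zero_le _⟩
      · obtain ⟨h2, -, h3, h4⟩ := h.step v h1
        obtain ⟨p, hp⟩ := ih (par v) (by omega)
        rw [← h4]
        exact ⟨SimpleGraph.Walk.cons h2 p, by rw [SimpleGraph.Walk.length_cons]; omega⟩
  exact key 27 v (h.le v)

/-- The vertices strictly between `v` and its root (strong induction on `dp v`, with the bounds
`dp v` in place of `27`). -/
theorem Fo.tail {H : SimpleGraph V} (hH : H ≤ G) {W X : Finset V} {par : V → V} {dp : V → ℕ}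
    {rt : V → V} (h : Fo H W X par dp rt) (v : V) (hv : v ∉ X) :
    ∃ T : Finset V, (∀ x ∈ T, x ∈ W ∧ x ∉ X ∧ Nr H 27 v x) ∧ T.card ≤ 27 ∧
      Conn G (insert (rt v) T) ∧ ∃ x ∈ insert (rt v) T, G.Adj v x := by
  have key : ∀ n v, dp v ≤ n → v ∉ X → ∃ T : Finset V, (∀ x ∈ T, x ∈ W ∧ x ∉ X ∧ Nr H n v x) ∧
      T.card ≤ n ∧ Conn G (insert (rt v) T) ∧ ∃ x ∈ insert (rt v) T, G.Adj v x := by
    intro n
    induction n with
    | zero => exact fun v hv h1 => by have := (h.step v h1).2.2.1; omega
    | succ n ih =>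
      intro v hv h1
      obtain ⟨h2, h3, h4, h5⟩ := h.step v h1
      by_cases h6 : par v ∈ X
      · refine ⟨∅, fun x hx => absurd hx (notMem_empty x), Nat.zero_le _, H83.Conn.single _,
          rt v, mem_insert_self _ _, ?_⟩
        rw [← h5, h.fix _ h6]
        exact hH h2
      · obtain ⟨T, h7, h8, h9, x, h10, h11⟩ := ih (par v) (by omega) h6
        refine ⟨insert (par v) T, fun y hy => ?_, (card_insert_le _ _).trans (by omega), ?_,
          par v, mem_insert_of_mem (mem_insert_self _ _), hH h2⟩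
        · rcases mem_insert.1 hy with rfl | hy
          · exact ⟨h3, h6, SimpleGraph.Walk.cons h2 SimpleGraph.Walk.nil, by simp⟩
          · obtain ⟨h12, h13, p, hp⟩ := h7 y hy
            exact ⟨h12, h13, SimpleGraph.Walk.cons h2 p, by
              rw [SimpleGraph.Walk.length_cons]; omega⟩
        · rw [insert_comm, ← h5]
          exact h9.insert h10 h11
  exact key 27 v (h.le v) hv

theorem Nr.mono_graph {H H' : SimpleGraph V} (hH : H ≤ H') {d d' : ℕ} (hd : d ≤ d') {u v : V}
    (h : Nr H d u v) : Nr H' d' u v := by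
  obtain ⟨p, hp⟩ := h
  exact ⟨p.mapLe hH, by rw [SimpleGraph.Walk.mapLe, SimpleGraph.Walk.length_map]; omega⟩

end Pool.Agent.Lib.MP_f20cd2_co.EX
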