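import Pool.Agent.Lib.MP_f20cd2_co.EX.Defs

set_option autoImplicit false
set_option linter.unusedSectionVars false

namespace Pool.Agent.Lib.MP_f20cd2_co.EX

open Finset
open Pool.Agent.Lib.MP_f20cd2_co.H83 (Conn Cells)
open Pool.Agent.Lib.MP_f20cd2_co.PL
open Pool.Agent.Lib.MP_f20cd2_co.HM (dg)
open Pool.Agent.Lib.MP_f20cd2_co.DP
open scoped Classical

variable {V : Type} [Fintype V] [DecidableEq V] {G : SimpleGraph V}

namespace Geo

lemma supp_mem {T : SimpleGraph V} {D : Finset V} (hD : ∀ u v, T.Adj u v → u ∈ D) {a b : V}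
    (w : T.Walk a b) (hb : b ∈ D) : ∀ v ∈ w.support, v ∈ D := by
  induction w with
  | nil => simpa using hb
  | cons h p ih =>
    intro v hv
    rw [SimpleGraph.Walk.support_cons, List.mem_cons] at hv
    rcases hv with rfl | hv
    · exact hD _ _ h
    · exact ih hb v hv

lemma supp_head {T : SimpleGraph V} {a b : V} (w : T.Walk a b) : w.support.head? = some a := by
  cases w <;> simp

lemma supp_last {T : SimpleGraph V} {a b : V} (w : T.Walk a b) :
    w.support.getLast? = some b := by
  rw [List.getLast?_eq_some_getLast w.support_ne_nil, SimpleGraph.Walk.getLast_support]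

end Geo

/-- Two paths are joined through `D`. -/
theorem link {T : SimpleGraph V} (hT : T ≤ G) {D : Finset V} (hD : ∀ u v, T.Adj u v → u ∈ D)
    (hc : ∀ u ∈ D, ∀ v ∈ D, T.Reachable u v) (hdom : ∀ v, ∃ w ∈ D, G.Adj v w)
    {l l' : List V} (hl : IsP G l) (hl' : IsP G l') (h1 : ∀ v ∈ l, v ∉ D) (h2 : ∀ v ∈ l', v ∉ D)
    (h3 : ∀ v ∈ l, v ∉ l') :
    ∃ m : List V, (∀ v ∈ m, v ∈ D) ∧ IsP G (l ++ (m ++ l')) := by
  by_cases e : l = []
  · exact ⟨[], by simp, by simpa [e] using hl'⟩
  by_cases e' : l' = []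
  · exact ⟨[], by simp, by simpa [e'] using hl⟩
  obtain ⟨w, hw, a1⟩ := hdom (l.getLast e)
  obtain ⟨w', hw', a2⟩ := hdom (l'.head e')
  obtain ⟨q⟩ := hc w hw w' hw'
  obtain ⟨q, hq⟩ := q.toPath
  have hm := Geo.supp_mem hD q hw'
  refine ⟨q.support, hm, ?_, ?_⟩
  · rw [List.nodup_append, List.nodup_append]
    refine ⟨hl.1, ⟨hq.support_nodup, hl'.1, fun a ha b hb h => h2 b hb (h ▸ hm a ha)⟩,
      fun a ha b hb h => ?_⟩
    rcases List.mem_append.1 hb with hb | hb
    · exact h1 a ha (h ▸ hm b hb)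
    · exact h3 a ha (h ▸ hb)
  · rw [List.isChain_append, List.isChain_append]
    refine ⟨hl.2, ⟨q.isChain_adj_support.imp fun a b h => hT h, hl'.2, fun x hx y hy => ?_⟩,
      fun x hx y hy => ?_⟩
    · rw [Geo.supp_last, Option.mem_def, Option.some.injEq] at hx
      rw [List.head?_eq_some_head e', Option.mem_def, Option.some.injEq] at hy
      rw [← hx, ← hy]
      exact a2.symm
    · rw [List.head?_append, Geo.supp_head, Option.mem_def] at hy
      rw [List.getLast?_eq_some_getLast e, Option.mem_def, Option.some.injEq] at hx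
      simp only [Option.some_or, Option.some.injEq] at hy
      rw [← hx, ← hy]
      exact a1

theorem ln_of_list {l : List V} (h : IsP G l) (u : V) : Ln G l.length fun i => l.getD i u := by
  refine ⟨fun i hi => ?_, fun i hi j hj e => ?_⟩
  · have hi' : i < l.length := by omega
    rw [List.getD_eq_getElem _ _ hi, List.getD_eq_getElem _ _ hi']
    exact List.isChain_iff_getElem.1 h.2 i hi
  · rw [List.getD_eq_getElem _ _ hi, List.getD_eq_getElem _ _ hj] at e
    exact (List.Nodup.getElem_inj_iff h.1).1 e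

end Pool.Agent.Lib.MP_f20cd2_co.EX
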