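import Pool.Agent.Lib.MP_f20cd2_co.EX.World
import Pool.Agent.Lib.MP_f20cd2_co.EX.Geo
import Pool.Agent.Lib.MP_f20cd2_co.EX.Forest

set_option autoImplicit false
set_option linter.unusedSectionVars false

namespace Pool.Agent.Lib.MP_f20cd2_co.EX

open Finset
open Pool.Agent.Lib.MP_f20cd2_co.H83 (Conn Cells)
open Pool.Agent.Lib.MP_f20cd2_co.PL
open Pool.Agent.Lib.MP_f20cd2_co.HM (dg)
open Pool.Agent.Lib.MP_f20cd2_co.DP
open scoped Classical

variable {V : Type} [Fintype V] [DecidableEq V] {G : SimpleGraph V}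

namespace BackAux

lemma mem_getD {l : List V} (u v : V) : v ∈ l ↔ ∃ i < l.length, l.getD i u = v := by
  constructor
  · intro hv
    obtain ⟨i, hi, e⟩ := List.mem_iff_getElem.1 hv
    exact ⟨i, hi, by rw [List.getD_eq_getElem _ _ hi, e]⟩
  · rintro ⟨i, hi, e⟩
    rw [List.getD_eq_getElem _ _ hi] at e
    exact e ▸ List.getElem_mem hi

lemma mem_left {l l' : List V} (u v : V) :
    v ∈ l ↔ ∃ i < l.length, (l ++ l').getD i u = v := by
  rw [mem_getD u v]
  refine exists_congr fun i => and_congr_right fun hi => ?_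
  rw [List.getD_append _ _ _ _ hi]

lemma mem_right {l l' : List V} (u v : V) :
    v ∈ l' ↔ ∃ i, l.length ≤ i ∧ i < (l ++ l').length ∧ (l ++ l').getD i u = v := by
  rw [mem_getD u v, List.length_append]
  constructor
  · rintro ⟨i, hi, e⟩
    refine ⟨l.length + i, by omega, by omega, ?_⟩
    rw [List.getD_append_right _ _ _ _ (by omega), Nat.add_sub_cancel_left, e]
  · rintro ⟨i, h1, h2, e⟩
    rw [List.getD_append_right _ _ _ _ h1] at e
    exact ⟨i - l.length, by omega, e⟩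

/-- The coarse colours. -/
def crs (b c : ℕ) : ℕ :=
  if c < b then 1 else if c < 2 * b then 2 else if c < 3 * b then 3 else if c = 3 * b then 4
    else if c = 3 * b + 1 then 5 else if c ≤ 3 * b + 3 then 6 else 0

lemma crs_low {b c j : ℕ} (hj : j ≤ 2) (h1 : j * b ≤ c) (h2 : c < j * b + b) :
    crs b c = j + 1 := by
  unfold crs
  obtain rfl | rfl | rfl : j = 0 ∨ j = 1 ∨ j = 2 := by omega
  all_goals split_ifs <;> omega

lemma crs4 {b c : ℕ} (h : c = 3 * b) : crs b c = 4 := by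
  unfold crs
  split_ifs <;> omega

lemma crs5 {b c : ℕ} (h : c = 3 * b + 1) : crs b c = 5 := by
  unfold crs
  split_ifs <;> omega

lemma crs6 {b c : ℕ} (h1 : 3 * b + 2 ≤ c) (h2 : c ≤ 3 * b + 3) : crs b c = 6 := by
  unfold crs
  split_ifs <;> omega

/-- An option of a given colour. -/
lemma opt {r s : ℕ} {χ : V → ℕ} {Op : V → Finset V} (h : LN G r s χ Op) {c : ℕ} (hc : c ≤ r)
    (v : V) : ∃ w, w ∈ Op v ∧ χ w = c := by
  have h8 := h.rich v c hc
  obtain ⟨w, hw⟩ := card_pos.1 (show 0 < ((Op v).filter fun w => χ w = c).card by omega)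
  exact ⟨w, mem_filter.1 hw⟩

/-- Two paths are joined through a lane. -/
lemma lk {r s : ℕ} {χ : V → ℕ} {Op : V → Finset V} (h : LN G r s χ Op) {j : ℕ} (hj : j < r)
    {l l' : List V} (hl : IsP G l) (hl' : IsP G l') (h1 : ∀ v ∈ l, χ v ≠ j + 1)
    (h2 : ∀ v ∈ l', χ v ≠ j + 1) (h3 : ∀ v ∈ l, v ∉ l') :
    ∃ m : List V, (∀ v ∈ m, χ v = j + 1) ∧ IsP G (l ++ (m ++ l')) := by
  obtain ⟨T, a1, -, a3, a4⟩ := lane_graph h hj
  obtain ⟨m, b1, b2⟩ := link (D := lane χ j) a1 (fun u v a => mem_lane.2 (a3 u v a).1)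
    (fun u hu v hv => a4 u v (mem_lane.1 hu) (mem_lane.1 hv))
    (fun v => by
      obtain ⟨w, c1, c2⟩ := opt h (c := j + 1) hj v
      exact ⟨w, mem_lane.2 c2, h.adj v w c1⟩)
    hl hl' (fun v hv a => h1 v hv (mem_lane.1 a)) (fun v hv a => h2 v hv (mem_lane.1 a)) h3
  exact ⟨m, fun v hv => mem_lane.1 (b1 v hv), b2⟩

/-- The three worlds. -/
lemma worlds {r s : ℕ} {χ : V → ℕ} {Op : V → Finset V} [Nonempty V] (h : LN G r s χ Op)
    {K D0 : ℕ} {al : ℕ → ℕ} (hn : Num 9 K D0 al) (hal : ∀ c, 2 ≤ c → c ≤ 9 → al c + 1 ≤ K)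
    (hr : 3 * (9 * K + 13) + 3 ≤ r) (j : ℕ) :
    ∃ (l : List V) (par : V → V) (dp : V → ℕ) (rt : V → V), 1 ≤ j → j ≤ 3 →
      IsP G l ∧ 3 ≤ l.length ∧ (∀ v ∈ l, crs (9 * K + 13) (χ v) = j) ∧
      Fo (og G Op) (cs (fun v => crs (9 * K + 13) (χ v)) j) l.toFinset par dp rt := by
  by_cases hj : 1 ≤ j ∧ j ≤ 3
  · obtain ⟨i, rfl⟩ : ∃ i, j = i + 1 := ⟨j - 1, by omega⟩
    have hi : i ≤ 2 := by omega
    have hb : i * (9 * K + 13) ≤ 2 * (9 * K + 13) := Nat.mul_le_mul_right _ hi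
    obtain ⟨l, par, dp, a1, a2, a3, a4, -, a6⟩ :=
      world0 h hn hal (a := i * (9 * K + 13)) (by omega)
    have key : ∀ v ∈ col χ (i * (9 * K + 13)) (i * (9 * K + 13) + (9 * K + 13)),
        crs (9 * K + 13) (χ v) = i + 1 := fun v hv =>
      crs_low hi (mem_col.1 hv).1 (mem_col.1 hv).2
    obtain ⟨rt, hrt⟩ := fo_exists (H := og G Op)
      (W := cs (fun v => crs (9 * K + 13) (χ v)) (i + 1)) (l := l) (par := par) (dp := dp)
      (fun v hv => mem_cs.2 (key v (a3 v hv))) (fun v => (a4 v).trans (by norm_num))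
      fun v hv => ⟨(a6 v hv).1, mem_cs.2 (key _ (a6 v hv).2.1), (a6 v hv).2.2⟩
    have a0 := a2 0
    rw [List.rotate_zero] at a0
    exact ⟨l, par, dp, rt, fun _ _ => ⟨a0, a1, fun v hv => key v (a3 v hv), hrt⟩⟩
  · exact ⟨[], id, fun _ => 0, id, fun h1 h2 => absurd ⟨h1, h2⟩ hj⟩

end BackAux

/-- With `b = 9 * K + 13`: worlds `col χ 0 b`, `col χ b (2 * b)`, `col χ (2 * b) (3 * b)` get the
coarse colours 1, 2, 3; the colours `3 b`, `3 b + 1` get 4, 5; `3 b + 2`, `3 b + 3` get 6; all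
other vertices 0.  `H = og G Op`, `T` the tree graph of the colour `3 b`.  The path is
`l3 ++ (m ++ (l1 ++ (m' ++ l2)))` by `world0` (rotation 0), `lane_graph` and `link` twice,
`N2 = l3.length`, `ln_of_list`, `fo_exists`.  `T` and `y` come from `lane_paths`. -/
theorem backbone {r s : ℕ} {χ : V → ℕ} {Op : V → Finset V} [Nonempty V] (h : LN G r s χ Op)
    {K D0 : ℕ} {al : ℕ → ℕ} (hn : Num 9 K D0 al) (hal : ∀ c, 2 ≤ c → c ≤ 9 → al c + 1 ≤ K)
    (hr : 3 * (9 * K + 13) + 3 ≤ r) (L : ℕ) (hV : s * 9 ^ (2 * L) < Fintype.card V) :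
    ∃ D : Dat V, D.Ok G (3 * s) L := by
  choose l par dp rt hw using BackAux.worlds h hn hal hr
  obtain ⟨b, hb⟩ : ∃ b, b = 9 * K + 13 := ⟨_, rfl⟩
  rw [← hb] at hw hr
  obtain ⟨p1, n1, c1, -⟩ := hw 1 le_rfl (by norm_num)
  obtain ⟨p2, -, c2, -⟩ := hw 2 (by norm_num) (by norm_num)
  obtain ⟨p3, -, c3, -⟩ := hw 3 (by norm_num) le_rfl
  have k6 : ∀ (v : V) (j : ℕ), j ≤ 3 → BackAux.crs b (χ v) = j →
      χ v ≠ 3 * b + 1 + 1 ∧ χ v ≠ 3 * b + 2 + 1 := fun v j hj e => by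
    constructor <;> intro e' <;> rw [BackAux.crs6 (by omega) (by omega)] at e <;> omega
  obtain ⟨m', d1, p4⟩ := BackAux.lk h (j := 3 * b + 2) (by omega) p1 p2
    (fun v hv => (k6 v 1 (by norm_num) (c1 v hv)).2)
    (fun v hv => (k6 v 2 (by norm_num) (c2 v hv)).2)
    (fun v hv hv' => by have := c1 v hv; have := c2 v hv'; omega)
  obtain ⟨m, d2, p5⟩ := BackAux.lk h (j := 3 * b + 1) (by omega) p3 p4
    (fun v hv => (k6 v 3 le_rfl (c3 v hv)).1)
    (fun v hv => by
      simp only [List.mem_append] at hv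
      rcases hv with hv | hv | hv
      · exact (k6 v 1 (by norm_num) (c1 v hv)).1
      · have := d1 v hv
        omega
      · exact (k6 v 2 (by norm_num) (c2 v hv)).1)
    (fun v hv hv' => by
      have e3 := c3 v hv
      simp only [List.mem_append] at hv'
      rcases hv' with hv' | hv' | hv'
      · have := c1 v hv'
        omega
      · exact (k6 v 3 le_rfl e3).2 (d1 v hv')
      · have := c2 v hv'
        omega)
  obtain ⟨T, y, t1, t2, t3⟩ := lane_paths h (j := 3 * b - 1) (by omega) (m := 2 * L) (by omega)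
  choose sl s1 s2 using BackAux.opt h (c := 3 * b + 1) (by omega)
  have ad : ∀ v w, w ∈ Op v → (og G Op).Adj v w := fun v w hw => ⟨h.adj v w hw, Or.inl hw⟩
  let u : V := Classical.arbitrary V
  refine ⟨⟨og G Op, T, fun v => BackAux.crs b (χ v), (l 3).length,
    (l 3 ++ (m ++ (l 1 ++ (m' ++ l 2)))).length,
    fun i => (l 3 ++ (m ++ (l 1 ++ (m' ++ l 2)))).getD i u, fun j => (l j).toFinset,
    par, dp, rt, y, sl⟩, og_le Op, dg_og h, t1, t2, ln_of_list p5 u, ?_,
    fun j h1 h2 => (hw j h1 h2).2.2.2, fun v => ?_, fun v hv => ?_, fun i h1 h2 => ?_,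
    fun v => ad _ _ (t3 v).1, fun v i hi => (t3 v).2.1 i (by omega),
    fun v i hi j hj => (t3 v).2.2.2 i (by omega) j (by omega), fun v i hi => ?_,
    fun v => ⟨ad _ _ (s1 v), BackAux.crs5 (s2 v)⟩⟩
  · simp only [List.length_append]
    omega
  · exact List.mem_toFinset.trans (BackAux.mem_left u v)
  · refine (BackAux.mem_right u v).1 ?_
    simp only [mem_union, List.mem_toFinset] at hv
    simp only [List.mem_append]
    tauto
  · have hv := (BackAux.mem_right u _).2 ⟨i, h1, h2, rfl⟩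
    simp only [List.mem_append] at hv
    simp only [mem_union, List.mem_toFinset]
    rcases hv with hv | hv | hv | hv
    · have := d2 _ hv
      exact Or.inr (BackAux.crs6 (by omega) (by omega))
    · exact Or.inl (Or.inl hv)
    · have := d1 _ hv
      exact Or.inr (BackAux.crs6 (by omega) (by omega))
    · exact Or.inl (Or.inr hv)
  · exact BackAux.crs4 (((t3 v).2.2.1 i (by omega)).trans (by omega))

end Pool.Agent.Lib.MP_f20cd2_co.EX
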