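import Pool.Agent.Lib.MP_f20cd2_co.EX.Hang

set_option autoImplicit false
set_option linter.unusedSectionVars false

namespace Pool.Agent.Lib.MP_f20cd2_co.EX

open Finset
open Pool.Agent.Lib.MP_f20cd2_co.H83 (Conn Cells)
open Pool.Agent.Lib.MP_f20cd2_co.PL
open Pool.Agent.Lib.MP_f20cd2_co.HM (dg)
open Pool.Agent.Lib.MP_f20cd2_co.DP
open scoped Classical

variable {V : Type} [Fintype V] [DecidableEq V] {G : SimpleGraph V}

/-- `B` the set of all bridge vertices, `τ i = ((Rt.filter (al ρ = i)).biUnion Tl).card` (at most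
one such `ρ` by `gap`).  For `Z`: `A i = (Rt.filter (al ρ = i)).biUnion Tl ∪ (if i ∈ Z then
{D.sl (D.p i)} else ∅)`, `Y = univ \ B`, `Rm` as in `blocks`, `Q = Rt.image D.p`, `hang` for the
worlds 1 and 2.  All disjointness comes from the colours: `D.p i` has colour 3 for `i < N2` and
colour 1, 2 or 6 otherwise; a vertex of colour 1 (2, 3) on the path lies in `D.X 1` (2, 3).
Sizes on the second half by `ball_card` (the block lies in the ball of radius 27). -/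
theorem build {Δ L g M M2 Q : ℕ} {D : Dat V} (h : D.Ok G Δ L) (hL : (Δ + 1) ^ 27 ≤ L)
    {Rt St : Finset ℕ} {al : ℕ → ℕ} {Tl : ℕ → Finset V} (hc : Ch G D L g M M2 Q Rt St al Tl) :
    ∃ (B : Finset V) (τ : ℕ → ℕ), (∀ i, τ i ≤ 27 ∧ (τ i ≠ 0 → ∃ ρ ∈ Rt, al ρ = i)) ∧
      ∀ Z ⊆ St, ∃ F, Bl G (univ \ B) D.N D.p F ∧
        Br G B D.N2 D.N L D.p F Rt al (fun ρ => D.y (D.p ρ)) ∧
        (∀ i < D.N2, (F i).card = 1 + τ i + if i ∈ Z then 1 else 0) ∧
        (∀ i, D.N2 ≤ i → i < D.N → (F i).card ≤ L + 1) ∧ ∀ ρ ∈ Rt, (F ρ).card = 1 := by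
  have c3 : ∀ i < D.N2, D.p i ∈ D.X 3 := fun i hi => (h.x3 _).2 ⟨i, hi, rfl⟩
  have cX : ∀ j, 1 ≤ j → j ≤ 3 → ∀ v ∈ D.X j, D.cl v = j := fun j a b v hv =>
    mem_cs.1 ((h.fo j a b).sub hv)
  have cp : ∀ i < D.N, (i < D.N2 ∧ D.p i ∈ D.X 3) ∨ D.p i ∈ D.X 1 ∨ D.p i ∈ D.X 2 ∨
      D.cl (D.p i) = 6 := by
    intro i hi
    by_cases a : i < D.N2
    · exact Or.inl ⟨a, c3 i a⟩
    · rcases h.px i (by omega) hi with b | b
      · rcases mem_union.1 b with b | b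
        · exact Or.inr (Or.inl b)
        · exact Or.inr (Or.inr (Or.inl b))
      · exact Or.inr (Or.inr (Or.inr b))
  have cq : ∀ i < D.N, D.cl (D.p i) ≠ 4 ∧ D.cl (D.p i) ≠ 5 ∧
      (∀ j, 1 ≤ j → j ≤ 3 → D.cl (D.p i) = j → D.p i ∈ D.X j) := by
    intro i hi
    rcases cp i hi with ⟨-, b⟩ | b | b | b
    · have := cX 3 (by omega) le_rfl _ b
      refine ⟨by omega, by omega, fun j _ _ e => ?_⟩
      rwa [show j = 3 by omega]
    · have := cX 1 le_rfl (by omega) _ b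
      refine ⟨by omega, by omega, fun j _ _ e => ?_⟩
      rwa [show j = 1 by omega]
    · have := cX 2 (by omega) (by omega) _ b
      refine ⟨by omega, by omega, fun j _ _ e => ?_⟩
      rwa [show j = 2 by omega]
    · exact ⟨by omega, by omega, fun j _ _ e => by omega⟩
  have hal : ∀ ρ ∈ Rt, ∀ ρ' ∈ Rt, al ρ = al ρ' → ρ = ρ' := by
    intro ρ a ρ' b e
    by_contra c
    have := hc.gap ρ a ρ' b c
    omega
  obtain ⟨T, hT⟩ : ∃ T : ℕ → Finset V, ∀ i v, v ∈ T i ↔ ∃ ρ ∈ Rt, al ρ = i ∧ v ∈ Tl ρ :=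
    ⟨fun i => (Rt.filter fun ρ => al ρ = i).biUnion Tl, fun i v => by
      simp only [mem_biUnion, mem_filter, and_assoc]⟩
  have hT1 : ∀ ρ ∈ Rt, T (al ρ) = Tl ρ := by
    intro ρ a
    ext v
    rw [hT]
    constructor
    · rintro ⟨ρ', b, e, c⟩
      rwa [← hal ρ' b ρ a e]
    · exact fun c => ⟨ρ, a, rfl, c⟩
  have hT0 : ∀ i, (∃ ρ ∈ Rt, al ρ = i) ∨ T i = ∅ := by
    intro i
    rcases (T i).eq_empty_or_nonempty with a | ⟨v, a⟩
    · exact Or.inr a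
    · obtain ⟨ρ, b, e, -⟩ := (hT i v).1 a
      exact Or.inl ⟨ρ, b, e⟩
  have hTc : ∀ i, ∀ v ∈ T i, D.cl v = 3 ∧ v ∉ D.X 3 := by
    intro i v a
    obtain ⟨ρ, b, -, c⟩ := (hT i v).1 a
    exact hc.tc ρ b v c
  obtain ⟨B, hB⟩ : ∃ B : Finset V, ∀ v, v ∈ B ↔ ∃ ρ ∈ Rt, ∃ i < 2 * L, v = D.y (D.p ρ) i :=
    ⟨Rt.biUnion fun ρ => (range (2 * L)).image (D.y (D.p ρ)), fun v => by
      simp only [mem_biUnion, mem_image, mem_range, eq_comm]⟩
  have hBc : ∀ v, D.cl v ≠ 4 → v ∈ univ \ B := by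
    intro v a
    refine mem_sdiff.2 ⟨mem_univ _, fun b => ?_⟩
    obtain ⟨ρ, -, i, hi, rfl⟩ := (hB v).1 b
    exact a (h.yc _ i hi)
  refine ⟨B, fun i => (T i).card, fun i => ?_, fun Z hZ => ?_⟩
  · rcases hT0 i with ⟨ρ, a, rfl⟩ | a
    · exact ⟨(congrArg card (hT1 ρ a)).trans_le (hc.tn ρ a), fun _ => ⟨ρ, a, rfl⟩⟩
    · simp [a]
  obtain ⟨A, hA⟩ : ∃ A : ℕ → Finset V,
      ∀ i, A i = if i ∈ Z then insert (D.sl (D.p i)) (T i) else T i := ⟨_, fun _ => rfl⟩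
  have hAm : ∀ i v, v ∈ A i → v ∈ T i ∨ (i ∈ Z ∧ v = D.sl (D.p i)) := by
    intro i v a
    rw [hA] at a
    split_ifs at a with b
    · exact (mem_insert.1 a).symm.imp_right fun e => ⟨b, e⟩
    · exact Or.inl a
  have hAT : ∀ i, T i ⊆ A i := by
    intro i
    rw [hA]
    split_ifs
    · exact subset_insert _ _
    · exact Subset.rfl
  have hAc : ∀ i, ∀ v ∈ A i, (D.cl v = 3 ∧ v ∉ D.X 3) ∨ D.cl v = 5 := by
    intro i v a
    rcases hAm i v a with b | ⟨-, rfl⟩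
    · exact Or.inl (hTc i v b)
    · exact Or.inr (h.hs _).2
  have hAp : ∀ i, ∀ j < D.N, D.p j ∉ A i := by
    intro i j hj a
    rcases hAc i _ a with ⟨b, c⟩ | b
    · exact c ((cq j hj).2.2 3 (by omega) le_rfl b)
    · exact (cq j hj).2.1 b
  obtain ⟨Rm, hRm⟩ : ∃ Rm : Finset V,
      ∀ v, v ∈ Rm ↔ v ∈ univ \ B ∧ (∀ j < D.N, D.p j ≠ v) ∧ ∀ i < D.N2, v ∉ A i :=
    ⟨univ.filter fun v => v ∈ univ \ B ∧ (∀ j < D.N, D.p j ≠ v) ∧ ∀ i < D.N2, v ∉ A i,
      fun v => by rw [mem_filter, and_iff_right (mem_univ v)]⟩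
  have hW : ∀ j, 1 ≤ j → j ≤ 2 → cs D.cl j \ D.X j ⊆ Rm := by
    intro j a b v hv
    obtain ⟨c, d⟩ := mem_sdiff.1 hv
    rw [mem_cs] at c
    refine (hRm v).2 ⟨hBc v (by omega), fun i hi e => ?_, fun i _ e => ?_⟩
    · subst e
      exact d ((cq i hi).2.2 j a (by omega) c)
    · rcases hAc i v e with ⟨e', -⟩ | e' <;> omega
  obtain ⟨tg, htg, hcn⟩ := hang h.hH (h.fo 1 le_rfl (by omega)) (h.fo 2 (by omega) (by omega))
    (disjoint_left.2 fun v a b => by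
      rw [mem_cs] at a b
      omega)
    (Rt.image D.p) Rm
    (fun x a x' b c => by
      obtain ⟨ρ, a', rfl⟩ := mem_image.1 a
      obtain ⟨ρ', b', rfl⟩ := mem_image.1 b
      exact hc.sep ρ a' ρ' b' fun e => c (by rw [e]))
    (hW 1 le_rfl (by omega)) (hW 2 (by omega) le_rfl)
    (disjoint_left.2 fun v a b => by
      obtain ⟨i, -, c, e⟩ := h.x12 v b
      exact ((hRm v).1 a).2.1 i c e)
  have hBl := blocks h.ln h.lt.le A tg (fun i hi => hBc _ (cq i hi).1)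
    (fun i _ v a => hBc v (by rcases hAc i v a with ⟨e, -⟩ | e <;> omega))
    (fun i _ => by
      have a : Conn G (insert (D.p i) (T i)) := by
        rcases hT0 i with ⟨ρ, a, rfl⟩ | a
        · rw [hT1 ρ a]
          exact hc.tk ρ a
        · rw [a]
          exact Conn.single _
      rw [hA]
      split_ifs
      · rw [insert_comm]
        exact a.insert (mem_insert_self _ _) (h.hH (h.hs _).1).symm
      · exact a)
    (fun i _ => hAp i)
    (fun i _ j _ e => disjoint_left.2 fun v a b => by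
      rcases hAm i v a with a | ⟨a, a'⟩ <;> rcases hAm j v b with b | ⟨b, b'⟩
      · obtain ⟨ρ, a1, a2, a3⟩ := (hT i v).1 a
        obtain ⟨ρ', b1, b2, b3⟩ := (hT j v).1 b
        exact disjoint_left.1 (hc.td ρ a1 ρ' b1 fun c => e (by rw [← a2, ← b2, c])) a3 b3
      · have c1 := (hTc i v a).1
        have c2 := (h.hs (D.p j)).2
        rw [← b'] at c2
        omega
      · have c1 := (hTc j v b).1
        have c2 := (h.hs (D.p i)).2
        rw [← a'] at c2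
        omega
      · exact e (hc.si i (hZ a) j (hZ b) (a'.symm.trans b')))
    hRm (fun v _ => h.x12 _ (htg v).1) hcn
  refine ⟨_, hBl, ⟨hc.pos, fun ρ _ => h.hH (h.y0 _), fun ρ _ i hi => h.hT (h.ys _ i hi),
    fun ρ a => ?_, fun ρ a ρ' b i hi i' hi' e => ?_, hB⟩, fun i hi => ?_, fun i a b => ?_,
    fun ρ a => ?_⟩
  · obtain ⟨v, b, c⟩ := hc.tl ρ a
    refine ⟨v, ?_, c⟩
    rw [if_pos (hc.pos ρ a).2.2]
    rw [← hT1 ρ a] at b
    exact insert_subset_insert _ (hAT _) b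
  · have c := hc.yinj ρ a ρ' b i hi i' hi' e
    subst c
    exact ⟨rfl, h.yi _ i hi i' hi' e⟩
  · rw [if_pos hi, card_insert_of_notMem (hAp i i (hi.trans h.lt)), hA]
    dsimp only
    split_ifs
    · rw [card_insert_of_notMem fun b => by
        have c1 := (hTc i _ b).1
        have c2 := (h.hs (D.p i)).2
        omega]
      omega
    · omega
  · rw [if_neg (by omega)]
    refine (card_insert_le _ _).trans (Nat.succ_le_succ (le_trans (card_le_card fun v hv => ?_)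
      ((ball_card h.dH (D.p i) 27).trans hL)))
    exact mem_filter.2 ⟨mem_univ _, (mem_filter.1 hv).2 ▸ (htg v).2.2⟩
  · rw [if_neg (by have := (hc.pos ρ a).1; omega), filter_false_of_mem
      fun v _ (e : tg v = D.p ρ) => (htg v).2.1 (e ▸ mem_image_of_mem _ a)]
    rfl

end Pool.Agent.Lib.MP_f20cd2_co.EX
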