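import Pool.Agent.Lib.MP_f20cd2_co.EX.Num

set_option autoImplicit false

namespace Pool.Agent.Lib.MP_f20cd2_co.EX

open Finset

open NumAux in
/-- The corrections. -/
theorem corr (N2 N L L' M K k j2 : ℕ) (w : ℕ → ℕ) (Rt : Finset ℕ) (al : ℕ → ℕ) (S : ℕ → ℕ)
    (hw : ∀ i, N2 ≤ i → i < N → 1 ≤ w i ∧ w i ≤ L + 1)
    (hRt : ∀ ρ ∈ Rt, N2 ≤ ρ ∧ ρ < N ∧ al ρ < N2)
    (hwin : ∀ x, N2 ≤ x → x + M ≤ N → ∃ ρ ∈ Rt, x ≤ ρ ∧ ρ < x + M)
    (hS0 : S 0 = 0) (hS : ∀ j, S j + K ≤ S (j + 1)) (hK : (L + 1) * (2 * M + 2) ≤ K)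
    (hL' : (L + 1) ^ 2 ≤ L') (hN : N2 < N) (htot : ∑ i ∈ range N, w i = S k)
    (hcut : ∀ j, 1 ≤ j → j ≤ j2 → ∃ c, L' ≤ c ∧ c + L' ≤ N2 ∧ ∑ i ∈ range c, w i = S j ∧
      ∀ i, c ≤ i + L' → i < c + L' → w i = 1 ∧ ∀ ρ ∈ Rt, al ρ ≠ i)
    (hjun : ∑ i ∈ range N2, w i ≤ S (j2 + 1)) :
    ∃ δ : ℕ → ℤ, (∀ ρ, |δ ρ| ≤ L) ∧ ∀ j ≤ k, ∃ x ≤ N,
      ∑ i ∈ range x, ((w i : ℤ) - (if i ∈ Rt then δ i else 0) +
        ∑ ρ ∈ Rt.filter (fun ρ => al ρ = i), δ ρ) = S j := by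
  obtain ⟨ε, h1, h2⟩ := cuts (ω := w) (ld := al) (A := S) (k := k) hN.le
    (fun y y1 y2 => (hw y y1 y2).2) hRt hwin hK hS0 (fun i _ => hS i) htot.symm fun i i1 _ => by
      by_cases hi : i ≤ j2
      · obtain ⟨c, c1, c2, c3, c4⟩ := hcut i i1 hi
        change pre w c = S i at c3
        refine Or.inr ⟨c, by omega, by omega, fun p hp => ?_, fun z a1 a2 => ?_⟩
        · by_contra hn
          exact (c4 (al p) (by omega) (by omega)).2 p hp rfl
        · rcases le_total z c with a3 | a3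
          · have := pre_one (f := w) a3 fun y y1 y2 => (c4 y (by omega) (by omega)).1
            omega
          · have := pre_one (f := w) a3 fun y y1 y2 => (c4 y (by omega) (by omega)).1
            omega
      · left
        change pre w N2 ≤ S (j2 + 1) at hjun
        rcases (show j2 + 1 ≤ i by omega).eq_or_lt with e | e
        · exact e ▸ hjun
        · have := A_mono (k := i) (fun j _ => hS j) e le_rfl
          omega
  refine ⟨fun p => -ε p, fun p => by rw [abs_neg]; exact h1 p, fun j hj => ?_⟩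
  obtain ⟨x, hx, h3⟩ := h2 j hj
  refine ⟨x, hx, Eq.trans ?_ h3⟩
  have e1 : ∑ i ∈ range x, (if i ∈ Rt then -ε i else 0) =
      -∑ p ∈ Rt, (if p < x then ε p else 0) := by
    rw [sum_ite_mem, ← sum_filter, ← sum_neg_distrib]
    refine sum_congr ?_ fun _ _ => rfl
    ext p
    simp only [mem_inter, mem_range, mem_filter, and_comm]
  have e2 : ∑ i ∈ range x, ∑ ρ ∈ Rt.filter (fun ρ => al ρ = i), -ε ρ =
      -∑ p ∈ Rt, (if al p < x then ε p else 0) := by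
    simp only [sum_filter]
    rw [sum_comm, ← sum_neg_distrib]
    refine sum_congr rfl fun p _ => ?_
    rw [sum_ite_eq]
    simp only [mem_range]
    split_ifs <;> simp
  rw [sum_add_distrib, sum_sub_distrib, e1, e2, pre, Nat.cast_sum]
  ring

end Pool.Agent.Lib.MP_f20cd2_co.EX
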