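import Pool.Agent.Lib.MP_f20cd2_co.EX.Defs

set_option autoImplicit false
set_option linter.unusedSectionVars false

namespace Pool.Agent.Lib.MP_f20cd2_co.EX

open Finset
open Pool.Agent.Lib.MP_f20cd2_co.H83 (Conn Cells)
open Pool.Agent.Lib.MP_f20cd2_co.PL
open Pool.Agent.Lib.MP_f20cd2_co.HM (dg)
open Pool.Agent.Lib.MP_f20cd2_co.DP
open scoped Classical

variable {V : Type} [Fintype V] [DecidableEq V] {G : SimpleGraph V}

/-- The first `e ρ` vertices of the bridge `ρ` join the block `ρ`, the others the block `al ρ`: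
`R i = F i ∪ (first part if i ∈ Rt) ∪ (last parts of the ρ ∈ Rt with al ρ = i)`. -/
theorem split {Y B : Finset V} {N2 N L : ℕ} {p : ℕ → V} {F : ℕ → Finset V} {Rt : Finset ℕ}
    {al : ℕ → ℕ} {y : ℕ → ℕ → V} (hF : Bl G (Y \ B) N p F) (hB : Br G B N2 N L p F Rt al y)
    (hBY : B ⊆ Y) (e : ℕ → ℕ) (he : ∀ ρ ∈ Rt, e ρ ≤ 2 * L) :
    ∃ R, Bl G Y N p R ∧ ∀ i < N, (R i).card = (F i).card + (if i ∈ Rt then e i else 0) +
      ∑ ρ ∈ Rt.filter (fun ρ => al ρ = i), (2 * L - e ρ) := by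
  have hyB : ∀ ρ ∈ Rt, ∀ t < 2 * L, y ρ t ∈ B := fun ρ hρ t ht => (hB.mem _).2 ⟨ρ, hρ, t, ht, rfl⟩
  have hFB : ∀ i < N, ∀ v ∈ F i, v ∉ B := fun i hi v hv => (mem_sdiff.1 (hF.sub i hi hv)).2
  obtain ⟨ow, how⟩ : ∃ ow : ℕ × ℕ → ℕ, ∀ q, ow q = if q.2 < e q.1 then q.1 else al q.1 :=
    ⟨_, fun _ => rfl⟩
  obtain ⟨P, hP⟩ : ∃ P : ℕ → Finset (ℕ × ℕ), ∀ i q, q ∈ P i ↔ (q.1 ∈ Rt ∧ q.2 < 2 * L) ∧ ow q = i :=
    ⟨fun i => (Rt ×ˢ range (2 * L)).filter fun q => ow q = i, fun i q => by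
      simp only [mem_filter, mem_product, mem_range]⟩
  obtain ⟨R, hR⟩ : ∃ R : ℕ → Finset V, ∀ i, R i = F i ∪ (P i).image fun q => y q.1 q.2 :=
    ⟨_, fun _ => rfl⟩
  have mR : ∀ i v, v ∈ R i ↔ v ∈ F i ∨ ∃ ρ ∈ Rt, ∃ t < 2 * L, ow (ρ, t) = i ∧ y ρ t = v := by
    intro i v
    rw [hR, mem_union, mem_image]
    refine or_congr_right ⟨?_, ?_⟩
    · rintro ⟨q, hq, rfl⟩
      obtain ⟨⟨h1, h2⟩, h3⟩ := (hP i q).1 hq
      exact ⟨q.1, h1, q.2, h2, h3, rfl⟩
    · rintro ⟨ρ, h1, t, h2, h3, rfl⟩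
      exact ⟨(ρ, t), (hP i _).2 ⟨⟨h1, h2⟩, h3⟩, rfl⟩
  refine ⟨R, ⟨hF.adj, fun i hi => (mR _ _).2 (Or.inl (hF.mem i hi)), fun i hi => ?_,
    fun i hi v hv => ?_, fun i hi j hj hne => ?_, fun v hv => ?_⟩, fun i hi => ?_⟩
  · refine BasicAux.of_const ((mR _ _).2 (Or.inl (hF.mem i hi))) fun A hA v hv => ?_
    have h0 : ∀ v ∈ F i, (A v ↔ A (p i)) := fun v hv => BasicAux.const (hF.conn i hi) A
      (fun a ha b hb => hA a ((mR _ _).2 (Or.inl ha)) b ((mR _ _).2 (Or.inl hb))) v hv _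
      (hF.mem i hi)
    rcases (mR _ _).1 hv with hv | ⟨ρ, hρ, t, ht, h3, rfl⟩
    · exact h0 v hv
    have hm : ∀ s < 2 * L, ow (ρ, s) = i → y ρ s ∈ R i := fun s hs h =>
      (mR _ _).2 (Or.inr ⟨ρ, hρ, s, hs, h, rfl⟩)
    by_cases c : t < e ρ
    · have e1 : ρ = i := by rw [← h3, how, if_pos c]
      have hm' : ∀ s < e ρ, y ρ s ∈ R i := fun s hs =>
        hm s (hs.trans_le (he ρ hρ)) (by rw [how, if_pos hs, e1])
      clear h3 hv
      induction t with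
      | zero =>
        exact (hA _ ((mR _ _).2 (Or.inl (hF.mem i hi))) _ (hm' 0 c) (e1 ▸ hB.first ρ hρ)).symm
      | succ t ih =>
        exact (hA _ (hm' t (by omega)) _ (hm' _ c) (hB.adj ρ hρ t ht)).symm.trans
          (ih (by omega) (by omega))
    · have e1 : al ρ = i := by rw [← h3, how, if_neg c]
      have hm' : ∀ s < 2 * L, ¬ s < e ρ → y ρ s ∈ R i := fun s hs hc =>
        hm s hs (by rw [how, if_neg hc, e1])
      have key : ∀ n s, s + n + 1 = 2 * L → ¬ s < e ρ → (A (y ρ s) ↔ A (p i)) := by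
        intro n
        induction n with
        | zero =>
          intro s hs hc
          obtain ⟨w, w1, w2⟩ := hB.last ρ hρ
          rw [e1] at w1
          rw [show 2 * L - 1 = s by omega] at w2
          exact (hA _ (hm' s (by omega) hc) _ ((mR _ _).2 (Or.inl w1)) w2).trans (h0 w w1)
        | succ n ih =>
          intro s hs hc
          exact (hA _ (hm' s (by omega) hc) _ (hm' (s + 1) (by omega) (by omega))
            (hB.adj ρ hρ s (by omega))).trans (ih (s + 1) (by omega) (by omega))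
      exact key (2 * L - 1 - t) t (by omega) c
  · rcases (mR _ _).1 hv with hv | ⟨ρ, hρ, t, ht, -, rfl⟩
    · exact (mem_sdiff.1 (hF.sub i hi hv)).1
    · exact hBY (hyB ρ hρ t ht)
  · rw [disjoint_left]
    intro v h1 h2
    rcases (mR _ _).1 h1 with h1 | ⟨ρ, hρ, t, ht, h3, rfl⟩
    · rcases (mR _ _).1 h2 with h2 | ⟨ρ, hρ, t, ht, -, rfl⟩
      · exact disjoint_left.1 (hF.disj i hi j hj hne) h1 h2
      · exact hFB i hi _ h1 (hyB ρ hρ t ht)
    · rcases (mR _ _).1 h2 with h2 | ⟨ρ', hρ', t', ht', h4, h5⟩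
      · exact hFB j hj _ h2 (hyB ρ hρ t ht)
      · obtain ⟨rfl, rfl⟩ := hB.inj ρ' hρ' ρ hρ t' ht' t ht h5
        exact hne (h3.symm.trans h4)
  · by_cases c : v ∈ B
    · obtain ⟨ρ, hρ, t, ht, rfl⟩ := (hB.mem v).1 c
      refine ⟨ow (ρ, t), ?_, (mR _ _).2 (Or.inr ⟨ρ, hρ, t, ht, rfl, rfl⟩)⟩
      have := hB.pos ρ hρ
      rw [how]
      split_ifs <;> simp only <;> omega
    · obtain ⟨i, hi, h1⟩ := hF.all v (mem_sdiff.2 ⟨hv, c⟩)
      exact ⟨i, hi, (mR _ _).2 (Or.inl h1)⟩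
  · have hd : Disjoint (F i) ((P i).image fun q => y q.1 q.2) := by
      rw [disjoint_left]
      intro v h1 h2
      obtain ⟨q, hq, rfl⟩ := mem_image.1 h2
      obtain ⟨⟨h3, h4⟩, -⟩ := (hP i q).1 hq
      exact hFB i hi _ h1 (hyB _ h3 _ h4)
    rw [hR, card_union_of_disjoint hd, card_image_of_injOn fun q hq q' hq' h => by
      obtain ⟨⟨h1, h2⟩, -⟩ := (hP i q).1 (mem_coe.1 hq)
      obtain ⟨⟨h3, h4⟩, -⟩ := (hP i q').1 (mem_coe.1 hq')
      obtain ⟨h5, h6⟩ := hB.inj _ h1 _ h3 _ h2 _ h4 h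
      exact Prod.ext h5 h6, add_assoc]
    congr 1
    rw [card_eq_sum_card_fiberwise (f := Prod.fst) (t := Rt)
      fun q hq => mem_coe.2 ((hP i q).1 (mem_coe.1 hq)).1.1]
    have h1 : ∀ ρ ∈ Rt, ((P i).filter fun q => q.1 = ρ).card =
        (if i = ρ then e ρ else 0) + if al ρ = i then 2 * L - e ρ else 0 := by
      intro ρ hρ
      have h2 := hB.pos ρ hρ
      have h3 := he ρ hρ
      have h4 : (P i).filter (fun q => q.1 = ρ) =
          ((range (2 * L)).filter fun t => ow (ρ, t) = i).image fun t => (ρ, t) := by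
        ext q
        simp only [mem_filter, mem_image, mem_range, hP]
        constructor
        · rintro ⟨⟨⟨-, h5⟩, h6⟩, rfl⟩
          exact ⟨q.2, ⟨h5, h6⟩, rfl⟩
        · rintro ⟨t, ⟨h5, h6⟩, rfl⟩
          exact ⟨⟨⟨hρ, h5⟩, h6⟩, rfl⟩
      rw [h4, card_image_of_injective _ fun a b h => (Prod.ext_iff.1 h).2]
      by_cases c1 : i = ρ
      · rw [if_pos c1, if_neg (by omega), add_zero, ← card_range (e ρ)]
        congr 1
        ext t
        simp only [mem_filter, mem_range, how]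
        split_ifs <;> omega
      · rw [if_neg c1, zero_add]
        by_cases c2 : al ρ = i
        · rw [if_pos c2, ← Nat.card_Ico]
          congr 1
          ext t
          simp only [mem_filter, mem_range, how, mem_Ico]
          split_ifs <;> omega
        · rw [if_neg c2, card_eq_zero, filter_eq_empty_iff]
          intro t _
          simp only [how]
          split_ifs <;> omega
    rw [sum_congr rfl h1, sum_add_distrib, sum_ite_eq, sum_filter]

end Pool.Agent.Lib.MP_f20cd2_co.EX
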