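import Mathlib

set_option autoImplicit false

namespace Pool.Agent.Lib.MP_f20cd2_co.EX

open Finset

namespace SweepAux

/-- weight of an initial segment -/
def wt (u : ℕ → ℕ) (Z : Finset ℕ) (n : ℕ) : ℕ :=
  ∑ i ∈ range n, (1 + u i + if i ∈ Z then 1 else 0)

lemma wt_mono (u : ℕ → ℕ) (Z : Finset ℕ) {a b : ℕ} (h : a ≤ b) : wt u Z a ≤ wt u Z b :=
  sum_le_sum_of_subset (range_mono h)

lemma wt_le {u : ℕ → ℕ} {U : ℕ} (hu : ∀ i, u i ≤ U) {Z : Finset ℕ} {a : ℕ} (hZ : ∀ z ∈ Z, z < a)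
    (k : ℕ) : wt u Z (a + k) ≤ wt u Z a + (U + 1) * k := by
  induction k with
  | zero => simp
  | succ k ih =>
    have h1 : wt u Z (a + (k + 1)) = wt u Z (a + k) + (1 + u (a + k) + 0) := by
      unfold wt
      rw [← add_assoc, sum_range_succ, if_neg fun h => by have := hZ _ h; omega]
    have h2 := hu (a + k)
    rw [h1, mul_add, mul_one]
    omega

lemma wt_union (u : ℕ → ℕ) {Z A : Finset ℕ} (h : Disjoint Z A) (n : ℕ) :
    wt u (Z ∪ A) n = wt u Z n + ((range n).filter fun i => i ∈ A).card := by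
  unfold wt
  rw [card_filter, ← sum_add_distrib]
  refine sum_congr rfl fun i _ => ?_
  by_cases h1 : i ∈ Z
  · have h2 : i ∉ A := disjoint_left.1 h h1
    simp [h1, h2]
  · by_cases h2 : i ∈ A <;> simp [h1, h2]

/-- the invariant of the sweep -/
def Inv (N2 L' : ℕ) (u : ℕ → ℕ) (St : Finset ℕ) (S : ℕ → ℕ) (j c : ℕ) (Z : Finset ℕ) : Prop :=
  Z ⊆ St ∧ (∀ z ∈ Z, z < c) ∧ c ≤ N2 ∧ j ≤ c ∧ wt u Z c = S j ∧
    ∀ j', 1 ≤ j' → j' ≤ j → ∃ c', c' ≤ c ∧ L' ≤ c' ∧ c' + L' ≤ N2 ∧ wt u Z c' = S j' ∧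
      ∀ i, c' ≤ i + L' → i < c' + L' → u i = 0 ∧ i ∉ Z

lemma step {N2 L' U M2 K : ℕ} {u : ℕ → ℕ} {St : Finset ℕ} {S : ℕ → ℕ}
    (hu : ∀ i, u i ≤ U) (hgap : ∀ i j, u i ≠ 0 → u j ≠ 0 → i < j → i + 4 * L' < j)
    (hSt : ∀ x, x + M2 ≤ N2 →
      (U + 1) * (3 * L' + 1) ≤ (St.filter fun i => x ≤ i ∧ i < x + M2).card)
    (hS : ∀ j, S j + K ≤ S (j + 1)) (hK : (U + 1) * (5 * L' + M2 + 1) ≤ K) {j c : ℕ}
    {Z : Finset ℕ} (h : Inv N2 L' u St S j c Z) (hN : S (j + 1) < wt u Z N2) :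
    ∃ c' Z', Inv N2 L' u St S (j + 1) c' Z' := by
  classical
  obtain ⟨h1, h2, h3, h4, h5, h6⟩ := h
  have hex : ∃ x, S (j + 1) < wt u Z x := ⟨N2, hN⟩
  have hx1 := Nat.find_spec hex
  have hx2 : Nat.find hex ≤ N2 := Nat.find_min' hex hN
  have hx3 : ∀ y, y < Nat.find hex → wt u Z y ≤ S (j + 1) := fun y hy =>
    not_lt.1 (Nat.find_min hex hy)
  generalize Nat.find hex = x at hx1 hx2 hx3
  have hx4 : c + (5 * L' + M2 + 1) < x := by
    by_contra hc
    have h7 := (wt_mono u Z (not_lt.1 hc)).trans (wt_le hu h2 _)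
    have h8 := hS j
    omega
  obtain ⟨c1, hc1, hc2, hc3⟩ : ∃ c1, c1 + L' + 1 ≤ x ∧ x ≤ c1 + (3 * L' + 1) ∧
      ∀ i, c1 ≤ i + L' → i < c1 + L' → u i = 0 := by
    by_cases hz : ∀ i, x - 1 - L' ≤ i + L' → i < x - 1 - L' + L' → u i = 0
    · exact ⟨x - 1 - L', by omega, by omega, hz⟩
    · push Not at hz
      obtain ⟨b, hb1, hb2, hb3⟩ := hz
      refine ⟨x - 1 - 3 * L', by omega, by omega, fun a ha1 ha2 => ?_⟩
      by_contra ha3
      have := hgap a b ha3 hb3 (by omega)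
      omega
  have hw1 : wt u Z c1 ≤ S (j + 1) := hx3 c1 (by omega)
  have hw2 : S (j + 1) - wt u Z c1 ≤ (U + 1) * (3 * L' + 1) := by
    have h7 := (wt_mono u Z hc2).trans
      (wt_le hu (a := c1) (fun z hz => by have := h2 z hz; omega) _)
    omega
  obtain ⟨A, hA1, hA2⟩ := exists_subset_card_eq (hw2.trans (hSt (c + L') (by omega)))
  have hA : ∀ a ∈ A, a ∈ St ∧ c + L' ≤ a ∧ a < c + L' + M2 := fun a ha => mem_filter.1 (hA1 ha)
  have hd : Disjoint Z A := disjoint_left.2 fun z hz ha => by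
    have := h2 z hz
    have := (hA z ha).2.1
    omega
  have hnew : wt u (Z ∪ A) c1 = S (j + 1) := by
    have h7 : (range c1).filter (fun i => i ∈ A) = A := by
      ext a
      rw [mem_filter, mem_range]
      exact ⟨fun h => h.2, fun h => ⟨by have := (hA a h).2.2; omega, h⟩⟩
    rw [wt_union u hd, h7, hA2]
    omega
  refine ⟨c1, Z ∪ A, union_subset h1 fun a ha => (hA a ha).1, fun z hz => ?_, by omega, by omega,
    hnew, fun j' hj1 hj2 => ?_⟩
  · rcases mem_union.1 hz with h | h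
    · have := h2 z h
      omega
    · have := (hA z h).2.2
      omega
  · rcases Nat.lt_or_ge j j' with h | h
    · obtain rfl : j' = j + 1 := by omega
      refine ⟨c1, le_rfl, by omega, by omega, hnew, fun i hi1 hi2 => ⟨hc3 i hi1 hi2, fun hi => ?_⟩⟩
      rcases mem_union.1 hi with h | h
      · have := h2 i h
        omega
      · have := (hA i h).2.2
        omega
    · obtain ⟨c', g1, g2, g3, g4, g5⟩ := h6 j' hj1 h
      refine ⟨c', by omega, g2, g3, ?_, fun i hi1 hi2 => ⟨(g5 i hi1 hi2).1, fun hi => ?_⟩⟩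
      · rw [wt_union u hd, filter_false_of_mem, card_empty, add_zero, g4]
        intro a ha ha'
        have := (hA a ha').2.1
        have := mem_range.1 ha
        omega
      · rcases mem_union.1 hi with h | h
        · exact (g5 i hi1 hi2).2 h
        · have := (hA i h).2.1
          omega

end SweepAux

/-- The sweep along the first half of the path.  Invariant for `(j, c, Z)`: `Z ⊆ St`, all
elements of `Z` are below `c ≤ N2`, `j ≤ c`, the weight of `range c` is `S j`, every cut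
`1 ≤ j' ≤ j` has a good position `≤ c`.  If the weight of `range N2` exceeds `S (j + 1)` let `x0`
be the largest `x` with weight of `range x` at most `S (j + 1)`; then
`c + 5 * L' + M2 + 1 ≤ x0 < N2`; one of `x0 - L'`, `x0 - 3 * L'` has a zone without `u`; the
missing weight is at most `(U + 1) * (3 * L' + 1)` and is taken from `St` in the window that
starts at `c + L'`. -/
theorem sweep (N2 L' U M2 K : ℕ) (u : ℕ → ℕ) (St : Finset ℕ) (S : ℕ → ℕ)
    (hu : ∀ i, u i ≤ U) (hgap : ∀ i j, u i ≠ 0 → u j ≠ 0 → i < j → i + 4 * L' < j)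
    (hSt : ∀ x, x + M2 ≤ N2 →
      (U + 1) * (3 * L' + 1) ≤ (St.filter fun i => x ≤ i ∧ i < x + M2).card)
    (hS0 : S 0 = 0) (hS : ∀ j, S j + K ≤ S (j + 1)) (hK : (U + 1) * (5 * L' + M2 + 1) ≤ K) :
    ∃ (Z : Finset ℕ) (j2 : ℕ), Z ⊆ St ∧
      (∀ j, 1 ≤ j → j ≤ j2 → ∃ c, L' ≤ c ∧ c + L' ≤ N2 ∧
        ∑ i ∈ range c, (1 + u i + if i ∈ Z then 1 else 0) = S j ∧
        ∀ i, c ≤ i + L' → i < c + L' → u i = 0 ∧ i ∉ Z) ∧
      ∑ i ∈ range N2, (1 + u i + if i ∈ Z then 1 else 0) ≤ S (j2 + 1) := by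
  by_contra hno
  have key : ∀ j, ∃ c Z, SweepAux.Inv N2 L' u St S j c Z := by
    intro j
    induction j with
    | zero =>
      exact ⟨0, ∅, empty_subset _, fun z hz => absurd hz (notMem_empty z), Nat.zero_le _, le_rfl,
        hS0.symm, fun j' h1 h2 => by omega⟩
    | succ j ih =>
      obtain ⟨c, Z, h⟩ := ih
      refine SweepAux.step hu hgap hSt hS hK h (not_le.1 fun hN => hno ⟨Z, j, h.1, ?_, hN⟩)
      intro j' h1 h2
      obtain ⟨c', -, g⟩ := h.2.2.2.2.2 j' h1 h2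
      exact ⟨c', g⟩
  obtain ⟨c, Z, -, -, h1, h2, -⟩ := key (N2 + 1)
  omega

end Pool.Agent.Lib.MP_f20cd2_co.EX
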