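import Pool.Agent.Lib.MP_f20cd2_co.EX.Cuts
import Pool.Agent.Lib.MP_f20cd2_co.EX.Split
import Pool.Agent.Lib.MP_f20cd2_co.EX.Sweep
import Pool.Agent.Lib.MP_f20cd2_co.EX.Corr

set_option autoImplicit false
set_option linter.unusedSectionVars false

namespace Pool.Agent.Lib.MP_f20cd2_co.EX

open Finset
open Pool.Agent.Lib.MP_f20cd2_co.H83 (Conn Cells)
open Pool.Agent.Lib.MP_f20cd2_co.PL
open Pool.Agent.Lib.MP_f20cd2_co.HM (dg)
open Pool.Agent.Lib.MP_f20cd2_co.DP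
open scoped Classical

variable {V : Type} [Fintype V] [DecidableEq V] {G : SimpleGraph V}

/-- `S j = ∑ i ∈ range j, (if i < k then a i else K)`;
`u i = τ i + ∑ ρ ∈ Rt.filter (al ρ = i), L`, `U = L + 27`; `sweep` gives `Z`, `hF` gives `F`;
`w i = (F i).card + (if i ∈ Rt then L else 0) + ∑ ρ ∈ Rt.filter (al ρ = i), L`, its total is
`Y.card` by `split` with `e = L` and `Bl.total`; `corr` gives `δ`; `split` with
`e ρ = (L - δ ρ).toNat`; `pack_of_cuts`. -/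
theorem core {Y B : Finset V} {N2 N L M M2 K : ℕ} {p : ℕ → V} {Rt St : Finset ℕ}
    {al τ : ℕ → ℕ} {y : ℕ → ℕ → V} (hBY : B ⊆ Y) (hN : N2 < N) (hL : 0 < L)
    (hF : ∀ Z ⊆ St, ∃ F, Bl G (Y \ B) N p F ∧ Br G B N2 N L p F Rt al y ∧
      (∀ i < N2, (F i).card = 1 + τ i + if i ∈ Z then 1 else 0) ∧
      (∀ i, N2 ≤ i → i < N → (F i).card ≤ L + 1) ∧ ∀ ρ ∈ Rt, (F ρ).card = 1)
    (hτ : ∀ i, τ i ≤ 27 ∧ (τ i ≠ 0 → ∃ ρ ∈ Rt, al ρ = i))
    (hgap : ∀ ρ ∈ Rt, ∀ ρ' ∈ Rt, ρ ≠ ρ' →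
      al ρ + 4 * (L + 1) ^ 2 < al ρ' ∨ al ρ' + 4 * (L + 1) ^ 2 < al ρ)
    (hwin : ∀ x, N2 ≤ x → x + M ≤ N → ∃ ρ ∈ Rt, x ≤ ρ ∧ ρ < x + M)
    (hSt : ∀ x, x + M2 ≤ N2 →
      (L + 28) * (3 * (L + 1) ^ 2 + 1) ≤ (St.filter fun i => x ≤ i ∧ i < x + M2).card)
    (hK1 : (L + 1) * (2 * M + 2) ≤ K) (hK2 : (L + 28) * (5 * (L + 1) ^ 2 + M2 + 1) ≤ K)
    (k : ℕ) (a : ℕ → ℕ) (ha : ∀ j < k, K ≤ a j) (hsum : ∑ j ∈ range k, a j = Y.card) :
    Pack G Y (range k) a := by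
  obtain ⟨S, hS⟩ : ∃ S : ℕ → ℕ, ∀ j, S j = ∑ i ∈ range j, (if i < k then a i else K) :=
    ⟨_, fun _ => rfl⟩
  obtain ⟨c, hc⟩ : ∃ c : ℕ → ℕ, ∀ i, c i = ∑ ρ ∈ Rt.filter (fun ρ => al ρ = i), L :=
    ⟨_, fun _ => rfl⟩
  have hS0 : S 0 = 0 := by simp [hS]
  have hS1 : ∀ j, S j + K ≤ S (j + 1) := fun j => by
    rw [hS, hS, sum_range_succ]
    split_ifs with h
    · exact Nat.add_le_add_left (ha j h) _
    · exact le_rfl
  have hSa : ∀ j ≤ k, S j = ∑ i ∈ range j, a i := fun j hj => by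
    rw [hS]
    exact sum_congr rfl fun i hi => if_pos (lt_of_lt_of_le (mem_range.1 hi) hj)
  have hcL : ∀ i, c i ≤ L := fun i => by
    have h1 : (Rt.filter fun ρ => al ρ = i).card ≤ 1 := by
      refine card_le_one.2 fun x hx z hz => ?_
      by_contra hne
      have h2 := hgap x (mem_filter.1 hx).1 z (mem_filter.1 hz).1 hne
      rw [(mem_filter.1 hx).2, (mem_filter.1 hz).2] at h2
      omega
    rw [hc, sum_const, smul_eq_mul]
    exact (Nat.mul_le_mul_right L h1).trans (by omega)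
  have hc0 : ∀ i, c i = 0 ↔ ∀ ρ ∈ Rt, al ρ ≠ i := fun i => by
    rw [hc, sum_const, smul_eq_mul, Nat.mul_eq_zero, card_eq_zero, filter_eq_empty_iff]
    exact ⟨fun h => h.resolve_right hL.ne', Or.inl⟩
  have hu : ∀ i, τ i + c i ≠ 0 → ∃ ρ ∈ Rt, al ρ = i := fun i h => by
    by_cases h1 : τ i = 0
    · by_contra h2
      exact h (by rw [h1, (hc0 i).2 fun ρ hρ e => h2 ⟨ρ, hρ, e⟩])
    · exact (hτ i).2 h1
  obtain ⟨Z, j2, hZ, hcut, hjun⟩ := sweep N2 ((L + 1) ^ 2) (L + 27) M2 K (fun i => τ i + c i) St S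
    (fun i => by
      have h1 := (hτ i).1
      have h2 := hcL i
      omega)
    (fun i j hi hj hij => by
      obtain ⟨x, hx, rfl⟩ := hu i hi
      obtain ⟨z, hz, rfl⟩ := hu j hj
      have h2 := hgap x hx z hz (by
        rintro rfl
        omega)
      omega)
    hSt hS0 hS1 hK2
  obtain ⟨F, hBl, hBr, f1, f2, f3⟩ := hF Z hZ
  obtain ⟨w, hw⟩ : ∃ w : ℕ → ℕ, ∀ i, w i = (F i).card + (if i ∈ Rt then L else 0) + c i :=
    ⟨_, fun _ => rfl⟩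
  have w1 : ∀ i < N2, w i = 1 + (τ i + c i) + if i ∈ Z then 1 else 0 := fun i hi => by
    have h1 : i ∉ Rt := fun h => by
      have := (hBr.pos i h).1
      omega
    rw [hw, f1 i hi, if_neg h1]
    omega
  have w2 : ∀ x ≤ N2, ∑ i ∈ range x, w i =
      ∑ i ∈ range x, (1 + (τ i + c i) + if i ∈ Z then 1 else 0) := fun x hx =>
    sum_congr rfl fun i hi => w1 i (lt_of_lt_of_le (mem_range.1 hi) hx)
  have htot : ∑ i ∈ range N, w i = S k := by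
    obtain ⟨R, r1, r2⟩ := split hBl hBr hBY (fun _ => L) (fun _ _ => by omega)
    rw [hSa k le_rfl, hsum, ← r1.total]
    refine sum_congr rfl fun i hi => ?_
    rw [r2 i (mem_range.1 hi), hw, hc, show 2 * L - L = L by omega]
  obtain ⟨δ, hδ, hx⟩ := corr N2 N L ((L + 1) ^ 2) M K k j2 w Rt al S
    (fun i h1 h2 => by
      have h3 : c i = 0 := (hc0 i).2 fun ρ hρ e => by
        have := (hBr.pos ρ hρ).2.2
        omega
      have h4 : 0 < (F i).card := card_pos.2 ⟨_, hBl.mem i h2⟩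
      have h5 := f2 i h1 h2
      rw [hw, h3]
      split_ifs with h6
      · rw [f3 i h6]
        omega
      · omega)
    hBr.pos hwin hS0 hS1 hK1 le_rfl hN htot
    (fun j h1 h2 => by
      obtain ⟨x, x1, x2, x3, x4⟩ := hcut j h1 h2
      refine ⟨x, x1, x2, by rw [w2 x (by omega), x3], fun i i1 i2 => ?_⟩
      obtain ⟨y1, y2⟩ := x4 i i1 i2
      have y3 : τ i + c i = 0 := y1
      refine ⟨?_, (hc0 i).1 (by omega)⟩
      rw [w1 i (by omega), y3, if_neg y2])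
    (by rw [w2 N2 le_rfl]; exact hjun)
  have he : ∀ ρ, ((((L : ℤ) - δ ρ).toNat : ℕ) : ℤ) = L - δ ρ ∧ ((L : ℤ) - δ ρ).toNat ≤ 2 * L ∧
      ((2 * L - ((L : ℤ) - δ ρ).toNat : ℕ) : ℤ) = L + δ ρ := fun ρ => by
    have h1 := abs_le.1 (hδ ρ)
    omega
  obtain ⟨R, r1, r2⟩ := split hBl hBr hBY (fun ρ => ((L : ℤ) - δ ρ).toNat) fun ρ _ => (he ρ).2.1
  have hK0 : 0 < K := lt_of_lt_of_le (by positivity) hK1
  refine pack_of_cuts r1 k a (fun j hj => hK0.trans_le (ha j hj)) fun j hj => ?_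
  obtain ⟨x, x1, x2⟩ := hx j hj
  refine ⟨x, x1, ?_⟩
  rw [← hSa j hj]
  have h1 : ((∑ i ∈ range x, (R i).card : ℕ) : ℤ) = S j := by
    rw [← x2, Nat.cast_sum]
    refine sum_congr rfl fun i hi => ?_
    rw [r2 i (lt_of_lt_of_le (mem_range.1 hi) x1), hw, hc]
    simp only [Nat.cast_add, Nat.cast_sum, Nat.cast_ite, Nat.cast_zero, (he _).1, (he _).2.2,
      sum_add_distrib]
    split_ifs <;> ring
  exact_mod_cast h1

end Pool.Agent.Lib.MP_f20cd2_co.EX
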