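import Pool.Agent.Lib.MP_f20cd2_co.EX.Defs

set_option autoImplicit false
set_option linter.unusedSectionVars false

namespace Pool.Agent.Lib.MP_f20cd2_co.EX

open Finset
open Pool.Agent.Lib.MP_f20cd2_co.H83 (Conn Cells)
open Pool.Agent.Lib.MP_f20cd2_co.PL
open Pool.Agent.Lib.MP_f20cd2_co.HM (dg)
open Pool.Agent.Lib.MP_f20cd2_co.DP
open scoped Classical

variable {V : Type} [Fintype V] [DecidableEq V] {G : SimpleGraph V}

/-- One position in every window: `transv` with `κ = Fin ((b - a) / l)`,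
`y k i = p (a + k * l + i)`. -/
theorem pick {N : ℕ} {p : ℕ → V} (hp : Ln G N p) (a b l Δ : ℕ) (hb : b ≤ N)
    (Cf : V → V → Prop) (hs : ∀ u v, Cf u v → Cf v u)
    (hΔ : ∀ u, (univ.filter fun v => Cf u v).card ≤ Δ) (h1 : 18 * Δ ≤ l) (h2 : 2 ≤ l) :
    ∃ Rt : Finset ℕ, (∀ ρ ∈ Rt, a ≤ ρ ∧ ρ < b) ∧
      (∀ x, a ≤ x → x + 2 * l ≤ b → ∃ ρ ∈ Rt, x ≤ ρ ∧ ρ < x + 2 * l) ∧
      ∀ ρ ∈ Rt, ∀ ρ' ∈ Rt, ρ ≠ ρ' → ¬ Cf (p ρ) (p ρ') := by
  have hl : 0 < l := by omega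
  have hlt : ∀ k : Fin ((b - a) / l), ∀ i < l, a + k * l + i < b := fun k i hi => by
    have h3 : ((k : ℕ) + 1) * l ≤ b - a := (Nat.le_div_iff_mul_le hl).1 k.2
    rw [add_mul, one_mul] at h3
    omega
  obtain ⟨f, hf, hc⟩ := transv (univ : Finset (Fin ((b - a) / l))) l Δ
    (fun k i => p (a + k * l + i)) (fun k _ k' _ i hi i' hi' e => by
      have h3 := hp.inj _ ((hlt k i hi).trans_le hb) _ ((hlt k' i' hi').trans_le hb) e
      have h4 : (k : ℕ) = k' := by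
        rcases lt_trichotomy (k : ℕ) k' with h | h | h
        · have := Nat.mul_le_mul_right l (Nat.succ_le_of_lt h)
          rw [Nat.succ_mul] at this
          omega
        · exact h
        · have := Nat.mul_le_mul_right l (Nat.succ_le_of_lt h)
          rw [Nat.succ_mul] at this
          omega
      refine ⟨Fin.ext h4, ?_⟩
      rw [h4] at h3
      omega) Cf hs hΔ h1 h2
  refine ⟨univ.image fun k : Fin ((b - a) / l) => a + k * l + f k, fun ρ hρ => ?_,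
    fun x hx hx' => ?_, fun ρ hρ ρ' hρ' hne => ?_⟩
  · obtain ⟨k, -, rfl⟩ := mem_image.1 hρ
    exact ⟨by omega, hlt k _ (hf k)⟩
  · have h3 := Nat.div_mul_le_self (x - a) l
    have h4 := Nat.lt_div_mul_add (a := x - a) hl
    have h5 : (x - a) / l + 1 < (b - a) / l := by
      refine (Nat.le_div_iff_mul_le hl).2 ?_
      rw [Nat.succ_mul, add_mul, one_mul]
      omega
    refine ⟨_, mem_image.2 ⟨⟨_, h5⟩, mem_univ _, rfl⟩, ?_⟩
    have h6 := hf ⟨_, h5⟩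
    simp only [add_mul, one_mul]
    omega
  · obtain ⟨k, -, rfl⟩ := mem_image.1 hρ
    obtain ⟨k', -, rfl⟩ := mem_image.1 hρ'
    exact hc k (mem_univ _) k' (mem_univ _) fun e => hne (by rw [e])

theorem count_win (St : Finset ℕ) (b M : ℕ)
    (h : ∀ x, x + M ≤ b → ∃ ρ ∈ St, x ≤ ρ ∧ ρ < x + M) (Q x : ℕ) (hx : x + Q * M ≤ b) :
    Q ≤ (St.filter fun i => x ≤ i ∧ i < x + Q * M).card := by
  induction Q with
  | zero => exact Nat.zero_le _
  | succ Q ih =>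
    rw [Nat.succ_mul] at hx ⊢
    obtain ⟨ρ, h1, h2, h3⟩ := h (x + Q * M) (by omega)
    refine (ih (by omega)).trans_lt (card_lt_card ⟨fun i hi => ?_, fun hs => ?_⟩)
    · obtain ⟨a, b, c⟩ := mem_filter.1 hi
      exact mem_filter.2 ⟨a, b, by omega⟩
    · have := (mem_filter.1 (hs (mem_filter.2 ⟨h1, by omega, by omega⟩))).2
      omega

end Pool.Agent.Lib.MP_f20cd2_co.EX
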