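import Pool.Agent.Lib.MP_f20cd2_co.EX.Forest
import Pool.Agent.Lib.MP_f20cd2_co.EX.Pick
import Pool.Agent.Lib.MP_f20cd2_co.DP.Cover

set_option autoImplicit false
set_option linter.unusedSectionVars false

namespace Pool.Agent.Lib.MP_f20cd2_co.EX

open Finset
open Pool.Agent.Lib.MP_f20cd2_co.H83 (Conn Cells)
open Pool.Agent.Lib.MP_f20cd2_co.PL
open Pool.Agent.Lib.MP_f20cd2_co.HM (dg)
open Pool.Agent.Lib.MP_f20cd2_co.DP
open scoped Classical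

variable {V : Type} [Fintype V] [DecidableEq V] {G : SimpleGraph V}

namespace RootsAux

lemma dg_sup_le (H K : SimpleGraph V) (v : V) : dg (H ⊔ K) v ≤ dg H v + dg K v := by
  unfold dg
  refine le_trans (card_le_card fun w hw => ?_) (card_union_le _ _)
  simpa using hw

lemma dg_seg_le {N : ℕ} {p : ℕ → V} (hp : Ln G N p) (v : V) : dg (seg p 0 (N - 1)) v ≤ 2 := by
  rcases Nat.eq_zero_or_pos (N - 1) with h | h
  · rw [h, HM.dg_eq_zero.2 fun w hw => by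
      obtain ⟨-, i, -, h2, -⟩ := seg_adj.1 hw
      omega]
    omega
  · rw [dg_seg h fun i _ hi j _ hj e => hp.inj i (by omega) j (by omega) e]
    split_ifs <;> omega

lemma nr_seg {N : ℕ} {p : ℕ → V} (hp : Ln G N p) (i k : ℕ) (h : i + k < N) :
    Nr (seg p 0 (N - 1)) k (p i) (p (i + k)) := by
  induction k with
  | zero => exact ⟨SimpleGraph.Walk.nil, le_rfl⟩
  | succ k ih =>
    exact (ih (by omega)).trans (SeedsAux.nr_adj (seg_adj.2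
      ⟨(hp.adj (i + k) h).ne, i + k, Nat.zero_le _, by omega, Or.inl ⟨rfl, rfl⟩⟩))

lemma nr_pos {N : ℕ} {p : ℕ → V} (hp : Ln G N p) {i j g : ℕ} (hi : i < N) (hj : j < N)
    (h1 : i ≤ j + g) (h2 : j ≤ i + g) : Nr (seg p 0 (N - 1)) g (p i) (p j) := by
  rcases le_total i j with h | h
  · obtain ⟨k, rfl⟩ := Nat.exists_eq_add_of_le h
    exact SeedsAux.nr_mono (nr_seg hp i k hj) (by omega)
  · obtain ⟨k, rfl⟩ := Nat.exists_eq_add_of_le h
    exact SeedsAux.nr_mono (nr_seg hp j k hi).symm (by omega)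

lemma nr_y {Δ L : ℕ} {D : Dat V} (h : D.Ok G Δ L) {H' : SimpleGraph V} (h1 : D.H ≤ H')
    (h2 : D.T ≤ H') (v : V) (i : ℕ) (hi : i < 2 * L) : Nr H' (i + 1) v (D.y v i) := by
  induction i with
  | zero => exact SeedsAux.nr_adj (h1 (h.y0 v))
  | succ i ih => exact (ih (by omega)).trans (SeedsAux.nr_adj (h2 (h.ys v i hi)))

end RootsAux

open RootsAux in
/-- `H' = D.H ⊔ D.T ⊔ seg D.p 0 (D.N2 - 1)` has degrees `≤ Δ + 10`.  Roots: `pick` on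
`[N2, N)` with `Cf u v = Nr H' (4 * L + g + 54) u v` and `l = 18 * (Δ + 11) ^ (4 * L + g + 54) + 2`.
`D.y v i` is within `i + 1` of `v`; for `z = D.y (D.p ρ) (2 * L - 1)` (colour 4, so not in
`D.X 3`) `Tl ρ` is `Fo.tail` in world 3 and `D.p (al ρ) = D.rt 3 z`; all are within `2 * L + 27`
of `D.p ρ`; positions below `N2` at distance `≤ g` are within `g` in `H'`.  Steering: `pick` on
`[0, N2)` with `Cf u v = (D.sl u = D.sl v)`, `l = 18 * Δ + 2`, and `count_win`. -/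
theorem roots {Δ L : ℕ} {D : Dat V} (h : D.Ok G Δ L) (hL : 0 < L) (g Q : ℕ) :
    ∃ Rt St al Tl, Ch G D L g (2 * (18 * (Δ + 11) ^ (4 * L + g + 54) + 2))
      (Q * (2 * (18 * Δ + 2))) Q Rt St al Tl := by
  obtain ⟨H', hH'⟩ : ∃ H', H' = D.H ⊔ D.T ⊔ seg D.p 0 (D.N - 1) := ⟨_, rfl⟩
  have a1 : D.H ≤ H' := hH' ▸ le_sup_left.trans le_sup_left
  have a2 : D.T ≤ H' := hH' ▸ le_sup_right.trans le_sup_left
  have a3 : seg D.p 0 (D.N - 1) ≤ H' := hH' ▸ le_sup_right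
  have hd : ∀ v, dg H' v ≤ Δ + 10 := fun v => by
    have h1 := dg_sup_le (D.H ⊔ D.T) (seg D.p 0 (D.N - 1)) v
    have h2 := dg_sup_le D.H D.T v
    have h3 := dg_seg_le h.ln v
    have h4 := h.dH v
    have h5 := h.dT v
    rw [hH']
    omega
  obtain ⟨Rt, r1, r2, r3⟩ := pick h.ln D.N2 D.N (18 * (Δ + 11) ^ (4 * L + g + 54) + 2)
    ((Δ + 11) ^ (4 * L + g + 54)) le_rfl (fun u v => Nr H' (4 * L + g + 54) u v)
    (fun _ _ a => a.symm) (fun u => le_trans (card_le_card fun v hv =>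
      mem_filter.2 ⟨mem_univ _, (mem_filter.1 hv).2.symm⟩) (ball_card hd u _))
    (Nat.le_add_right _ _) (Nat.le_add_left _ _)
  obtain ⟨St, s1, s2, s3⟩ := pick h.ln 0 D.N2 (18 * Δ + 2) Δ h.lt.le
    (fun u v => D.sl u = D.sl v) (fun _ _ a => a.symm) (fun u => le_trans (card_le_card fun v hv => by
      simp only [mem_filter, mem_univ, true_and] at hv ⊢
      exact hv ▸ (h.hs v).1.symm) (h.dH (D.sl u)))
    (Nat.le_add_right _ _) (Nat.le_add_left _ _)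
  have f3 := h.fo 3 (by omega) le_rfl
  have hz : ∀ ρ, D.y (D.p ρ) (2 * L - 1) ∉ D.X 3 := fun ρ hm => by
    have h1 := mem_cs.1 (f3.sub hm)
    have h2 := h.yc (D.p ρ) (2 * L - 1) (by omega)
    omega
  choose Tl t1 t2 t3 t4 using fun ρ => f3.tail h.hH _ (hz ρ)
  choose al b1 b2 using fun ρ => (h.x3 _).1 (f3.mem (D.y (D.p ρ) (2 * L - 1)))
  have n1 : ∀ ρ x, Nr D.H 27 (D.y (D.p ρ) (2 * L - 1)) x → Nr H' (2 * L + 27) (D.p ρ) x :=
    fun ρ x hx => SeedsAux.nr_mono ((nr_y h a1 a2 (D.p ρ) (2 * L - 1) (by omega)).trans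
      (Nr.mono_graph a1 le_rfl hx)) (by omega)
  have n2 : ∀ ρ, Nr H' (2 * L + 27) (D.p ρ) (D.p (al ρ)) := fun ρ =>
    n1 ρ _ (b2 ρ ▸ f3.nr _)
  refine ⟨Rt, St, al, Tl, fun ρ hρ => ⟨(r1 ρ hρ).1, (r1 ρ hρ).2, b1 ρ⟩, r2,
    fun ρ hρ ρ' hρ' e a => r3 ρ hρ ρ' hρ' e (Nr.mono_graph a1 (by omega) a),
    fun ρ hρ ρ' hρ' e => ?_, fun ρ hρ ρ' hρ' i hi i' hi' e => ?_,
    fun ρ _ v hv => ⟨mem_cs.1 (t1 ρ v hv).1, (t1 ρ v hv).2.1⟩, fun ρ _ => t2 ρ,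
    fun ρ _ => b2 ρ ▸ t3 ρ, fun ρ _ => b2 ρ ▸ t4 ρ, fun ρ hρ ρ' hρ' e => ?_,
    fun i hi => (s1 i hi).2,
    fun x hx => count_win St D.N2 _ (fun x hx => s2 x (Nat.zero_le _) hx) Q x hx,
    fun i hi j hj e => by_contra fun c => s3 i hi j hj c e⟩
  · by_contra c
    have h1 := nr_pos (g := g) h.ln ((b1 ρ).trans h.lt) ((b1 ρ').trans h.lt) (by omega) (by omega)
    exact r3 ρ hρ ρ' hρ' e (SeedsAux.nr_mono
      (((n2 ρ).trans (Nr.mono_graph a3 le_rfl h1)).trans (n2 ρ').symm) (by omega))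
  · by_contra c
    have h1 := nr_y h a1 a2 (D.p ρ) i hi
    have h2 := nr_y h a1 a2 (D.p ρ') i' hi'
    rw [← e] at h2
    exact r3 ρ hρ ρ' hρ' c (SeedsAux.nr_mono (h1.trans h2.symm) (by omega))
  · refine disjoint_left.2 fun x hx hx' => r3 ρ hρ ρ' hρ' e (SeedsAux.nr_mono
      ((n1 ρ x (t1 ρ x hx).2.2).trans (n1 ρ' x (t1 ρ' x hx').2.2).symm) (by omega))

end Pool.Agent.Lib.MP_f20cd2_co.EX
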