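import Pool.Agent.Lib.MP_f20cd2_co.EX.Back
import Pool.Agent.Lib.MP_f20cd2_co.EX.Roots
import Pool.Agent.Lib.MP_f20cd2_co.EX.Build
import Pool.Agent.Lib.MP_f20cd2_co.EX.Core

set_option autoImplicit false
set_option linter.unusedSectionVars false

namespace Pool.Agent.Lib.MP_f20cd2_co.EX

open Finset
open Pool.Agent.Lib.MP_f20cd2_co.H83 (Conn Cells)
open Pool.Agent.Lib.MP_f20cd2_co.PL
open Pool.Agent.Lib.MP_f20cd2_co.HM (dg)
open Pool.Agent.Lib.MP_f20cd2_co.DP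
open scoped Classical

variable {V : Type} [Fintype V] [DecidableEq V] {G : SimpleGraph V}

theorem big_ok (Δ L : ℕ) (hL : (Δ + 1) ^ 27 ≤ L) : ∃ K : ℕ, ∀ (V : Type) [Fintype V]
    [DecidableEq V] (G : SimpleGraph V) (D : Dat V), D.Ok G Δ L → ∀ (k : ℕ) (a : ℕ → ℕ),
      (∀ j < k, K ≤ a j) → ∑ j ∈ range k, a j = Fintype.card V → Pack G univ (range k) a := by
  refine ⟨(L + 1) * (2 * (2 * (18 * (Δ + 11) ^ (4 * L + 4 * (L + 1) ^ 2 + 54) + 2)) + 2) +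
    (L + 28) * (5 * (L + 1) ^ 2 + (L + 28) * (3 * (L + 1) ^ 2 + 1) * (2 * (18 * Δ + 2)) + 1), ?_⟩
  intro V _ _ G D h k a ha hsum
  have hL0 : 0 < L := lt_of_lt_of_le (by positivity) hL
  obtain ⟨Rt, St, al, Tl, hc⟩ := roots h hL0 (4 * (L + 1) ^ 2) ((L + 28) * (3 * (L + 1) ^ 2 + 1))
  obtain ⟨B, τ, hτ, hF⟩ := build h hL hc
  exact core (subset_univ B) h.lt hL0 hF hτ hc.gap hc.win hc.sw (Nat.le_add_right _ _)
    (Nat.le_add_left _ _) k a ha (by rw [hsum, card_univ])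

/-- All parts are large. -/
theorem big : ∃ K t : ℕ, 0 < K ∧ ∀ (V : Type) [Fintype V] [DecidableEq V] (G : SimpleGraph V),
    RT G univ (t : ℝ) → ∀ {ι : Type} (I : Finset ι) (a : ι → ℕ), (∀ i ∈ I, K ≤ a i) →
      ∑ i ∈ I, a i = Fintype.card V → Pack G univ I a := by
  obtain ⟨K, D0, al, hn, hal⟩ := nums
  obtain ⟨r, hr⟩ : ∃ r, r = 3 * (9 * K + 13) + 3 := ⟨_, rfl⟩
  obtain ⟨L, hL, hP⟩ := exists_L (r + 1) r
  obtain ⟨g, hg⟩ : ∃ g, g = (r + 1) * L := ⟨_, rfl⟩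
  obtain ⟨C, hC⟩ : ∃ C, C = (3 * (10 * g) + 1) ^ 27 := ⟨_, rfl⟩
  obtain ⟨K1, hK1⟩ := big_ok (3 * (10 * g)) C hC.ge
  obtain ⟨E, hE'⟩ : ∃ E, E = 10 * g * 9 ^ (2 * C) := ⟨_, rfl⟩
  refine ⟨K1 + 1, 2 * r * AS.Cst (20 * g) (201 * g) + 1 + 2 * (10 * g) + E, by omega, ?_⟩
  intro V _ _ G hT ι I a ha hsum
  by_cases hnc : ∃ u v, u ≠ v ∧ ¬ G.Adj u v
  · have : Nonempty V := ⟨hnc.choose⟩
    have hE := hT.expd (Nat.cast_nonneg _) hnc
    have hV : 2 * (2 * r * AS.Cst (20 * g) (201 * g) + 1 + 2 * (10 * g) + E) + 2 ≤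
        Fintype.card V := by exact_mod_cast hT.card_ge hnc
    obtain ⟨χ, Op, hLN, -⟩ := col_exists (G := G) (r + 1) L r (by omega) hL hP
      (Expd.mono' hE (by rw [← hg]; exact_mod_cast (by omega))) hT
      (by rw [← hg]; exact_mod_cast (by omega))
    rw [← hg] at hLN
    obtain ⟨D, hD⟩ := backbone hLN hn hal hr.ge C (by omega)
    exact pack_reindex univ I a (K1 + 1) ha fun k b hb hs =>
      hK1 V G D hD k b (fun j hj => (Nat.le_succ _).trans (hb j hj)) (hs.trans hsum)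
  · exact pack_complete (G := G) (fun u v huv => by
      by_contra h'
      exact hnc ⟨u, v, huv, h'⟩) I a (fun i hi => lt_of_lt_of_le (by omega) (ha i hi)) hsum.le

/-- The form with `Fin k`. -/
theorem big_fin : ∃ K t : ℕ, 0 < K ∧ ∀ (V : Type) [Fintype V] [DecidableEq V]
    (G : SimpleGraph V), RT G univ (t : ℝ) → ∀ (k : ℕ) (a : Fin k → ℕ), (∀ i, K ≤ a i) →
      ∑ i, a i = Fintype.card V → Pack G univ univ a := by
  obtain ⟨K, t, h0, h⟩ := big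
  exact ⟨K, t, h0, fun V _ _ G hT k a ha hs => h V G hT univ a (fun i _ => ha i) hs⟩

end Pool.Agent.Lib.MP_f20cd2_co.EX
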