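import Pool.Agent.Lib.MP_f20cd2_co.EX.Defs

set_option autoImplicit false
set_option linter.unusedSectionVars false

namespace Pool.Agent.Lib.MP_f20cd2_co.EX

open Finset
open Pool.Agent.Lib.MP_f20cd2_co.H83 (Conn Cells)
open Pool.Agent.Lib.MP_f20cd2_co.PL
open Pool.Agent.Lib.MP_f20cd2_co.HM (dg)
open Pool.Agent.Lib.MP_f20cd2_co.DP
open scoped Classical

variable {V : Type} [Fintype V] [DecidableEq V] {G : SimpleGraph V}

namespace Cuts

lemma card_blocks {Y : Finset V} {N : ℕ} {p : ℕ → V} {R : ℕ → Finset V} (h : Bl G Y N p R)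
    (I : Finset ℕ) (hI : ∀ i ∈ I, i < N) : (I.biUnion R).card = ∑ i ∈ I, (R i).card :=
  card_biUnion fun i hi j hj hij => h.disj i (hI i hi) j (hI j hj) hij

lemma lt_of_sum (w : ℕ → ℕ) {x y : ℕ} (h : ∑ i ∈ range x, w i < ∑ i ∈ range y, w i) : x < y := by
  by_contra hc
  have h1 : ∑ i ∈ range y, w i ≤ ∑ i ∈ range x, w i :=
    sum_le_sum_of_subset (range_subset_range.2 (by omega))
  omega

end Cuts

theorem Bl.total {Y : Finset V} {N : ℕ} {p : ℕ → V} {R : ℕ → Finset V} (h : Bl G Y N p R) :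
    ∑ i ∈ range N, (R i).card = Y.card := by
  rw [← Cuts.card_blocks h _ fun i hi => mem_range.1 hi]
  congr 1
  ext v
  rw [mem_biUnion]
  constructor
  · rintro ⟨i, hi, hv⟩
    exact h.sub i (mem_range.1 hi) hv
  · intro hv
    obtain ⟨i, hi, hv'⟩ := h.all v hv
    exact ⟨i, mem_range.2 hi, hv'⟩

/-- Part `j` is the union of the blocks between the positions of the cuts `j` and `j + 1`
(`conn_biUnion`). -/
theorem pack_of_cuts {Y : Finset V} {N : ℕ} {p : ℕ → V} {R : ℕ → Finset V} (h : Bl G Y N p R)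
    (k : ℕ) (a : ℕ → ℕ) (hpos : ∀ j < k, 0 < a j)
    (hc : ∀ j ≤ k, ∃ x ≤ N, ∑ i ∈ range x, (R i).card = ∑ i ∈ range j, a i) :
    Pack G Y (range k) a := by
  choose! x hxN hx using hc
  have hlt : ∀ j < k, x j < x (j + 1) := by
    intro j hj
    refine Cuts.lt_of_sum (fun i => (R i).card) ?_
    rw [hx j hj.le, hx (j + 1) hj, sum_range_succ]
    have := hpos j hj
    omega
  have hmono : ∀ d i, i + d ≤ k → x i ≤ x (i + d) := by
    intro d
    induction d with
    | zero => intro i _; exact le_rfl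
    | succ d ih =>
      intro i hi
      exact (ih i (by omega)).trans (hlt (i + d) (by omega)).le
  have hin : ∀ j < k, ∀ i ∈ Ico (x j) (x (j + 1)), i < N := fun j hj i hi =>
    (mem_Ico.1 hi).2.trans_le (hxN (j + 1) hj)
  have hdis : ∀ i j, i < j → j < k → Disjoint ((Ico (x i) (x (i + 1))).biUnion R)
      ((Ico (x j) (x (j + 1))).biUnion R) := by
    intro i j hij hj
    rw [disjoint_biUnion_left]
    intro s hs
    rw [disjoint_biUnion_right]
    intro t ht
    refine h.disj s (hin i (hij.trans hj) s hs) t (hin j hj t ht) ?_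
    have h1 := hmono (j - (i + 1)) (i + 1) (by omega)
    rw [show i + 1 + (j - (i + 1)) = j by omega] at h1
    have h2 := (mem_Ico.1 hs).2
    have h3 := (mem_Ico.1 ht).1
    omega
  refine ⟨fun j => (Ico (x j) (x (j + 1))).biUnion R, fun j hj => ?_, fun i hi j hj hij => ?_⟩
  · have hj := mem_range.1 hj
    refine ⟨biUnion_subset.2 fun i hi => h.sub i (hin j hj i hi), ?_, ?_⟩
    · rw [Cuts.card_blocks h _ (hin j hj)]
      have h1 := sum_range_add_sum_Ico (fun i => (R i).card) (hlt j hj).le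
      have h2 := hx j hj.le
      have h3 := hx (j + 1) hj
      rw [sum_range_succ] at h3
      omega
    · refine conn_biUnion _ _ (x j) (mem_Ico.2 ⟨le_rfl, hlt j hj⟩)
        (fun i hi => h.conn i (hin j hj i hi)) fun i hi hne => ?_
      have h1 := mem_Ico.1 hi
      have h2 := hin j hj i hi
      obtain ⟨i', rfl⟩ : ∃ i', i = i' + 1 := ⟨i - 1, by omega⟩
      exact ⟨i', mem_Ico.2 ⟨by omega, by omega⟩, by omega, p (i' + 1), h.mem _ h2, p i',
        h.mem _ (by omega), (h.adj i' h2).symm⟩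
  · rcases lt_or_gt_of_ne hij with h1 | h1
    · exact hdis i j h1 (mem_range.1 hj)
    · exact (hdis j i h1 (mem_range.1 hi)).symm

/-- From sequences to arbitrary index sets (`Finset.equivFin`). -/
theorem pack_reindex {ι : Type} (Y : Finset V) (I : Finset ι) (a : ι → ℕ) (K : ℕ)
    (ha : ∀ i ∈ I, K ≤ a i)
    (h : ∀ (k : ℕ) (b : ℕ → ℕ), (∀ j < k, K ≤ b j) → ∑ j ∈ range k, b j = ∑ i ∈ I, a i →
      Pack G Y (range k) b) : Pack G Y I a := by
  obtain ⟨b, hb⟩ : ∃ b : ℕ → ℕ, ∀ j : Fin I.card, b j = a (I.equivFin.symm j) :=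
    ⟨fun j => if hj : j < I.card then a (I.equivFin.symm ⟨j, hj⟩) else 0, fun j => dif_pos j.2⟩
  obtain ⟨q, hq1, hq2⟩ := h I.card b
    (fun j hj => by
      rw [show b j = a (I.equivFin.symm ⟨j, hj⟩) from hb ⟨j, hj⟩]
      exact ha _ (I.equivFin.symm ⟨j, hj⟩).2)
    (by
      rw [← Fin.sum_univ_eq_sum_range, ← sum_coe_sort I a,
        ← Equiv.sum_comp I.equivFin.symm fun i : I => a i]
      exact sum_congr rfl fun j _ => hb j)
  obtain ⟨ix, hix⟩ : ∃ ix : ι → ℕ, ∀ i (hi : i ∈ I), ix i = (I.equivFin ⟨i, hi⟩ : ℕ) :=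
    ⟨fun i => if hi : i ∈ I then (I.equivFin ⟨i, hi⟩ : ℕ) else 0, fun i hi => dif_pos hi⟩
  have hr : ∀ i ∈ I, ix i ∈ range I.card := fun i hi => by
    rw [hix i hi]
    exact mem_range.2 (I.equivFin ⟨i, hi⟩).2
  refine ⟨fun i => q (ix i), fun i hi => ?_, fun i hi j hj hij => ?_⟩
  · obtain ⟨h1, h2, h3⟩ := hq1 _ (hr i hi)
    refine ⟨h1, h2.trans ?_, h3⟩
    rw [hix i hi, hb, Equiv.symm_apply_apply]
  · refine hq2 _ (hr i hi) _ (hr j hj) fun e => hij ?_
    rw [hix i hi, hix j hj] at e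
    exact congrArg Subtype.val (I.equivFin.injective (Fin.ext e))

end Pool.Agent.Lib.MP_f20cd2_co.EX
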