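import Pool.Agent.Lib.MP_f20cd2_co.EX.TreePath

set_option autoImplicit false
set_option linter.unusedSectionVars false

namespace Pool.Agent.Lib.MP_f20cd2_co.EX

open Finset
open Pool.Agent.Lib.MP_f20cd2_co.H83 (Conn Cells)
open Pool.Agent.Lib.MP_f20cd2_co.PL
open Pool.Agent.Lib.MP_f20cd2_co.HM (dg)
open Pool.Agent.Lib.MP_f20cd2_co.DP
open scoped Classical

variable {V : Type} [Fintype V] [DecidableEq V] {G : SimpleGraph V}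

/-- A forest that leads every vertex to `X` through `W`; `rt` is the root map. -/
structure Fo (H : SimpleGraph V) (W X : Finset V) (par : V → V) (dp : V → ℕ) (rt : V → V) :
    Prop where
  sub : X ⊆ W
  le : ∀ v, dp v ≤ 27
  step : ∀ v, v ∉ X → H.Adj v (par v) ∧ par v ∈ W ∧ dp (par v) < dp v ∧ rt (par v) = rt v
  fix : ∀ v ∈ X, rt v = v
  mem : ∀ v, rt v ∈ X

/-- A path given by positions. -/
structure Ln (G : SimpleGraph V) (N : ℕ) (p : ℕ → V) : Prop where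
  adj : ∀ i, i + 1 < N → G.Adj (p i) (p (i + 1))
  inj : ∀ i < N, ∀ j < N, p i = p j → i = j

/-- `Y` splits into connected blocks along a path. -/
structure Bl (G : SimpleGraph V) (Y : Finset V) (N : ℕ) (p : ℕ → V) (R : ℕ → Finset V) :
    Prop where
  adj : ∀ i, i + 1 < N → G.Adj (p i) (p (i + 1))
  mem : ∀ i < N, p i ∈ R i
  conn : ∀ i < N, Conn G (R i)
  sub : ∀ i < N, R i ⊆ Y
  disj : ∀ i < N, ∀ j < N, i ≠ j → Disjoint (R i) (R j)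
  all : ∀ v ∈ Y, ∃ i < N, v ∈ R i

/-- Bridges `y ρ 0, ..., y ρ (2 L - 1)` from the position `ρ` to the block of `al ρ`; `B` is the
set of their vertices. -/
structure Br (G : SimpleGraph V) (B : Finset V) (N2 N L : ℕ) (p : ℕ → V) (F : ℕ → Finset V)
    (Rt : Finset ℕ) (al : ℕ → ℕ) (y : ℕ → ℕ → V) : Prop where
  pos : ∀ ρ ∈ Rt, N2 ≤ ρ ∧ ρ < N ∧ al ρ < N2
  first : ∀ ρ ∈ Rt, G.Adj (p ρ) (y ρ 0)
  adj : ∀ ρ ∈ Rt, ∀ i, i + 1 < 2 * L → G.Adj (y ρ i) (y ρ (i + 1))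
  last : ∀ ρ ∈ Rt, ∃ v ∈ F (al ρ), G.Adj (y ρ (2 * L - 1)) v
  inj : ∀ ρ ∈ Rt, ∀ ρ' ∈ Rt, ∀ i < 2 * L, ∀ i' < 2 * L, y ρ i = y ρ' i' → ρ = ρ' ∧ i = i'
  mem : ∀ v, v ∈ B ↔ ∃ ρ ∈ Rt, ∃ i < 2 * L, v = y ρ i

/-- The class of the coarse colour `j`. -/
def cs (cl : V → ℕ) (j : ℕ) : Finset V := univ.filter fun v => cl v = j

lemma mem_cs {cl : V → ℕ} {j : ℕ} {v : V} : v ∈ cs cl j ↔ cl v = j := by
  simp [cs]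

/-- The data of the backbone.  Coarse colours: 1, 2 the worlds of the second half of the path,
3 the world of the first half, 4 bridges, 5 steering leaves, 6 links. -/
structure Dat (V : Type) where
  H : SimpleGraph V
  T : SimpleGraph V
  cl : V → ℕ
  N2 : ℕ
  N : ℕ
  p : ℕ → V
  X : ℕ → Finset V
  par : ℕ → V → V
  dp : ℕ → V → ℕ
  rt : ℕ → V → V
  y : V → ℕ → V
  sl : V → V

/-- The properties of the backbone. -/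
structure Dat.Ok (G : SimpleGraph V) (Δ L : ℕ) (D : Dat V) : Prop where
  hH : D.H ≤ G
  dH : ∀ v, dg D.H v ≤ Δ
  hT : D.T ≤ G
  dT : ∀ v, dg D.T v ≤ 8
  ln : Ln G D.N D.p
  lt : D.N2 < D.N
  fo : ∀ j, 1 ≤ j → j ≤ 3 → Fo D.H (cs D.cl j) (D.X j) (D.par j) (D.dp j) (D.rt j)
  x3 : ∀ v, v ∈ D.X 3 ↔ ∃ i < D.N2, D.p i = v
  x12 : ∀ v ∈ D.X 1 ∪ D.X 2, ∃ i, D.N2 ≤ i ∧ i < D.N ∧ D.p i = v
  px : ∀ i, D.N2 ≤ i → i < D.N → D.p i ∈ D.X 1 ∪ D.X 2 ∨ D.cl (D.p i) = 6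
  y0 : ∀ v, D.H.Adj v (D.y v 0)
  ys : ∀ v i, i + 1 < 2 * L → D.T.Adj (D.y v i) (D.y v (i + 1))
  yi : ∀ v, ∀ i < 2 * L, ∀ j < 2 * L, D.y v i = D.y v j → i = j
  yc : ∀ v, ∀ i < 2 * L, D.cl (D.y v i) = 4
  hs : ∀ v, D.H.Adj v (D.sl v) ∧ D.cl (D.sl v) = 5

/-- The chosen roots `Rt` with landing positions `al` and tails `Tl`, and the steering
positions `St`. -/
structure Ch (G : SimpleGraph V) (D : Dat V) (L g M M2 Q : ℕ) (Rt St : Finset ℕ) (al : ℕ → ℕ)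
    (Tl : ℕ → Finset V) : Prop where
  pos : ∀ ρ ∈ Rt, D.N2 ≤ ρ ∧ ρ < D.N ∧ al ρ < D.N2
  win : ∀ x, D.N2 ≤ x → x + M ≤ D.N → ∃ ρ ∈ Rt, x ≤ ρ ∧ ρ < x + M
  sep : ∀ ρ ∈ Rt, ∀ ρ' ∈ Rt, ρ ≠ ρ' → ¬ Nr D.H 54 (D.p ρ) (D.p ρ')
  gap : ∀ ρ ∈ Rt, ∀ ρ' ∈ Rt, ρ ≠ ρ' → al ρ + g < al ρ' ∨ al ρ' + g < al ρ
  yinj : ∀ ρ ∈ Rt, ∀ ρ' ∈ Rt, ∀ i < 2 * L, ∀ i' < 2 * L,
    D.y (D.p ρ) i = D.y (D.p ρ') i' → ρ = ρ'
  tc : ∀ ρ ∈ Rt, ∀ v ∈ Tl ρ, D.cl v = 3 ∧ v ∉ D.X 3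
  tn : ∀ ρ ∈ Rt, (Tl ρ).card ≤ 27
  tk : ∀ ρ ∈ Rt, Conn G (insert (D.p (al ρ)) (Tl ρ))
  tl : ∀ ρ ∈ Rt, ∃ v ∈ insert (D.p (al ρ)) (Tl ρ), G.Adj (D.y (D.p ρ) (2 * L - 1)) v
  td : ∀ ρ ∈ Rt, ∀ ρ' ∈ Rt, ρ ≠ ρ' → Disjoint (Tl ρ) (Tl ρ')
  sp : ∀ i ∈ St, i < D.N2
  sw : ∀ x, x + M2 ≤ D.N2 → Q ≤ (St.filter fun i => x ≤ i ∧ i < x + M2).card
  si : ∀ i ∈ St, ∀ j ∈ St, D.sl (D.p i) = D.sl (D.p j) → i = j

end Pool.Agent.Lib.MP_f20cd2_co.EX
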