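import Pool.Agent.Lib.MP_f20cd2_co.DP.MainS

/-!
Long paths in the tree of a lane.
-/

set_option autoImplicit false
set_option linter.unusedSectionVars false

namespace Pool.Agent.Lib.MP_f20cd2_co.EX

open Finset
open Pool.Agent.Lib.MP_f20cd2_co.H83 (Conn Cells)
open Pool.Agent.Lib.MP_f20cd2_co.PL
open Pool.Agent.Lib.MP_f20cd2_co.DP
open Pool.Agent.Lib.MP_f20cd2_co.HM (dg)
open scoped Classical

variable {V : Type} [Fintype V] [DecidableEq V] {G : SimpleGraph V}

/-- A ball in a graph of bounded degree is small. -/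
theorem ball_card {H : SimpleGraph V} {Δ : ℕ} (hΔ : ∀ v, dg H v ≤ Δ) (x : V) (d : ℕ) :
    (univ.filter fun v => Nr H d v x).card ≤ (Δ + 1) ^ d := by
  obtain ⟨root, h1, -, -, h4⟩ := FibAux.main (G := H) le_rfl hΔ {x} d
  refine le_trans (card_le_card fun v hv => ?_) (h4 x)
  have h2 : v ∈ FibAux.ball H {x} d :=
    FibAux.mem_ball.2 ⟨x, mem_singleton_self x, (mem_filter.1 hv).2⟩
  exact mem_filter.2 ⟨h2, mem_singleton.1 (h1 v h2)⟩

/-- A long path starts at every vertex of a large component. -/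
theorem long_path {H : SimpleGraph V} {Δ : ℕ} (hΔ : ∀ v, dg H v ≤ Δ) {D : Finset V} {w : V}
    (hD : ∀ v ∈ D, H.Reachable w v) {m : ℕ} (hm : (Δ + 1) ^ m < D.card) :
    ∃ y : ℕ → V, y 0 = w ∧ (∀ i ≤ m, H.Adj (y i) (y (i + 1))) ∧
      ∀ i ≤ m + 1, ∀ j ≤ m + 1, y i = y j → i = j := by
  obtain ⟨v, hv, hv'⟩ := exists_mem_notMem_of_card_lt_card ((ball_card hΔ w m).trans_lt hm)
  obtain ⟨p, hp⟩ := (hD v hv).exists_isPath
  have h1 : m < p.length := by
    by_contra h
    exact hv' (mem_filter.2 ⟨mem_univ _, Nr.symm ⟨p, by omega⟩⟩)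
  exact ⟨p.getVert, p.getVert_zero, fun i hi => p.adj_getVert_succ (by omega),
    fun i hi j hj e => hp.getVert_injOn (show i ≤ p.length by omega)
      (show j ≤ p.length by omega) e⟩

/-- The tree of a lane as a graph. -/
theorem lane_graph {r s : ℕ} {χ : V → ℕ} {Op : V → Finset V} (h : LN G r s χ Op) {j : ℕ}
    (hj : j < r) : ∃ H : SimpleGraph V, H ≤ G ∧ (∀ v, dg H v ≤ 8) ∧
      (∀ u v, H.Adj u v → χ u = j + 1 ∧ χ v = j + 1) ∧
      ∀ u v, χ u = j + 1 → χ v = j + 1 → H.Reachable u v := by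
  obtain ⟨ρ, par, rk, hT, hG⟩ := h.tree j hj
  obtain ⟨D, hD⟩ : ∃ D, D = univ.filter fun v => χ v = j + 1 := ⟨_, rfl⟩
  rw [← hD] at hT hG
  have hm : ∀ v, v ∈ D ↔ χ v = j + 1 := fun v => by simp [hD]
  let H : SimpleGraph V :=
    { Adj := fun u v => G.Adj u v ∧ ((u ∈ D ∧ u ≠ ρ ∧ par u = v) ∨ (v ∈ D ∧ v ≠ ρ ∧ par v = u))
      symm := ⟨fun _ _ a => ⟨a.1.symm, a.2.symm⟩⟩
      loopless := ⟨fun _ a => G.irrefl a.1⟩ }
  have root : ∀ n v, v ∈ D → rk v ≤ n → H.Reachable v ρ := by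
    intro n
    induction n with
    | zero =>
      intro v hv hn
      by_cases e : v = ρ
      · rw [e]
      · have := hT.lt v hv e
        omega
    | succ n ih =>
      intro v hv hn
      by_cases e : v = ρ
      · rw [e]
      · have h1 := hT.lt v hv e
        have h2 : H.Adj v (par v) := ⟨hG v hv e, Or.inl ⟨hv, e, rfl⟩⟩
        exact h2.reachable.trans (ih _ (hT.mem v hv e) (by omega))
  refine ⟨H, fun _ _ a => a.1, fun v => ?_, fun u v a => ?_, fun u v hu hv =>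
    (root _ u ((hm u).2 hu) le_rfl).trans (root _ v ((hm v).2 hv) le_rfl).symm⟩
  · have h1 : dg H v ≤ (insert (par v) (D.filter fun u => u ≠ ρ ∧ par u = v)).card := by
      unfold dg
      refine card_le_card fun u hu => ?_
      simp only [mem_filter, mem_univ, true_and] at hu
      rcases hu.2 with a | a
      · exact mem_insert.2 (Or.inl a.2.2.symm)
      · exact mem_insert_of_mem (mem_filter.2 a)
    have h2 := card_insert_le (par v) (D.filter fun u => u ≠ ρ ∧ par u = v)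
    have h3 : (D.filter fun u => u ≠ ρ ∧ par u = v).card ≤ 7 := by convert hT.deg v
    omega
  · rcases a.2 with ⟨b1, b2, b3⟩ | ⟨b1, b2, b3⟩
    · exact ⟨(hm u).1 b1, (hm v).1 (b3 ▸ hT.mem u b1 b2)⟩
    · exact ⟨(hm u).1 (b3 ▸ hT.mem v b1 b2), (hm v).1 b1⟩

/-- Every colour class is large. -/
theorem class_card {r s : ℕ} {χ : V → ℕ} {Op : V → Finset V} (h : LN G r s χ Op) {c : ℕ}
    (hc : c ≤ r) : 4 * Fintype.card V ≤ s * (univ.filter fun v => χ v = c).card := by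
  have h1 : ∑ u : V, ((univ.filter fun v => χ v = c).filter fun w => w ∈ Op u).card
      = ∑ w ∈ univ.filter fun v => χ v = c, (univ.filter fun u => w ∈ Op u).card :=
    sum_card_bipartiteAbove_eq_sum_card_bipartiteBelow (s := univ)
      (t := univ.filter fun v => χ v = c) fun u w => w ∈ Op u
  have h2 := card_nsmul_le_sum univ
    (fun u => ((univ.filter fun v => χ v = c).filter fun w => w ∈ Op u).card) 8 fun u _ =>
      (h.rich u c hc).trans (card_le_card fun w hw =>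
        mem_filter.2 ⟨mem_filter.2 ⟨mem_univ _, (mem_filter.1 hw).2⟩, (mem_filter.1 hw).1⟩)
  have h3 := sum_le_card_nsmul (univ.filter fun v => χ v = c)
    (fun w => (univ.filter fun u => w ∈ Op u).card) (2 * s) fun w _ => h.load w
  rw [h1, card_univ, smul_eq_mul] at h2
  rw [smul_eq_mul] at h3
  have h4 := h2.trans h3
  nlinarith

/-- The tree of a lane with a long path from each of its vertices. -/
theorem lane_paths {r s : ℕ} {χ : V → ℕ} {Op : V → Finset V} (h : LN G r s χ Op) {j : ℕ}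
    (hj : j < r) {m : ℕ} (hm : s * 9 ^ m < 4 * Fintype.card V) :
    ∃ (H : SimpleGraph V) (y : V → ℕ → V), H ≤ G ∧ (∀ v, dg H v ≤ 8) ∧
      ∀ p, y p 0 ∈ Op p ∧ (∀ i ≤ m, H.Adj (y p i) (y p (i + 1))) ∧
        (∀ i ≤ m + 1, χ (y p i) = j + 1) ∧
        ∀ i ≤ m + 1, ∀ i' ≤ m + 1, y p i = y p i' → i = i' := by
  obtain ⟨H, h1, h2, h3, h4⟩ := lane_graph h hj
  have h5 : (8 + 1) ^ m < (univ.filter fun v => χ v = j + 1).card :=
    Nat.lt_of_mul_lt_mul_left (hm.trans_le (class_card h hj))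
  have key : ∀ p, ∃ y : ℕ → V, y 0 ∈ Op p ∧ (∀ i ≤ m, H.Adj (y i) (y (i + 1))) ∧
      (∀ i ≤ m + 1, χ (y i) = j + 1) ∧ ∀ i ≤ m + 1, ∀ i' ≤ m + 1, y i = y i' → i = i' := by
    intro p
    have h8 := h.rich p (j + 1) hj
    obtain ⟨w, hw⟩ := card_pos.1 (show 0 < ((Op p).filter fun w => χ w = j + 1).card by omega)
    obtain ⟨a1, a2⟩ := mem_filter.1 hw
    obtain ⟨y, b1, b2, b3⟩ := long_path h2 (fun v hv => h4 w v a2 (mem_filter.1 hv).2) h5
    refine ⟨y, b1 ▸ a1, b2, fun i hi => ?_, b3⟩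
    cases i with
    | zero => rw [b1, a2]
    | succ i => exact (h3 _ _ (b2 i (by omega))).2
  choose y hy using key
  exact ⟨H, y, h1, h2, hy⟩

end Pool.Agent.Lib.MP_f20cd2_co.EX
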