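import Pool.Agent.Lib.MP_f20cd2_co.EX.Reserve
import Pool.Agent.Lib.MP_f20cd2_co.EX.TreePath
import Pool.Agent.Lib.MP_f20cd2_co.AS.Quo

/-!
Connected sets of prescribed sizes at roots and at the anchors of chosen units.
-/

set_option autoImplicit false
set_option linter.unusedSectionVars false

namespace Pool.Agent.Lib.MP_f20cd2_co.EX

open Finset
open Pool.Agent.Lib.MP_f20cd2_co.H83 (Conn Cells)
open Pool.Agent.Lib.MP_f20cd2_co.PL
open Pool.Agent.Lib.MP_f20cd2_co.DP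
open scoped Classical

variable {V : Type} [Fintype V] [DecidableEq V] {G : SimpleGraph V}

namespace FillAux

/-- A lane with its tree. -/
theorem lane_conn {r s : ℕ} {χ : V → ℕ} {Op : V → Finset V} [Nonempty V] (h : LN G r s χ Op)
    {j : ℕ} (hj : j < r) :
    ∃ L : SimpleGraph V, L ≤ G ∧ (∀ v, AS.dg L v ≤ 8) ∧ Conn L (lane χ j) := by
  obtain ⟨L, h1, h2, h3, h4⟩ := lane_graph h hj
  refine ⟨L, h1, h2, ?_⟩
  obtain ⟨u⟩ : Nonempty V := inferInstance
  obtain ⟨x, hx⟩ := card_pos.1 (lt_of_lt_of_le (by norm_num) (h.rich u (j + 1) hj))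
  have hx' := (mem_filter.1 hx).2
  refine BasicAux.of_const (mem_lane.2 hx') fun A hA v hv => ?_
  have h5 := (SimpleGraph.reachable_iff_reflTransGen _ _).1 (h4 x v hx' (mem_lane.1 hv))
  clear hv
  induction h5 with
  | refl => exact Iff.rfl
  | tail _ h6 ih =>
    exact (hA _ (mem_lane.2 (h3 _ _ h6).1) _ (mem_lane.2 (h3 _ _ h6).2) h6).symm.trans ih

/-- A connected piece of prescribed size next to a vertex. -/
theorem piece {L : SimpleGraph V} (hL : L ≤ G) {P : Finset V} (hP : Conn L P) {x h : V}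
    (hh : h ∈ P) (hx : G.Adj x h) {c : ℕ} (hc : c ≤ P.card) :
    ∃ X ⊆ P, X.card = c ∧ Conn G (insert x X) := by
  rcases Nat.eq_zero_or_pos c with rfl | h0
  · exact ⟨∅, empty_subset _, rfl, by simpa using Conn.single (G := G) x⟩
  · obtain ⟨Q, h1, h2, h3, h4⟩ := conn_sub_at hP hh c h0 hc
    exact ⟨Q, h1, h3, (conn_mono hL h4).insert h2 hx⟩

theorem inj_into {α : Type} (S : Finset α) (T : Finset ℕ) (h : S.card ≤ T.card) :
    ∃ f : α → ℕ, (∀ x ∈ S, f x ∈ T) ∧ ∀ x ∈ S, ∀ y ∈ S, f x = f y → x = y := by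
  rw [← Fintype.card_coe] at h
  obtain ⟨e, he⟩ := Function.Embedding.exists_of_card_le_finset h
  refine ⟨fun x => if hx : x ∈ S then e ⟨x, hx⟩ else 0, fun x hx => ?_, fun x hx y hy hxy => ?_⟩
  · simp only [dif_pos hx]
    exact mem_coe.1 (he ⟨_, rfl⟩)
  · simp only [dif_pos hx, dif_pos hy] at hxy
    exact congrArg Subtype.val (e.injective hxy)

end FillAux

/-- The construction for a given colouring. -/
theorem fill0 {ι κ : Type} [DecidableEq ι] [DecidableEq κ] [Inhabited κ] [Nonempty V]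
    {b s : ℕ} {χ : V → ℕ} {Op : V → Finset V} (h : LN G (5 * b) s χ Op)
    (J R : Finset ι) (hR : R.card ≤ 2 * b) (rt : ι → V) (grp pos d : ι → ℕ)
    (hpos : ∀ i ∈ J \ R, pos i < b)
    (hinj : ∀ i ∈ J \ R, ∀ i' ∈ J \ R, grp i = grp i' → pos i = pos i' → i = i')
    (K : Finset κ) (an : κ → ℕ → V)
    (han : ∀ j < b, ∀ k ∈ K, ∀ k' ∈ K, an k j = an k' j → k = k')
    (hs : s * ∑ i ∈ J, (d i + 1) ≤ 4 * Fintype.card V)
    (hK : (1 + 18 * b * s) * ∑ i ∈ J, (d i + 1) ≤ K.card) :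
    ∃ (un : ℕ → κ) (X : ι → Finset V), (∀ i ∈ J \ R, un (grp i) ∈ K) ∧
      (∀ i ∈ J \ R, ∀ i' ∈ J \ R, un (grp i) = un (grp i') → grp i = grp i') ∧
      (∀ i ∈ J, (X i).card = d i ∧
        Conn G (insert (if i ∈ R then rt i else an (un (grp i)) (pos i)) (X i)) ∧
        ∀ x ∈ X i, χ x ≠ 0 ∧ ∀ i' ∈ R, rt i' ≠ x) ∧
      ∀ i ∈ J, ∀ i' ∈ J, i ≠ i' → Disjoint (X i) (X i') := by
  set M := ∑ i ∈ J, (d i + 1) with hM
  have hs0 : 0 < s := by
    obtain ⟨u⟩ : Nonempty V := inferInstance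
    have h1 := (h.rich u 0 (Nat.zero_le _)).trans ((card_filter_le _ _).trans (h.card u))
    omega
  have hlane : ∀ j < 5 * b, M ≤ (lane χ j).card := fun j hj =>
    Nat.le_of_mul_le_mul_left (hs.trans (class_card h (c := j + 1) hj)) hs0
  -- lanes without roots
  set S := range (5 * b) \ R.image fun i => χ (rt i) - 1 with hS
  have hSc : (R.disjSum (range b)).card ≤ S.card := by
    have h1 := le_card_sdiff (R.image fun i => χ (rt i) - 1) (range (5 * b))
    have h2 : (R.image fun i => χ (rt i) - 1).card ≤ R.card := card_image_le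
    rw [card_disjSum, card_range]
    rw [card_range, ← hS] at h1
    omega
  obtain ⟨f, hf1, hf2⟩ := FillAux.inj_into _ S hSc
  have hfr : ∀ z ∈ R.disjSum (range b), f z < 5 * b := fun z hz =>
    mem_range.1 (mem_sdiff.1 (hf1 z hz)).1
  have hfx : ∀ z ∈ R.disjSum (range b), ∀ x ∈ lane χ (f z), χ x ≠ 0 ∧ ∀ i' ∈ R, rt i' ≠ x := by
    intro z hz x hx
    have h1 := mem_lane.1 hx
    refine ⟨by omega, fun i' hi' e => (mem_sdiff.1 (hf1 z hz)).2 (mem_image.2 ⟨i', hi', ?_⟩)⟩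
    rw [e, h1]
    rfl
  have hL : ∀ j, ∃ L : SimpleGraph V, j < 5 * b →
      L ≤ G ∧ (∀ v, AS.dg L v ≤ 8) ∧ Conn L (lane χ j) := by
    intro j
    by_cases hj : j < 5 * b
    · obtain ⟨L, hL⟩ := FillAux.lane_conn h hj
      exact ⟨L, fun _ => hL⟩
    · exact ⟨⊥, fun h' => absurd h' hj⟩
  choose L hL using hL
  have hπ : ∀ j u, ∃ w, j < 5 * b → w ∈ Op u ∧ w ∈ lane χ j := by
    intro j u
    by_cases hj : j < 5 * b
    · obtain ⟨x, hx⟩ := card_pos.1 (lt_of_lt_of_le (by norm_num) (h.rich u (j + 1) hj))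
      exact ⟨x, fun _ => ⟨(mem_filter.1 hx).1, mem_lane.2 (mem_filter.1 hx).2⟩⟩
    · exact ⟨u, fun h' => absurd h' hj⟩
  choose π hπ using hπ
  have hr : ∀ j < b, Sum.inr j ∈ R.disjSum (range b) := fun j hj => by simpa using hj
  have hl : ∀ i ∈ R, Sum.inl i ∈ R.disjSum (range b) := fun i hi => by simpa using hi
  set Γ := (J \ R).image grp with hΓ
  set A : ℕ → ℕ := fun g => ∑ i ∈ (J \ R).filter fun i => grp i = g, d i with hA
  have hsum : ∑ g ∈ Γ, A g = ∑ i ∈ J \ R, d i :=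
    sum_fiberwise_of_maps_to (fun i hi => mem_image_of_mem _ hi) _
  have hM1 : ∑ i ∈ J \ R, d i + (J \ R).card ≤ M := by
    rw [card_eq_sum_ones, ← sum_add_distrib]
    exact sum_le_sum_of_subset sdiff_subset
  have hΓc : Γ.card ≤ (J \ R).card := card_image_le
  obtain ⟨un, Rg, i1, i2, i3, i4⟩ := place b 8 (2 * s) (fun j => L (f (Sum.inr j)))
    (fun j hj => (hL _ (hfr _ (hr j hj))).2.1) A (fun _ k j => π (f (Sum.inr j)) (an k j))
    (fun j => lane χ (f (Sum.inr j))) Γ K (fun j => lane χ (f (Sum.inr j))) 0 M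
    (fun g _ j hj v => by
      refine le_trans (card_le_card_of_injOn (fun k => an k j) (fun k hk => ?_)
        fun k hk k' hk' e => han j hj k (mem_filter.1 (mem_coe.1 hk)).1 k'
          (mem_filter.1 (mem_coe.1 hk')).1 e) (h.load v)
      have h1 := (mem_filter.1 (mem_coe.1 hk)).2
      exact mem_coe.2 (mem_filter.2 ⟨mem_univ _, h1 ▸ (hπ _ _ (hfr _ (hr j hj))).1⟩))
    (fun g _ k _ j hj => (hπ _ _ (hfr _ (hr j hj))).2)
    (fun g hg => by
      have := single_le_sum (f := A) (fun _ _ => Nat.zero_le _) hg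
      omega)
    (fun j hj => fat_of_conn (hL _ (hfr _ (hr j hj))).2.2 (hlane _ (hfr _ (hr j hj))))
    (fun j _ => by simp)
    (by
      have h1 : ∑ g ∈ Γ, ((8 + 1) * A g + 1) ≤ 9 * M := by
        rw [sum_add_distrib, ← mul_sum, hsum, sum_const, smul_eq_mul]
        omega
      have h2 : b * (2 * s * (0 + ∑ g ∈ Γ, ((8 + 1) * A g + 1))) ≤ b * (2 * s * (9 * M)) :=
        Nat.mul_le_mul_left _ (Nat.mul_le_mul_left _ (by omega))
      have h3 : (1 + 18 * b * s) * M = M + b * (2 * s * (9 * M)) := by ring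
      omega)
  have hX : ∀ i, ∃ X : Finset V, i ∈ J → X.card = d i ∧
      Conn G (insert (if i ∈ R then rt i else an (un (grp i)) (pos i)) X) ∧
      (i ∈ R → X ⊆ lane χ (f (Sum.inl i))) ∧ (i ∉ R → X ⊆ Rg (grp i) (pos i)) := by
    intro i
    by_cases hi : i ∈ J
    swap
    · exact ⟨∅, fun h' => absurd h' hi⟩
    by_cases hiR : i ∈ R
    · have h1 := hfr _ (hl i hiR)
      have h2 : d i + 1 ≤ M := single_le_sum (f := fun i => d i + 1) (fun _ _ => Nat.zero_le _) hi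
      obtain ⟨X, x1, x2, x3⟩ := FillAux.piece (hL _ h1).1 (hL _ h1).2.2 (hπ _ (rt i) h1).2
        (h.adj _ _ (hπ _ (rt i) h1).1) (c := d i) (by have := hlane _ h1; omega)
      exact ⟨X, fun _ => ⟨x2, by rwa [if_pos hiR], fun _ => x1, fun h' => absurd hiR h'⟩⟩
    · have hi' := mem_sdiff.2 ⟨hi, hiR⟩
      have hp := hpos i hi'
      have h1 := hfr _ (hr _ hp)
      obtain ⟨-, r2, r3, r4⟩ := i3 _ (mem_image_of_mem grp hi') _ hp
      have h2 : d i ≤ A (grp i) :=
        single_le_sum (f := d) (fun _ _ => Nat.zero_le _) (mem_filter.2 ⟨hi', rfl⟩)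
      obtain ⟨X, x1, x2, x3⟩ := FillAux.piece (hL _ h1).1 r3 r2
        (h.adj _ _ (hπ _ (an (un (grp i)) (pos i)) h1).1) (h2.trans r4)
      exact ⟨X, fun _ => ⟨x2, by rwa [if_neg hiR], fun h' => absurd h' hiR, fun _ => x1⟩⟩
  choose X hX using hX
  let z : ι → ι ⊕ ℕ := fun i => if i ∈ R then Sum.inl i else Sum.inr (pos i)
  have hz : ∀ i ∈ J, z i ∈ R.disjSum (range b) ∧ X i ⊆ lane χ (f (z i)) := by
    intro i hi
    by_cases hiR : i ∈ R
    · simp only [z, if_pos hiR]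
      exact ⟨hl i hiR, (hX i hi).2.2.1 hiR⟩
    · have hi' := mem_sdiff.2 ⟨hi, hiR⟩
      simp only [z, if_neg hiR]
      exact ⟨hr _ (hpos i hi'), ((hX i hi).2.2.2 hiR).trans
        (i3 _ (mem_image_of_mem grp hi') _ (hpos i hi')).1⟩
  refine ⟨un, X, fun i hi => i1 _ (mem_image_of_mem _ hi), fun i hi i' hi' e =>
    i2 _ (mem_image_of_mem _ hi) _ (mem_image_of_mem _ hi') e, fun i hi =>
    ⟨(hX i hi).1, (hX i hi).2.1, fun x hx => hfx _ (hz i hi).1 x ((hz i hi).2 hx)⟩, ?_⟩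
  intro i hi i' hi' hne
  refine disjoint_left.2 fun x hx hx' => ?_
  have e1 := mem_lane.1 ((hz i hi).2 hx)
  have e2 := mem_lane.1 ((hz i' hi').2 hx')
  have e3 := hf2 _ (hz i hi).1 _ (hz i' hi').1 (by omega)
  by_cases hiR : i ∈ R <;> by_cases hiR' : i' ∈ R <;>
    simp only [z, hiR, hiR', if_true, if_false, Sum.inl.injEq, Sum.inr.injEq, reduceCtorEq] at e3
  · exact hne e3
  · have a1 := mem_sdiff.2 ⟨hi, hiR⟩
    have a2 := mem_sdiff.2 ⟨hi', hiR'⟩
    have a3 := i4 _ (mem_image_of_mem grp a1) _ (mem_image_of_mem grp a2)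
      (fun e => hne (hinj i a1 i' a2 e e3)) _ (hpos i a1)
    exact disjoint_left.1 a3 ((hX i hi).2.2.2 hiR hx) (e3 ▸ (hX i' hi').2.2.2 hiR' hx')

/-- In a tough graph: `B k` are disjoint units with anchors `an k j`, which make up a fixed
share of the graph; every group gets its own unit, and every job its connected set. -/
theorem fill (b c : ℕ) : ∃ q t : ℕ, ∀ (V : Type) [Fintype V] [DecidableEq V] (G : SimpleGraph V),
    RT G univ t → t + 1 < Fintype.card V →
    ∀ (ι κ : Type) [DecidableEq ι] [DecidableEq κ] [Fintype κ] (J R : Finset ι) (rt : ι → V)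
      (grp pos d : ι → ℕ) (B : κ → Finset V) (an : κ → ℕ → V), R.card ≤ 2 * b →
      (∀ i ∈ J \ R, pos i < b) →
      (∀ i ∈ J \ R, ∀ i' ∈ J \ R, grp i = grp i' → pos i = pos i' → i = i') →
      (∀ k k', k ≠ k' → Disjoint (B k) (B k')) →
      (∀ j < b, ∀ k k', an k j = an k' j → k = k') →
      Fintype.card V ≤ c * Fintype.card κ → q * ∑ i ∈ J, (d i + 1) ≤ Fintype.card V →
      ∃ (un : ℕ → κ) (X : ι → Finset V),
        (∀ i ∈ J \ R, ∀ i' ∈ J \ R, un (grp i) = un (grp i') → grp i = grp i') ∧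
        (∀ i ∈ J, (X i).card = d i ∧
          Conn G (insert (if i ∈ R then rt i else an (un (grp i)) (pos i)) (X i)) ∧
          ∀ x ∈ X i, (∀ i' ∈ R, rt i' ≠ x) ∧ ∀ i' ∈ J \ R, x ∉ B (un (grp i'))) ∧
        ∀ i ∈ J, ∀ i' ∈ J, i ≠ i' → Disjoint (X i) (X i') := by
  obtain ⟨M, hM⟩ : ∃ M, M = 4 * (c + 1) * (10 * b + 3) := ⟨_, rfl⟩
  have hrM : 5 * b < M := by
    have : 4 * 1 * (10 * b + 3) ≤ 4 * (c + 1) * (10 * b + 3) :=
      Nat.mul_le_mul_right _ (by omega)
    omega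
  obtain ⟨L, hL, hP⟩ := exists_L M (5 * b)
  obtain ⟨e, he⟩ : ∃ e, e = M * L := ⟨_, rfl⟩
  refine ⟨2 * c * (1 + 18 * b * (10 * e)) + 10 * e,
    2 * (5 * b) * AS.Cst (20 * e) (201 * e) + 1 + 2 * (10 * e), ?_⟩
  intro V _ _ G hT hn ι κ _ _ _ J R rt grp pos d B an hR hpos hinj hB han hc hq
  set t := 2 * (5 * b) * AS.Cst (20 * e) (201 * e) + 1 + 2 * (10 * e) with ht
  set n := Fintype.card V with hn'
  set m := ∑ i ∈ J, (d i + 1) with hm
  have : Nonempty V := Fintype.card_pos_iff.1 (by omega)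
  have hE := AS.expd_of_rt hT (Nat.cast_nonneg _) (by
    have : ((t + 1 : ℕ) : ℝ) < n := by exact_mod_cast hn
    push_cast at this
    linarith)
  obtain ⟨χ, Op, hLN, hcol⟩ := col_exists (G := G) M L (5 * b) hrM hL hP
    (Expd.mono' hE (by rw [← he]; exact_mod_cast (by omega))) hT
    (by rw [← he]; exact_mod_cast (by omega))
  rw [← he] at hLN hcol
  set C := (univ.filter fun v => χ v ≠ 0).card with hC
  have he0 : 0 < e := he ▸ Nat.mul_pos (by omega) hL
  have hC2 : 2 * (c + 1) * C ≤ n := by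
    have h1 := Nat.div_mul_le_self n e
    have h2 : 1 ≤ n / e := (Nat.le_div_iff_mul_le he0).2 (by omega)
    rw [← hn'] at hcol
    generalize n / e = y at *
    have h3 : C ≤ ((10 * b + 3) * L) * (2 * y) :=
      hcol.trans (Nat.mul_le_mul (by nlinarith) (by omega))
    calc 2 * (c + 1) * C ≤ 2 * (c + 1) * (((10 * b + 3) * L) * (2 * y)) :=
          Nat.mul_le_mul_left _ h3
      _ = y * e := by rw [he, hM]; ring
      _ ≤ n := h1
  set K := (univ : Finset κ).filter fun k => ∀ x ∈ B k, χ x = 0 with hK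
  have hK2 : Fintype.card κ ≤ K.card + C := by
    have h1 : ∀ k, ∃ x, k ∉ K → x ∈ B k ∧ χ x ≠ 0 := by
      intro k
      by_cases hk : k ∈ K
      · exact ⟨Classical.arbitrary V, fun h' => absurd hk h'⟩
      · simp only [hK, mem_filter, mem_univ, true_and, not_forall] at hk
        obtain ⟨x, hx, hx'⟩ := hk
        exact ⟨x, fun _ => ⟨hx, hx'⟩⟩
    choose x hx using h1
    have h2 : (univ \ K).card ≤ C := card_le_card_of_injOn x
      (fun k hk => mem_coe.2 (mem_filter.2 ⟨mem_univ _, (hx k (mem_sdiff.1 (mem_coe.1 hk)).2).2⟩))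
      fun k hk k' hk' e => by
        by_contra hne
        exact disjoint_left.1 (hB k k' hne) (hx k (mem_sdiff.1 (mem_coe.1 hk)).2).1
          (e ▸ (hx k' (mem_sdiff.1 (mem_coe.1 hk')).2).1)
    have h3 := card_sdiff_add_card_eq_card (subset_univ K)
    rw [card_univ] at h3
    omega
  have hc0 : 0 < c := by
    rcases Nat.eq_zero_or_pos c with rfl | h0
    · omega
    · exact h0
  have hκ : Inhabited κ := Classical.inhabited_of_nonempty (Fintype.card_pos_iff.1 (by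
    rcases Nat.eq_zero_or_pos (Fintype.card κ) with h0 | h0
    · rw [h0] at hc
      omega
    · exact h0))
  rw [Nat.add_mul] at hq
  obtain ⟨un, X, i1, i2, i3, i4⟩ := fill0 hLN J R hR rt grp pos d hpos hinj K an
    (fun j hj k _ k' _ => han j hj k k') (by rw [← hm, ← hn']; omega) (by
      rw [← hm]
      refine Nat.le_of_mul_le_mul_left (c := 2 * c) ?_ (by omega)
      have h1 := Nat.mul_le_mul_left c hK2
      rw [← Nat.mul_assoc]
      nlinarith)
  refine ⟨un, X, i2, fun i hi => ⟨(i3 i hi).1, (i3 i hi).2.1, fun x hx =>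
    ⟨((i3 i hi).2.2 x hx).2, fun i' hi' hb => ((i3 i hi).2.2 x hx).1 ?_⟩⟩, i4⟩
  exact (mem_filter.1 (i1 i' hi')).2 x hb

end Pool.Agent.Lib.MP_f20cd2_co.EX
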