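import Pool.Agent.Lib.MP_f20cd2_co.PL.Small

/-!
Interface (h7, 02:24Z). File EX/Iface.lean. BIG and ONE are stated in the weakest form that FINAL needs.
-/

set_option autoImplicit false

namespace Pool.Agent.Lib.MP_f20cd2_co.EX

open Finset
open Pool.Agent.Lib.MP_f20cd2_co.PL
open scoped Classical

/-- All parts are large. -/
def BIG : Prop := ∃ K t : ℕ, ∀ (V : Type) [Fintype V] [DecidableEq V] (G : SimpleGraph V),
  RT G univ (t : ℝ) → (∃ u v, u ≠ v ∧ ¬ G.Adj u v) → ∀ (k : ℕ) (a : Fin k → ℕ), (∀ i, K ≤ a i) →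
    ∑ i, a i = Fintype.card V → Pack G univ univ a

/-- Almost all of the mass is in parts of size `b`. -/
def ONE (b : ℕ) : Prop := ∃ q T t : ℕ, ∀ (V : Type) [Fintype V] [DecidableEq V]
  (G : SimpleGraph V), RT G univ (t : ℝ) → (∃ u v, u ≠ v ∧ ¬ G.Adj u v) →
    ∀ (k : ℕ) (a : Fin k → ℕ), (∀ i, a i = b ∨ T ≤ a i) → (∀ i, 0 < a i) →
      ∑ i, a i = Fintype.card V →
        q * ∑ i ∈ univ.filter (fun i => a i ≠ b), a i ≤ Fintype.card V → Pack G univ univ a

end Pool.Agent.Lib.MP_f20cd2_co.EX
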