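import Pool.Agent.Lib.MP_f20cd2_co.EX.Segs
import Pool.Agent.Lib.MP_f20cd2_co.EX.Iface

/-!
Deleting small parts, and the reduction of the general case to two special cases.
-/

set_option autoImplicit false
set_option linter.unusedSectionVars false

namespace Pool.Agent.Lib.MP_f20cd2_co.EX

open Finset
open Pool.Agent.Lib.MP_f20cd2_co.H83 (Conn Cells)
open Pool.Agent.Lib.MP_f20cd2_co.PL
open Pool.Agent.Lib.MP_f20cd2_co.DP
open scoped Classical

/-- Small parts missing a fraction 1 / m of the vertices are packed so that the rest is tough. -/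
theorem del (T m K0 : ℕ) (hm : 0 < m) : ∃ t : ℕ, ∀ (V : Type) [Fintype V] [DecidableEq V]
    (G : SimpleGraph V), RT G univ (t : ℝ) → (∃ u v, u ≠ v ∧ ¬ G.Adj u v) →
    ∀ {ι : Type} (J : Finset ι) (a : ι → ℕ), (∀ i ∈ J, 0 < a i) → (∀ i ∈ J, a i ≤ T) →
      m * ∑ i ∈ J, a i + Fintype.card V ≤ m * Fintype.card V →
      ∃ p : ι → Finset V, (∀ i ∈ J, (p i).card = a i ∧ Conn G (p i)) ∧
        (∀ i ∈ J, ∀ j ∈ J, i ≠ j → Disjoint (p i) (p j)) ∧ RT G (univ \ J.biUnion p) K0 := by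
  obtain ⟨t, ht⟩ := segs K0 (2 * m * T + 1 + T) (2 * m) (by omega)
  refine ⟨t, fun V _ _ G hT hnc ι J a h0 h1 h2 => ?_⟩
  obtain ⟨N, w, D, hw, hD, hc, hn, hR⟩ := ht V G hT hnc
  have h3 : N * (2 * m * T + 1 + T) ≤ Fintype.card V := hc ▸ card_le_univ D
  obtain ⟨p, hp1, hp2⟩ := cut_segs hw (T := T) (by omega) le_rfl J a h0 h1 (by
    rw [Nat.add_sub_cancel]
    obtain ⟨d, hd⟩ := Nat.exists_eq_add_of_le h3
    rw [hd, Nat.add_sub_cancel_left] at hn
    rw [hd] at h2
    refine Nat.le_of_mul_le_mul_left ?_ hm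
    nlinarith [Nat.zero_le (N * T), Nat.zero_le N])
  refine ⟨p, fun i hi => ⟨(hp1 i hi).1, (hp1 i hi).2.1⟩, hp2,
    hR.mono (sdiff_subset_sdiff Subset.rfl fun v hv => ?_) le_rfl⟩
  obtain ⟨i, hi, h4⟩ := mem_biUnion.1 hv
  exact (hD v).2 ((hp1 i hi).2.2 v h4)

variable {V : Type} [Fintype V] [DecidableEq V] {G : SimpleGraph V}

theorem sum_fin {ι : Type} (I : Finset ι) (f : ι → ℕ) :
    ∑ j : Fin I.card, f (I.equivFin.symm j) = ∑ i ∈ I, f i := by
  rw [Equiv.sum_comp I.equivFin.symm (fun i : I => f i), Finset.sum_coe_sort I f]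

/-- A packing of an induced subgraph is a packing of the graph. -/
theorem pack_sub {ι : Type} {A : Finset V} (I : Finset ι) (a : ι → ℕ)
    (h : Pack (G.induce (A : Set V)) univ univ fun j : Fin I.card => a (I.equivFin.symm j)) :
    Pack G A I a := by
  obtain ⟨p, h1, h2⟩ := h
  refine ⟨fun i => if hi : i ∈ I then
    (p (I.equivFin ⟨i, hi⟩)).map (Function.Embedding.subtype _) else ∅, fun i hi => ?_,
    fun i hi j hj hij => ?_⟩
  · simp only [dif_pos hi]
    obtain ⟨-, h3, h4⟩ := h1 (I.equivFin ⟨i, hi⟩) (mem_univ _)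
    refine ⟨fun v hv => ?_, ?_, SmallAux.conn_of_hom h4.connected (fun x => x.1.1)
      (fun x y hxy => hxy) _ fun v => ?_⟩
    · obtain ⟨x, -, rfl⟩ := mem_map.1 hv
      exact x.2
    · rw [card_map, h3]
      simp only [Equiv.symm_apply_apply]
    · rw [mem_map]
      constructor
      · rintro ⟨x, hx, rfl⟩
        exact ⟨⟨x, hx⟩, rfl⟩
      · rintro ⟨x, rfl⟩
        exact ⟨x.1, x.2, rfl⟩
  · simp only [dif_pos hi, dif_pos hj]
    rw [disjoint_map]
    exact h2 _ (mem_univ _) _ (mem_univ _) fun e =>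
      hij (congrArg Subtype.val (I.equivFin.injective e))

theorem rt_sub {A : Finset V} {t : ℝ} (ht : 0 ≤ t) (h : RT G A t) :
    RT (G.induce (A : Set V)) univ t :=
  rt_of_tough ht (SmallAux.tough_induce h Subset.rfl)

/-- The deleted parts and a packing of the rest. -/
theorem pack_union {ι : Type} [Fintype ι] [DecidableEq ι] {J : Finset ι} {a : ι → ℕ}
    {p : ι → Finset V} (h1 : ∀ i ∈ J, (p i).card = a i ∧ Conn G (p i))
    (h2 : ∀ i ∈ J, ∀ j ∈ J, i ≠ j → Disjoint (p i) (p j))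
    (h : Pack G (univ \ J.biUnion p) (univ \ J) a) : Pack G univ univ a := by
  obtain ⟨q, h3, h4⟩ := h
  have hm : ∀ i, i ∉ J → i ∈ univ \ J := fun i hi => mem_sdiff.2 ⟨mem_univ _, hi⟩
  have hd : ∀ i ∈ J, ∀ j, j ∉ J → Disjoint (p i) (q j) := fun i hi j hj =>
    disjoint_left.2 fun v h5 h6 =>
      (mem_sdiff.1 ((h3 j (hm j hj)).1 h6)).2 (mem_biUnion.2 ⟨i, hi, h5⟩)
  refine ⟨fun i => if i ∈ J then p i else q i, fun i _ => ⟨subset_univ _, ?_⟩,
    fun i _ j _ hij => ?_⟩
  · by_cases hi : i ∈ J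
    · simpa only [if_pos hi] using h1 i hi
    · simpa only [if_neg hi] using (h3 i (hm i hi)).2
  · by_cases hi : i ∈ J <;> by_cases hj : j ∈ J
    · simpa only [if_pos hi, if_pos hj] using h2 i hi j hj hij
    · simpa only [if_pos hi, if_neg hj] using hd i hi j hj
    · simpa only [if_neg hi, if_pos hj] using (hd j hj i hi).symm
    · simpa only [if_neg hi, if_neg hj] using h4 i (hm i hi) j (hm j hj) hij

theorem card_rest {k : ℕ} {J : Finset (Fin k)} {a : Fin k → ℕ} {p : Fin k → Finset V}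
    (h1 : ∀ i ∈ J, (p i).card = a i ∧ Conn G (p i))
    (h2 : ∀ i ∈ J, ∀ j ∈ J, i ≠ j → Disjoint (p i) (p j)) (hs : ∑ i, a i = Fintype.card V) :
    ∑ j : Fin (univ \ J).card, a ((univ \ J).equivFin.symm j) =
      Fintype.card ((univ \ J.biUnion p : Finset V) : Set V) := by
  have h3 : (J.biUnion p).card = ∑ i ∈ J, a i := by
    rw [card_biUnion h2]
    exact sum_congr rfl fun i hi => (h1 i hi).1
  have h4 := sum_sdiff (f := a) (subset_univ J)
  have h5 := card_sdiff_add_card_eq_card (subset_univ (J.biUnion p))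
  rw [card_univ] at h5
  rw [sum_fin (univ \ J) a, ← Nat.card_eq_fintype_card, Nat.card_coe_set_eq, Set.ncard_coe_finset]
  omega

/-- The general case follows from the case of large parts and the case of one small size. -/
theorem final_of (hBIG : BIG) (hONE : ∀ b : ℕ, 0 < b → ONE b) :
    ∃ c : ℕ, ∀ (V : Type) [Finite V] (G : SimpleGraph V),
      (∀ S : Set V, 1 < Nat.card (G.induce Sᶜ).ConnectedComponent →
        c * Nat.card (G.induce Sᶜ).ConnectedComponent ≤ S.ncard) →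
      ∀ (k : ℕ) (a : Fin k → ℕ), (∀ i, 0 < a i) → ∑ i, a i = Nat.card V →
        ∃ f : V → Fin k, ∀ i, (f ⁻¹' {i}).ncard = a i ∧ (G.induce (f ⁻¹' {i})).Connected := by
  obtain ⟨K', tB, hB0⟩ := hBIG
  obtain ⟨K, hK⟩ : ∃ K, K = K' + 1 := ⟨_, rfl⟩
  unfold ONE at hONE
  choose! q1 r1 t1 h0 using hONE
  have hc0 : ∀ (V : Type) [Fintype V] [DecidableEq V] (G : SimpleGraph V) (k : ℕ)
      (a : Fin k → ℕ), (∀ i, 0 < a i) → ∑ i, a i = Fintype.card V →
      ((∃ u v, u ≠ v ∧ ¬ G.Adj u v) → Pack G univ univ a) → Pack G univ univ a := by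
    intro V _ _ G k a hpos hsum h
    by_cases hnc : ∃ u v, u ≠ v ∧ ¬ G.Adj u v
    · exact h hnc
    · exact pack_complete (fun u v huv => by_contra fun h => hnc ⟨u, v, huv, h⟩) _ a
        (fun i _ => hpos i) hsum.le
  have hle : ∀ (f : ℕ → ℕ) (x b : ℕ), b < K → f b ≤ x + ∑ b ∈ range K, f b := fun f x b hb =>
    (single_le_sum (f := f) (fun _ _ => Nat.zero_le _) (mem_range.2 hb)).trans
      (Nat.le_add_left _ _)
  obtain ⟨Q, hQ⟩ : ∃ Q, Q = 1 + ∑ b ∈ range K, q1 b := ⟨_, rfl⟩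
  obtain ⟨R, hR⟩ : ∃ R, R = K + ∑ b ∈ range K, r1 b := ⟨_, rfl⟩
  have hKQ : 2 * K ≤ 2 * K * Q := Nat.le_mul_of_pos_right _ (by omega)
  obtain ⟨t, ht⟩ := del R (2 * K * Q) (tB + ∑ b ∈ range K, t1 b) (by omega)
  refine ⟨t, fun V _ G hG k a hpos hsum => ?_⟩
  have := Fintype.ofFinite V
  rw [Nat.card_eq_fintype_card] at hsum
  refine fun_of_pack a hsum (hc0 V G k a hpos hsum fun hnc => ?_)
  have hT : RT G univ (t : ℝ) := rt_of_tough (Nat.cast_nonneg _) fun S hS => by
    exact_mod_cast hG S hS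
  set n := Fintype.card V with hn
  have hsp := sum_filter_add_sum_filter_not univ (fun i => a i < K) a
  by_cases hc : n ≤ 2 * K * Q * ∑ i ∈ univ.filter (fun i => ¬ a i < K), a i
  · obtain ⟨p, a1, a2, a3⟩ := ht V G hT hnc (univ.filter fun i => a i < K) a (fun i _ => hpos i)
      (fun i hi => by have := (mem_filter.1 hi).2; omega) (by
        rw [← hn, ← hsum, ← hsp, mul_add]
        omega)
    refine pack_union a1 a2 (pack_sub _ a (hc0 _ _ _ _ (fun _ => hpos _) (card_rest a1 a2 hsum)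
      fun hn2 => hB0 _ _ (rt_sub (Nat.cast_nonneg _)
      (a3.mono Subset.rfl (by exact_mod_cast Nat.le_add_right _ _))) hn2 _ _ (fun j => ?_)
      (card_rest a1 a2 hsum)))
    have h2 := (mem_sdiff.1 ((univ \ univ.filter fun i => a i < K).equivFin.symm j).2).2
    simp only [mem_filter, mem_univ, true_and] at h2
    omega
  obtain ⟨b, hb, hm⟩ : ∃ b < K, n ≤ 2 * K * ∑ i ∈ univ.filter (fun i => a i = b), a i := by
    by_contra h2
    push Not at h2
    have h3 : ∑ i ∈ univ.filter (fun i => a i < K), a i =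
        ∑ b ∈ range K, ∑ i ∈ univ.filter (fun i => a i = b), a i := by
      rw [← sum_fiberwise_of_maps_to (g := a) (t := range K)
        fun i hi => mem_range.2 (mem_filter.1 hi).2]
      refine sum_congr rfl fun b hb => sum_congr ?_ fun _ _ => rfl
      have := mem_range.1 hb
      ext i
      simp only [mem_filter, mem_univ, true_and]
      omega
    have h4 := sum_le_card_nsmul (range K)
      (fun b => 2 * K * ∑ i ∈ univ.filter (fun i => a i = b), a i) n
      fun b hb => (h2 b (mem_range.1 hb)).le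
    rw [← mul_sum, ← h3, card_range, smul_eq_mul, mul_assoc, mul_left_comm] at h4
    have h5 := Nat.le_of_mul_le_mul_left h4 (by omega)
    have h6 : 2 * ∑ i ∈ univ.filter (fun i => ¬ a i < K), a i ≤
        2 * K * Q * ∑ i ∈ univ.filter (fun i => ¬ a i < K), a i :=
      Nat.mul_le_mul_right _ (by omega)
    omega
  have hb0 : 0 < b := by
    rcases Nat.eq_zero_or_pos b with rfl | h
    · rw [sum_eq_zero fun i hi => (mem_filter.1 hi).2] at hm
      omega
    · exact h
  set J := univ.filter fun i => a i ≠ b ∧ a i < R with hJ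
  have hJ1 : ∑ i ∈ J, a i + ∑ i ∈ univ.filter (fun i => a i = b), a i ≤ n := by
    rw [← sum_union (disjoint_left.2 fun i h2 h3 => (mem_filter.1 h2).2.1 (mem_filter.1 h3).2),
      ← hsum]
    exact sum_le_sum_of_subset (subset_univ _)
  obtain ⟨p, a1, a2, a3⟩ := ht V G hT hnc J a (fun i _ => hpos i)
    (fun i hi => (mem_filter.1 hi).2.2.le) (by
      have h2 := Nat.mul_le_mul_left (2 * K * Q) hJ1
      have h3 : 2 * K * ∑ i ∈ univ.filter (fun i => a i = b), a i ≤
          2 * K * Q * ∑ i ∈ univ.filter (fun i => a i = b), a i := Nat.mul_le_mul_right _ hKQ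
      rw [mul_add] at h2
      rw [← hn]
      omega)
  have hout : ∀ i ∈ univ \ J, a i = b ∨ R ≤ a i := fun i hi => by
    have h2 := (mem_sdiff.1 hi).2
    simp only [hJ, mem_filter, mem_univ, true_and] at h2
    omega
  have ht1 := hle t1 tB b hb
  refine pack_union a1 a2 (pack_sub _ a (hc0 _ _ _ _ (fun _ => hpos _) (card_rest a1 a2 hsum)
    fun hn2 => h0 b hb0 _ _ (rt_sub (Nat.cast_nonneg _)
    (a3.mono Subset.rfl (by exact_mod_cast ht1))) hn2 _ _ (fun j => ?_) (fun _ => hpos _)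
    (card_rest a1 a2 hsum) ?_))
  · have := hout _ ((univ \ J).equivFin.symm j).2
    have := hle r1 K b hb
    omega
  · rw [← card_rest a1 a2 hsum, sum_filter, sum_fin (univ \ J) a,
      sum_fin (univ \ J) fun i => if a i ≠ b then a i else 0, ← sum_filter]
    have h2 : ∑ i ∈ (univ \ J).filter (fun i => a i ≠ b), a i ≤
        ∑ i ∈ univ.filter (fun i => ¬ a i < K), a i :=
      sum_le_sum_of_subset fun i hi => by
        obtain ⟨h3, h4⟩ := mem_filter.1 hi
        have := hout i h3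
        exact mem_filter.2 ⟨mem_univ _, by omega⟩
    have h3 : ∑ i ∈ univ.filter (fun i => a i = b), a i ≤ ∑ i ∈ univ \ J, a i :=
      sum_le_sum_of_subset fun i hi => mem_sdiff.2 ⟨mem_univ _, fun h4 =>
        (mem_filter.1 h4).2.1 (mem_filter.1 hi).2⟩
    have h4 : 2 * K * (Q * ∑ i ∈ univ.filter (fun i => ¬ a i < K), a i) ≤
        2 * K * ∑ i ∈ univ.filter (fun i => a i = b), a i := by
      rw [← mul_assoc]
      omega
    have h5 := Nat.le_of_mul_le_mul_left h4 (by omega)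
    have h6 := Nat.mul_le_mul (hQ ▸ hle q1 1 b hb) h2
    omega

end Pool.Agent.Lib.MP_f20cd2_co.EX
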