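import Pool.Agent.Lib.MP_f20cd2_co.EX.Segs

/-!
Groups with sum zero, cut points of a unit, and the cells.
-/

set_option autoImplicit false
set_option linter.unusedSectionVars false

namespace Pool.Agent.Lib.MP_f20cd2_co.EX

open Finset
open Pool.Agent.Lib.MP_f20cd2_co.H83 (Conn Cells)
open Pool.Agent.Lib.MP_f20cd2_co.PL
open Pool.Agent.Lib.MP_f20cd2_co.DP
open scoped Classical

variable {V : Type} [Fintype V] [DecidableEq V] {G : SimpleGraph V}

/-- All but `2 b` numbers are arranged in groups of `b` with sum divisible by `b`. -/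
theorem grp_exists {ι : Type} [DecidableEq ι] (b : ℕ) (hb : 0 < b) (a : ι → ℕ) (J : Finset ι) :
    ∃ (R : Finset ι) (grp pos : ι → ℕ), R ⊆ J ∧ R.card ≤ 2 * b ∧ (∀ i ∈ J \ R, pos i < b) ∧
      (∀ i ∈ J \ R, ∀ i' ∈ J \ R, grp i = grp i' → pos i = pos i' → i = i') ∧
      (∀ i ∈ J \ R, ∀ j < b, ∃ i' ∈ J \ R, grp i' = grp i ∧ pos i' = j) ∧
      ∀ g, b ∣ ∑ i ∈ (J \ R).filter fun i => grp i = g, a i := by
  induction J using Finset.strongInduction with
  | H J ih =>
    by_cases hJ : J.card ≤ 2 * b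
    · exact ⟨J, fun _ => 0, fun _ => 0, Subset.refl _, hJ, by simp, by simp, by simp, by simp⟩
    obtain ⟨T, hT, hc, hd⟩ := Int.erdos_ginzburg_ziv (n := b) (s := J) (fun i => (a i : ℤ))
      (by omega)
    have hd' : b ∣ ∑ i ∈ T, a i := by exact_mod_cast hd
    obtain ⟨R, grp, pos, h1, h2, h3, h4, h5, h6⟩ := ih (J \ T)
      (sdiff_ssubset hT (card_pos.1 (by omega)))
    let e : T ≃ Fin b := T.equivFinOfCardEq hc
    have hm : ∀ i, i ∉ T → (i ∈ J \ R ↔ i ∈ (J \ T) \ R) := fun i hi => by simp [hi]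
    have hm' : ∀ i ∈ T, i ∈ J \ R := fun i hi =>
      mem_sdiff.2 ⟨hT hi, fun h => (mem_sdiff.1 (h1 h)).2 hi⟩
    have hm'' : ∀ i ∈ (J \ T) \ R, i ∉ T := fun i hi => (mem_sdiff.1 (mem_sdiff.1 hi).1).2
    refine ⟨R, fun i => if i ∈ T then 0 else grp i + 1,
      fun i => if h : i ∈ T then e ⟨i, h⟩ else pos i, h1.trans sdiff_subset, h2, ?_, ?_, ?_, ?_⟩
    · intro i hi
      by_cases h : i ∈ T
      · simp only [dif_pos h]
        exact (e ⟨i, h⟩).2
      · simp only [dif_neg h]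
        exact h3 i ((hm i h).1 hi)
    · intro i hi i' hi' e1 e2
      by_cases h : i ∈ T <;> by_cases h' : i' ∈ T <;>
        simp only [h, h', if_true, if_false, dif_pos, dif_neg, not_false_eq_true] at e1 e2
      · exact congrArg Subtype.val (e.injective (Fin.ext e2))
      · omega
      · omega
      · exact h4 i ((hm i h).1 hi) i' ((hm i' h').1 hi') (by omega) e2
    · intro i hi j hj
      by_cases h : i ∈ T
      · have h' := (e.symm ⟨j, hj⟩).2
        refine ⟨_, hm' _ h', by simp only [if_pos h, if_pos h'], ?_⟩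
        simp only [dif_pos h', Subtype.coe_eta, Equiv.apply_symm_apply]
      · obtain ⟨i', hi', e1, e2⟩ := h5 i ((hm i h).1 hi) j hj
        have h' := hm'' i' hi'
        exact ⟨i', (hm i' h').2 hi', by simp only [if_neg h, if_neg h', e1],
          by simp only [dif_neg h', e2]⟩
    · intro g
      rcases g with _ | g
      · convert hd' using 2
        ext i
        by_cases h : i ∈ T
        · simp only [mem_filter, hm' i h, h, if_true, and_self]
        · simp [h]
      · convert h6 g using 2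
        ext i
        by_cases h : i ∈ T
        · simp [h]
        · simp only [mem_filter, if_neg h, hm i h, Nat.add_right_cancel_iff]

/-- Cut points: the piece of a member contains a whole block and has the right residue. -/
theorem cuts_exist {ι : Type} [DecidableEq ι] {b : ℕ} (hb : 0 < b) (a : ι → ℕ) (J : Finset ι)
    (grp pos : ι → ℕ) (h3 : ∀ i ∈ J, pos i < b)
    (h4 : ∀ i ∈ J, ∀ i' ∈ J, grp i = grp i' → pos i = pos i' → i = i')
    (h6 : ∀ g, b ∣ ∑ i ∈ J.filter fun i => grp i = g, a i) (ha : ∀ i ∈ J, 3 * b ≤ a i) :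
    ∃ x : ℕ → ℕ → ℕ, (∀ g j, 2 * j * b ≤ x g j ∧ x g j < (2 * j + 1) * b) ∧
      (∀ g, x g 0 = 0 ∧ x g b = 2 * b * b) ∧
      ∀ i ∈ J, ∃ d, x (grp i) (pos i + 1) + d * b = x (grp i) (pos i) + a i := by
  let S : ℕ → ℕ → ℕ := fun g j => ∑ i ∈ J.filter fun i => grp i = g ∧ pos i < j, a i
  refine ⟨fun g j => 2 * j * b + S g j % b, fun g j => ⟨Nat.le_add_right _ _, ?_⟩,
    fun g => ⟨by simp [S], ?_⟩, fun i hi => ?_⟩
  · have := Nat.mod_lt (S g j) hb
    show 2 * j * b + S g j % b < _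
    rw [Nat.add_mul]
    omega
  · have h1 : S g b = ∑ i ∈ J.filter fun i => grp i = g, a i :=
      sum_congr (filter_congr fun i hi => by simp [h3 i hi]) fun _ _ => rfl
    show 2 * b * b + S g b % b = _
    rw [h1, Nat.mod_eq_zero_of_dvd (h6 g), add_zero]
  · have h1 : S (grp i) (pos i + 1) = a i + S (grp i) (pos i) := by
      have h2 : (J.filter fun i' => grp i' = grp i ∧ pos i' < pos i + 1) =
          insert i (J.filter fun i' => grp i' = grp i ∧ pos i' < pos i) := by
        ext i'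
        simp only [mem_filter, mem_insert]
        constructor
        · rintro ⟨e1, e2, e3⟩
          by_cases e4 : pos i' = pos i
          · exact Or.inl (h4 i' e1 i hi e2 e4)
          · exact Or.inr ⟨e1, e2, by omega⟩
        · rintro (rfl | ⟨e1, e2, e3⟩)
          · exact ⟨hi, rfl, Nat.lt_succ_self _⟩
          · exact ⟨e1, e2, by omega⟩
      show ∑ i' ∈ J.filter (fun i' => grp i' = grp i ∧ pos i' < pos i + 1), a i' = _
      rw [h2, sum_insert (by simp)]
    show ∃ d, 2 * (pos i + 1) * b + S (grp i) (pos i + 1) % b + d * b =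
      2 * pos i * b + S (grp i) (pos i) % b + a i
    rw [h1, ← Nat.add_mod_mod]
    generalize S (grp i) (pos i) % b = r
    have h5 := Nat.div_add_mod (a i + r) b
    have h7 : 3 ≤ (a i + r) / b := (Nat.le_div_iff_mul_le hb).2 (by have := ha i hi; omega)
    obtain ⟨d, hd⟩ := Nat.exists_eq_add_of_le (show 2 ≤ (a i + r) / b by omega)
    refine ⟨d, ?_⟩
    rw [hd] at h5
    nlinarith

/-- The blocks of the paths and a partition of the rest form the cells. -/
theorem cells_exist {b N : ℕ} (hb : 0 < b) {w : ℕ → ℕ → V}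
    (hw : Pf G (range N) (fun _ => 2 * b * b - 1) w) {D : Finset V}
    (hD : ∀ v, v ∈ D ↔ ∃ σ < N, ∃ i < 2 * b * b, v = w σ i) {Z : Type} [Fintype Z] [DecidableEq Z]
    (sz : Z → ℕ) (hP : Pack G (univ \ D) univ sz) (hsum : ∑ z, sz z = (univ \ D).card) :
    ∃ φ : V → (Fin N × Fin (2 * b)) ⊕ Z, (∀ p, Conn G (univ.filter fun x => φ x = p)) ∧
      (∀ z, (univ.filter fun x => φ x = Sum.inr z).card = sz z) ∧
      (∀ y, (univ.filter fun x => φ x = Sum.inl y).card = b) ∧
      ∀ k m x, φ x = Sum.inl (k, m) ↔ ∃ i < b, x = w k (m * b + i) := by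
  obtain ⟨q, h1, h2⟩ := hP
  have hu : univ.biUnion q = univ \ D := by
    refine eq_of_subset_of_card_le (biUnion_subset.2 fun z hz => (h1 z hz).1) ?_
    rw [card_biUnion fun i hi j hj hne => h2 i (mem_coe.1 hi) j (mem_coe.1 hj) hne, ← hsum]
    exact (sum_congr rfl fun i hi => (h1 i hi).2.1).ge
  have hlt : ∀ (m : Fin (2 * b)) i, i < b → m * b + i < 2 * b * b := by
    intro m i hi
    have := Nat.mul_le_mul_right b (Nat.succ_le_of_lt m.2)
    rw [Nat.succ_mul] at this
    omega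
  let c : (Fin N × Fin (2 * b)) ⊕ Z → Finset V := fun p =>
    match p with
    | Sum.inl y => (range b).image fun i => w y.1 (y.2 * b + i)
    | Sum.inr z => q z
  have hl : ∀ y x, x ∈ c (Sum.inl y) ↔ ∃ i < b, x = w y.1 (y.2 * b + i) := fun y x => by
    simp only [c, mem_image, mem_range, eq_comm]
  have hlD : ∀ y, ∀ x ∈ c (Sum.inl y), x ∈ D := fun y x hx => by
    obtain ⟨i, hi, e⟩ := (hl y x).1 hx
    exact (hD x).2 ⟨y.1, y.1.2, _, hlt y.2 i hi, e⟩
  have hrD : ∀ z, ∀ x ∈ c (Sum.inr z), x ∉ D := fun z x hx =>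
    (mem_sdiff.1 ((h1 z (mem_univ _)).1 hx)).2
  have hcov : ∀ x, ∃ p, x ∈ c p := by
    intro x
    by_cases hx : x ∈ D
    · obtain ⟨σ, hσ, i, hi, e⟩ := (hD x).1 hx
      refine ⟨Sum.inl (⟨σ, hσ⟩, ⟨i / b, (Nat.div_lt_iff_lt_mul hb).2 hi⟩), (hl _ x).2
        ⟨i % b, Nat.mod_lt _ hb, ?_⟩⟩
      simp only [Nat.div_add_mod', e]
    · have : x ∈ univ.biUnion q := hu ▸ mem_sdiff.2 ⟨mem_univ _, hx⟩
      obtain ⟨z, -, hz⟩ := mem_biUnion.1 this
      exact ⟨Sum.inr z, hz⟩
  have huq : ∀ p p' x, x ∈ c p → x ∈ c p' → p = p' := by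
    rintro (y | z) (y' | z') x hx hx'
    · obtain ⟨i, hi, e⟩ := (hl y x).1 hx
      obtain ⟨i', hi', e'⟩ := (hl y' x).1 hx'
      have a1 := hlt y.2 i hi
      have a2 := hlt y'.2 i' hi'
      obtain ⟨e1, e2⟩ := hw.inj _ (mem_range.2 y.1.2) _ (mem_range.2 y'.1.2) _ (by omega) _
        (by omega) (e.symm.trans e')
      have e3 := congrArg (· / b) e2
      simp only [mul_comm _ b, Nat.mul_add_div hb, Nat.div_eq_of_lt hi, Nat.div_eq_of_lt hi',
        add_zero] at e3
      exact congrArg Sum.inl (Prod.ext (Fin.ext e1) (Fin.ext e3))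
    · exact absurd (hlD y x hx) (hrD z' x hx')
    · exact absurd (hlD y' x hx') (hrD z x hx)
    · by_contra hne
      exact disjoint_left.1 (h2 z (mem_univ _) z' (mem_univ _) fun e => hne (e ▸ rfl)) hx hx'
  choose φ hφ using hcov
  have hf : ∀ p, (univ.filter fun x => φ x = p) = c p := fun p => by
    ext x
    simp only [mem_filter, mem_univ, true_and]
    exact ⟨fun e => e ▸ hφ x, fun h => huq _ _ x (hφ x) h⟩
  refine ⟨φ, ?_, fun z => by rw [hf]; exact (h1 z (mem_univ _)).2.1, fun y => ?_, fun k m x => ?_⟩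
  · rintro (y | z)
    · rw [hf]
      refine conn_run (fun i => w y.1 (y.2 * b + i)) b hb fun i hi => ?_
      have := hlt y.2 (i + 1) hi
      exact hw.adj _ (mem_range.2 y.1.2) _ (by omega)
    · rw [hf]
      exact (h1 z (mem_univ _)).2.2
  · rw [hf]
    refine (card_image_of_injOn fun i hi j hj e => ?_).trans (card_range b)
    have a1 := hlt y.2 i (mem_range.1 (mem_coe.1 hi))
    have a2 := hlt y.2 j (mem_range.1 (mem_coe.1 hj))
    have := (hw.inj _ (mem_range.2 y.1.2) _ (mem_range.2 y.1.2) _ (by omega) _ (by omega) e).2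
    omega
  · rw [← hl (k, m) x, ← hf (Sum.inl (k, m))]
    simp

end Pool.Agent.Lib.MP_f20cd2_co.EX
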