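import Pool.Agent.Lib.MP_f20cd2_co.EX.Forest

set_option autoImplicit false
set_option linter.unusedSectionVars false

namespace Pool.Agent.Lib.MP_f20cd2_co.EX

open Finset
open Pool.Agent.Lib.MP_f20cd2_co.H83 (Conn Cells)
open Pool.Agent.Lib.MP_f20cd2_co.PL
open Pool.Agent.Lib.MP_f20cd2_co.HM (dg)
open Pool.Agent.Lib.MP_f20cd2_co.DP
open scoped Classical

variable {V : Type} [Fintype V] [DecidableEq V] {G : SimpleGraph V}

/-- `useA v := if v ∈ Wb then rtb v ∈ Q else rta v ∉ Q`, `tg v = if useA v then rta v else rtb v`.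
`rta v` and `rtb v` are different and within distance 54, so not both in `Q`.  Connectivity by
`conn_of_rank`: for `x ∈ Xa` all `v` with `tg v = x` use `a`, and `para v` is `x` or lies in
`Wa \ Xa ⊆ Rm` and uses `a` again; the same for `b`; for other `x` the fibre is empty. -/
theorem hang {H : SimpleGraph V} (hH : H ≤ G) {Wa Wb Xa Xb : Finset V} {para parb : V → V}
    {dpa dpb : V → ℕ} {rta rtb : V → V} (ha : Fo H Wa Xa para dpa rta)
    (hb : Fo H Wb Xb parb dpb rtb) (hd : Disjoint Wa Wb) (Q Rm : Finset V)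
    (hQ : ∀ x ∈ Q, ∀ x' ∈ Q, x ≠ x' → ¬ Nr H 54 x x') (h1 : Wa \ Xa ⊆ Rm) (h2 : Wb \ Xb ⊆ Rm)
    (h3 : Disjoint Rm (Xa ∪ Xb)) :
    ∃ tg : V → V, (∀ v, tg v ∈ Xa ∪ Xb ∧ tg v ∉ Q ∧ Nr H 27 v (tg v)) ∧
      ∀ x, Conn G (insert x (Rm.filter fun v => tg v = x)) := by
  have hab : ∀ x, x ∈ Xa → x ∈ Xb → False := fun x h h' =>
    disjoint_left.1 hd (ha.sub h) (hb.sub h')
  have hnb : ∀ v, rta v ∈ Q → rtb v ∈ Q → False := by
    intro v q1 q2
    refine hQ _ q1 _ q2 (fun e => hab _ (ha.mem v) (e ▸ hb.mem v)) ?_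
    exact (ha.nr v).symm.trans (hb.nr v)
  obtain ⟨U, hU1, hU2⟩ : ∃ U : V → Prop, (∀ v ∈ Wb, U v ↔ rtb v ∈ Q) ∧
      ∀ v, v ∉ Wb → (U v ↔ rta v ∉ Q) :=
    ⟨fun v => if v ∈ Wb then rtb v ∈ Q else rta v ∉ Q, fun v hv => by simp only [if_pos hv],
      fun v hv => by simp only [if_neg hv]⟩
  obtain ⟨tg, ta, tb⟩ : ∃ tg : V → V, (∀ v, U v → tg v = rta v) ∧ ∀ v, ¬ U v → tg v = rtb v :=
    ⟨fun v => if U v then rta v else rtb v, fun v hv => if_pos hv, fun v hv => if_neg hv⟩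
  have hq : ∀ v, tg v ∉ Q := by
    intro v
    by_cases hu : U v
    · rw [ta v hu]
      by_cases hw : v ∈ Wb
      · exact fun q => hnb v q ((hU1 v hw).1 hu)
      · exact (hU2 v hw).1 hu
    · rw [tb v hu]
      by_cases hw : v ∈ Wb
      · exact fun q => hu ((hU1 v hw).2 q)
      · exact fun q => hu ((hU2 v hw).2 fun q' => hnb v q' q)
  refine ⟨tg, fun v => ⟨?_, hq v, ?_⟩, fun x => ?_⟩
  · by_cases hu : U v
    · rw [ta v hu]
      exact mem_union_left _ (ha.mem v)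
    · rw [tb v hu]
      exact mem_union_right _ (hb.mem v)
  · by_cases hu : U v
    · rw [ta v hu]
      exact ha.nr v
    · rw [tb v hu]
      exact hb.nr v
  · refine conn_of_rank _ x (mem_insert_self _ _)
      (fun v => if v = x then 0 else (if x ∈ Xa then dpa v else dpb v) + 1) ?_
    intro v hv hvx
    obtain ⟨hvR, hvt⟩ := mem_filter.1 ((mem_insert.1 hv).resolve_left hvx)
    have hvX : v ∉ Xa ∪ Xb := disjoint_left.1 h3 hvR
    have hxQ : x ∉ Q := hvt ▸ hq v
    by_cases hu : U v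
    · have hx : rta v = x := (ta v hu).symm.trans hvt
      have hxa : x ∈ Xa := hx ▸ ha.mem v
      obtain ⟨s1, s2, s3, s4⟩ := ha.step v fun h => hvX (mem_union_left _ h)
      refine ⟨para v, ?_, hH s1, ?_⟩
      · by_cases hp : para v ∈ Xa
        · exact mem_insert.2 (Or.inl ((ha.fix _ hp).symm.trans (s4.trans hx)))
        · refine mem_insert_of_mem (mem_filter.2 ⟨h1 (mem_sdiff.2 ⟨s2, hp⟩), ?_⟩)
          have hu' : U (para v) := (hU2 _ (disjoint_left.1 hd s2)).2 (by rw [s4, hx]; exact hxQ)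
          rw [ta _ hu', s4, hx]
      · simp only [if_neg hvx, if_pos hxa]
        split_ifs <;> omega
    · have hx : rtb v = x := (tb v hu).symm.trans hvt
      have hxb : x ∈ Xb := hx ▸ hb.mem v
      have hxa : x ∉ Xa := fun h => hab x h hxb
      obtain ⟨s1, s2, s3, s4⟩ := hb.step v fun h => hvX (mem_union_right _ h)
      refine ⟨parb v, ?_, hH s1, ?_⟩
      · by_cases hp : parb v ∈ Xb
        · exact mem_insert.2 (Or.inl ((hb.fix _ hp).symm.trans (s4.trans hx)))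
        · refine mem_insert_of_mem (mem_filter.2 ⟨h2 (mem_sdiff.2 ⟨s2, hp⟩), ?_⟩)
          have hu' : ¬ U (parb v) := fun h => hxQ (by
            have := (hU1 _ s2).1 h
            rwa [s4, hx] at this)
          rw [tb _ hu', s4, hx]
      · simp only [if_neg hvx, if_neg hxa]
        split_ifs <;> omega

/-- Blocks from prescribed sets `A i` on the first half and a target map on the second half. -/
theorem blocks {Y Rm : Finset V} {N2 N : ℕ} {p : ℕ → V} (hp : Ln G N p) (hN : N2 ≤ N)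
    (A : ℕ → Finset V) (tg : V → V) (hY : ∀ i < N, p i ∈ Y) (hA : ∀ i < N2, A i ⊆ Y)
    (hAc : ∀ i < N2, Conn G (insert (p i) (A i))) (hAp : ∀ i < N2, ∀ j < N, p j ∉ A i)
    (hAd : ∀ i < N2, ∀ j < N2, i ≠ j → Disjoint (A i) (A j))
    (hRm : ∀ v, v ∈ Rm ↔ v ∈ Y ∧ (∀ j < N, p j ≠ v) ∧ ∀ i < N2, v ∉ A i)
    (htg : ∀ v ∈ Rm, ∃ i, N2 ≤ i ∧ i < N ∧ p i = tg v)
    (hc : ∀ x, Conn G (insert x (Rm.filter fun v => tg v = x))) :
    Bl G Y N p fun i =>
      if i < N2 then insert (p i) (A i) else insert (p i) (Rm.filter fun v => tg v = p i) := by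
  have key : ∀ i < N, ∀ v, v ∈ (if i < N2 then insert (p i) (A i)
      else insert (p i) (Rm.filter fun v => tg v = p i)) ↔
      v = p i ∨ (i < N2 ∧ v ∈ A i) ∨ (N2 ≤ i ∧ v ∈ Rm ∧ tg v = p i) := by
    intro i _ v
    by_cases h : i < N2
    · rw [if_pos h, mem_insert]
      constructor
      · rintro (e | e)
        · exact Or.inl e
        · exact Or.inr (Or.inl ⟨h, e⟩)
      · rintro (e | e | e)
        · exact Or.inl e
        · exact Or.inr e.2
        · omega
    · rw [if_neg h, mem_insert, mem_filter]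
      constructor
      · rintro (e | e)
        · exact Or.inl e
        · exact Or.inr (Or.inr ⟨by omega, e⟩)
      · rintro (e | e | e)
        · exact Or.inl e
        · exact absurd e.1 h
        · exact Or.inr e.2
  refine ⟨hp.adj, fun i hi => (key i hi _).2 (Or.inl rfl), fun i _ => ?_, fun i hi v hv => ?_,
    fun i hi j hj hij => ?_, fun v hv => ?_⟩
  · by_cases h : i < N2
    · simp only [if_pos h]
      exact hAc i h
    · simp only [if_neg h]
      exact hc _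
  · rcases (key i hi v).1 hv with e | e | e
    · exact e ▸ hY i hi
    · exact hA i e.1 e.2
    · exact ((hRm v).1 e.2.1).1
  · refine disjoint_left.2 fun v hv hv' => ?_
    rcases (key i hi v).1 hv with e | e | e <;> rcases (key j hj v).1 hv' with e' | e' | e'
    · exact hij (hp.inj i hi j hj (e.symm.trans e'))
    · exact hAp j e'.1 i hi (e ▸ e'.2)
    · exact ((hRm v).1 e'.2.1).2.1 i hi e.symm
    · exact hAp i e.1 j hj (e' ▸ e.2)
    · exact disjoint_left.1 (hAd i e.1 j e'.1 hij) e.2 e'.2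
    · exact ((hRm v).1 e'.2.1).2.2 i e.1 e.2
    · exact ((hRm v).1 e.2.1).2.1 j hj e'.symm
    · exact ((hRm v).1 e.2.1).2.2 j e'.1 e'.2
    · exact hij (hp.inj i hi j hj (e.2.2.symm.trans e'.2.2))
  · by_cases h1 : ∃ j < N, p j = v
    · obtain ⟨j, hj, e⟩ := h1
      exact ⟨j, hj, (key j hj v).2 (Or.inl e.symm)⟩
    by_cases h2 : ∃ i < N2, v ∈ A i
    · obtain ⟨i, hi, e⟩ := h2
      exact ⟨i, by omega, (key i (by omega) v).2 (Or.inr (Or.inl ⟨hi, e⟩))⟩
    have hv' : v ∈ Rm := (hRm v).2 ⟨hv, fun j hj e => h1 ⟨j, hj, e⟩, fun i hi e => h2 ⟨i, hi, e⟩⟩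
    obtain ⟨i, i1, i2, e⟩ := htg v hv'
    exact ⟨i, i2, (key i i2 v).2 (Or.inr (Or.inr ⟨i1, hv', e.symm⟩))⟩

end Pool.Agent.Lib.MP_f20cd2_co.EX
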