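import Pool.Agent.Lib.MP_f20cd2_co.AS.Quo

/-!
Lifting sets of cells.
-/

set_option autoImplicit false
set_option linter.unusedSectionVars false

namespace Pool.Agent.Lib.MP_f20cd2_co.EX

open Finset
open Pool.Agent.Lib.MP_f20cd2_co.H83 (Conn Cells)
open Pool.Agent.Lib.MP_f20cd2_co.PL
open Pool.Agent.Lib.MP_f20cd2_co.AS (quo quo_adj quo_lift WPack)
open scoped Classical

variable {V : Type} [Fintype V] [DecidableEq V] {G : SimpleGraph V}
variable {W : Type} [Fintype W] [DecidableEq W]

/-- The vertices whose cell lies in `R`. -/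
def pre (φ : V → W) (R : Finset W) : Finset V := univ.filter fun x => φ x ∈ R

theorem mem_pre {φ : V → W} {R : Finset W} {x : V} : x ∈ pre φ R ↔ φ x ∈ R := by
  simp [pre]

theorem card_pre (φ : V → W) (R : Finset W) :
    (pre φ R).card = ∑ p ∈ R, (univ.filter fun x => φ x = p).card := by
  rw [card_eq_sum_card_fiberwise (f := φ) (t := R) fun x hx => mem_coe.2 (mem_pre.1 (mem_coe.1 hx))]
  refine sum_congr rfl fun y hy => ?_
  congr 1
  ext x
  simp only [mem_filter, mem_univ, true_and, mem_pre]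
  exact ⟨fun h => h.2, fun h => ⟨by rw [h]; exact hy, h⟩⟩

theorem card_pre_const {φ : V → W} {R : Finset W} {b : ℕ}
    (h : ∀ p ∈ R, (univ.filter fun x => φ x = p).card = b) : (pre φ R).card = R.card * b := by
  rw [card_pre, sum_const_nat h]

theorem conn_pre {φ : V → W} (h1 : ∀ p, Conn G (univ.filter fun x => φ x = p)) {R : Finset W}
    (hR : Conn (quo G φ) R) : Conn G (pre φ R) := by
  have h4 := hR
  obtain ⟨y, hy⟩ := h4.1
  obtain ⟨r, hr⟩ := (h1 y).1
  have hry := (mem_filter.1 hr).2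
  have hrm : r ∈ pre φ R := mem_pre.2 (by rw [hry]; exact hy)
  refine BasicAux.of_const hrm fun A hA v hv => ?_
  have hf : ∀ x x', φ x ∈ R → φ x' = φ x → (A x ↔ A x') := by
    intro x x' hx e
    refine BasicAux.const (h1 (φ x)) A (fun a ha b hb hab => hA a ?_ b ?_ hab) x
      (mem_filter.2 ⟨mem_univ _, rfl⟩) x' (mem_filter.2 ⟨mem_univ _, e⟩)
    · exact mem_pre.2 (by rw [(mem_filter.1 ha).2]; exact hx)
    · exact mem_pre.2 (by rw [(mem_filter.1 hb).2]; exact hx)
  have hd : ∀ x, φ x ∈ R → ((∃ z, φ z = φ x ∧ A z) ↔ A x) := by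
    intro x hx
    exact ⟨fun ⟨z, hz, hAz⟩ => (hf x z hx hz).2 hAz, fun hAx => ⟨x, rfl, hAx⟩⟩
  have h5 := BasicAux.const h4 (fun q => ∃ z, φ z = q ∧ A z) (fun a ha b hb hab => by
    obtain ⟨-, x, x', rfl, rfl, hxx⟩ := quo_adj.1 hab
    exact (hd x ha).trans ((hA x (mem_pre.2 ha) x' (mem_pre.2 hb) hxx).trans (hd x' hb).symm))
    (φ v) (mem_pre.1 hv) (φ r) (mem_pre.1 hrm)
  exact (hd v (mem_pre.1 hv)).symm.trans (h5.trans (hd r (mem_pre.1 hrm)))

/-- Two connected sets with a common vertex. -/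
theorem conn_union_mem {P Q : Finset V} (hP : Conn G P) (hQ : Conn G Q) {x : V} (hx : x ∈ P)
    (hy : x ∈ Q) : Conn G (P ∪ Q) := by
  refine BasicAux.of_const (mem_union_left Q hx) fun A hA v hv => ?_
  rcases mem_union.1 hv with h | h
  · exact BasicAux.const hP A
      (fun a ha b hb => hA a (mem_union_left _ ha) b (mem_union_left _ hb)) v h x hx
  · exact BasicAux.const hQ A
      (fun a ha b hb => hA a (mem_union_right _ ha) b (mem_union_right _ hb)) v h x hy

/-- A connected piece that contains a cell, together with cells that hang on this cell. -/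
theorem conn_fill {φ : V → W} (h1 : ∀ p, Conn G (univ.filter fun x => φ x = p)) {P : Finset V}
    (hP : Conn G P) {c : W} (hc : ∀ x, φ x = c → x ∈ P) {Y : Finset W}
    (hY : Conn (quo G φ) (insert c Y)) : Conn G (P ∪ pre φ Y) := by
  obtain ⟨x, hx⟩ := (h1 c).1
  have hx' := (mem_filter.1 hx).2
  have h2 := conn_union_mem hP (conn_pre h1 hY) (hc x hx')
    (mem_pre.2 (by rw [hx']; exact mem_insert_self _ _))
  have e : P ∪ pre φ (insert c Y) = P ∪ pre φ Y := by
    ext v
    simp only [mem_union, mem_pre, mem_insert]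
    constructor
    · rintro (h | h | h)
      · exact Or.inl h
      · exact Or.inl (hc v h)
      · exact Or.inr h
    · rintro (h | h)
      · exact Or.inl h
      · exact Or.inr (Or.inr h)
  rwa [e] at h2

/-- The cells that are left become the parts of size `b`. -/
theorem finish_cells {ι : Type} [Fintype ι] [DecidableEq ι] {φ : V → W}
    (h1 : ∀ p, Conn G (univ.filter fun x => φ x = p)) (a : ι → ℕ) {b : ℕ} (hb : 0 < b)
    (hsum : ∑ i, a i = Fintype.card V) (I : Finset ι) (hI : ∀ i, i ∉ I → a i = b)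
    (p : ι → Finset V) (hp : ∀ i ∈ I, (p i).card = a i ∧ Conn G (p i))
    (hd : ∀ i ∈ I, ∀ j ∈ I, i ≠ j → Disjoint (p i) (p j))
    (hF : ∀ x, (∀ i ∈ I, x ∉ p i) → (univ.filter fun y => φ y = φ x).card = b ∧
      ∀ y, φ y = φ x → ∀ i ∈ I, y ∉ p i) : Pack G univ univ a := by
  set F : Finset W := (univ \ I.biUnion p).image φ with hFd
  have hF1 : ∀ c ∈ F, (univ.filter fun y => φ y = c).card = b ∧
      ∀ y, φ y = c → ∀ i ∈ I, y ∉ p i := by
    intro c hc
    obtain ⟨x, hx, rfl⟩ := mem_image.1 hc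
    exact hF x fun i hi h => (mem_sdiff.1 hx).2 (mem_biUnion.2 ⟨i, hi, h⟩)
  have h2 : (univ \ I.biUnion p).card ≤ F.card * b := by
    rw [← card_pre_const fun c hc => (hF1 c hc).1]
    exact card_le_card fun x hx => mem_pre.2 (mem_image_of_mem _ hx)
  have h3 : (I.biUnion p).card = ∑ i ∈ I, a i := by
    rw [card_biUnion fun i hi j hj hne => hd i (mem_coe.1 hi) j (mem_coe.1 hj) hne]
    exact sum_congr rfl fun i hi => (hp i hi).1
  have h4 := card_sdiff_add_card_eq_card (subset_univ (I.biUnion p))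
  have h5 : ∑ i ∈ univ \ I, a i = (univ \ I).card * b :=
    sum_const_nat fun i hi => hI i (mem_sdiff.1 hi).2
  have h6 := sum_sdiff (f := a) (subset_univ I)
  rw [card_univ] at h4
  have h7 : (univ \ I).card ≤ F.card := Nat.le_of_mul_le_mul_right (by omega) hb
  obtain ⟨f, hf⟩ : ∃ f : (univ \ I : Finset ι) → F, Function.Injective f := by
    obtain ⟨e⟩ := Function.Embedding.nonempty_of_card_le
      (α := (univ \ I : Finset ι)) (β := F) (by rw [Fintype.card_coe, Fintype.card_coe]; exact h7)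
    exact ⟨e, e.injective⟩
  have hm : ∀ i, i ∉ I → i ∈ univ \ I := fun i hi => mem_sdiff.2 ⟨mem_univ _, hi⟩
  refine ⟨fun i => if h : i ∈ I then p i else univ.filter fun y => φ y = (f ⟨i, hm i h⟩ : W),
    fun i _ => ⟨subset_univ _, ?_⟩, fun i _ j _ hne => ?_⟩
  · by_cases h : i ∈ I
    · simp only [dif_pos h]
      exact hp i h
    · simp only [dif_neg h]
      exact ⟨(hF1 _ (f _).2).1.trans (hI i h).symm, h1 _⟩
  · by_cases h : i ∈ I <;> by_cases h' : j ∈ I
    · simp only [dif_pos h, dif_pos h']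
      exact hd i h j h' hne
    · simp only [dif_pos h, dif_neg h']
      exact disjoint_left.2 fun y hy hy' => (hF1 _ (f _).2).2 y (mem_filter.1 hy').2 i h hy
    · simp only [dif_neg h, dif_pos h']
      exact disjoint_left.2 fun y hy hy' => (hF1 _ (f _).2).2 y (mem_filter.1 hy).2 j h' hy'
    · simp only [dif_neg h, dif_neg h']
      refine disjoint_left.2 fun y hy hy' => hne ?_
      have e : f ⟨i, hm i h⟩ = f ⟨j, hm j h'⟩ :=
        Subtype.ext ((mem_filter.1 hy).2.symm.trans (mem_filter.1 hy').2)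
      exact congrArg Subtype.val (hf e)

end Pool.Agent.Lib.MP_f20cd2_co.EX
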