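import Pool.Agent.Lib.MP_f20cd2_co.EX.Grp
import Pool.Agent.Lib.MP_f20cd2_co.EX.Fill
import Pool.Agent.Lib.MP_f20cd2_co.EX.LiftA
import Pool.Agent.Lib.MP_f20cd2_co.EX.Iface

/-!
Almost all of the mass is in parts of one size.
-/

set_option autoImplicit false
set_option linter.unusedSectionVars false

namespace Pool.Agent.Lib.MP_f20cd2_co.EX

open Finset
open Pool.Agent.Lib.MP_f20cd2_co.H83 (Conn Cells)
open Pool.Agent.Lib.MP_f20cd2_co.PL
open Pool.Agent.Lib.MP_f20cd2_co.DP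
open scoped Classical

variable {V : Type} [Fintype V] [DecidableEq V] {G : SimpleGraph V}

namespace OneAux

theorem rt_card {W : Finset V} {K : ℕ} (h : RT G W K) (hnc : ∃ u v, u ≠ v ∧ ¬ G.Adj u v) :
    2 * K ≤ W.card := by
  obtain ⟨u, v, huv, hn⟩ := hnc
  have h1 := h {u, v} 2 (BasicAux.cells {u, v} id (fun a ha b hb hab => ?_) 2
    (by rw [image_id, card_pair huv])) le_rfl
  · have h2 : K * 2 ≤ (W \ {u, v}).card := by exact_mod_cast h1
    have h3 : (W \ {u, v}).card ≤ W.card := card_le_card sdiff_subset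
    omega
  · simp only [mem_insert, mem_singleton] at ha hb
    rcases ha with rfl | rfl <;> rcases hb with rfl | rfl
    · rfl
    · exact absurd hab hn
    · exact absurd hab.symm hn
    · rfl

/-- The parts are put together from pieces and cells. -/
theorem asm {W ι : Type} [Fintype W] [DecidableEq W] [Fintype ι] [DecidableEq ι] {φ : V → W}
    (h1 : ∀ p, Conn G (univ.filter fun x => φ x = p)) (a : ι → ℕ) {b : ℕ} (hb : 0 < b)
    (hsum : ∑ i, a i = Fintype.card V) (J : Finset ι) (hJ : ∀ i, i ∉ J → a i = b)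
    (P : ι → Finset V) (X : ι → Finset W) (anc : ι → W)
    (hP : ∀ i ∈ J, Conn G (P i) ∧ (∀ x, φ x = anc i → x ∈ P i) ∧
      Conn (AS.quo G φ) (insert (anc i) (X i)) ∧ (P i).card + (X i).card * b = a i)
    (hPP : ∀ i ∈ J, ∀ i' ∈ J, i ≠ i' → Disjoint (P i) (P i'))
    (hXX : ∀ i ∈ J, ∀ i' ∈ J, i ≠ i' → Disjoint (X i) (X i'))
    (hPX : ∀ i ∈ J, ∀ i' ∈ J, ∀ x ∈ P i, φ x ∉ X i')
    (hcl : ∀ i ∈ J, ∀ y ∈ P i, ∀ x, φ y = φ x → ∃ i' ∈ J, x ∈ P i')
    (hsz : ∀ x, (∀ i ∈ J, x ∉ P i) → (univ.filter fun y => φ y = φ x).card = b) :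
    Pack G univ univ a := by
  refine finish_cells h1 a hb hsum J hJ (fun i => P i ∪ pre φ (X i)) (fun i hi => ?_)
    (fun i hi j hj hne => ?_) fun x hx => ⟨hsz x fun i hi h => hx i hi (mem_union_left _ h), ?_⟩
  · obtain ⟨p1, p2, p3, p4⟩ := hP i hi
    refine ⟨?_, conn_fill h1 p1 p2 p3⟩
    rw [card_union_of_disjoint (disjoint_left.2 fun x hx hx' => hPX i hi i hi x hx (mem_pre.1 hx')),
      card_pre_const (b := b) fun p hp => ?_, p4]
    obtain ⟨x, hx⟩ := (h1 p).1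
    have e := (mem_filter.1 hx).2
    rw [← e] at hp ⊢
    exact hsz x fun i' hi' h => hPX i' hi' i hi x h hp
  · refine disjoint_left.2 fun x hx hx' => ?_
    rcases mem_union.1 hx with h | h <;> rcases mem_union.1 hx' with h' | h'
    · exact disjoint_left.1 (hPP i hi j hj hne) h h'
    · exact hPX i hi j hj x h (mem_pre.1 h')
    · exact hPX j hj i hi x h' (mem_pre.1 h)
    · exact disjoint_left.1 (hXX i hi j hj hne) (mem_pre.1 h) (mem_pre.1 h')
  · intro y e i hi hy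
    rcases mem_union.1 hy with h | h
    · obtain ⟨i', hi', h'⟩ := hcl i hi y h x e
      exact hx i' hi' (mem_union_left _ h')
    · exact hx i hi (mem_union_right _ (mem_pre.2 (e ▸ mem_pre.1 h)))

/-- The rest of the graph has room for the roots and a whole number of atoms. -/
theorem atoms {ι : Type} [Fintype ι] [DecidableEq ι] (a : ι → ℕ) {b : ℕ}
    (J R : Finset ι) (hRJ : R ⊆ J) (hJ : ∀ i, i ∉ J → a i = b) (grp : ι → ℕ)
    (h6 : ∀ g, b ∣ ∑ i ∈ (J \ R).filter fun i => grp i = g, a i) (ρ e : ι → ℕ)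
    (hρ : ∀ i ∈ R, ρ i + e i * b = a i) {m u : ℕ} (hm : m + u * b = ∑ i, a i)
    (hle : ∑ i ∈ R, ρ i ≤ m) : ∃ N, N * b + ∑ i ∈ R, ρ i = m := by
  have h1 : b ∣ ∑ i ∈ J \ R, a i := by
    rw [← sum_fiberwise_of_maps_to (g := grp) (t := (J \ R).image grp)
      fun i hi => mem_image_of_mem _ hi]
    exact dvd_sum fun g _ => h6 g
  have h2 : b ∣ ∑ i ∈ univ \ J, a i := dvd_sum fun i hi => by rw [hJ i (mem_sdiff.1 hi).2]
  have h3 := sum_sdiff (f := a) hRJ
  have h4 := sum_sdiff (f := a) (subset_univ J)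
  have h5 : ∑ i ∈ R, a i = ∑ i ∈ R, ρ i + (∑ i ∈ R, e i) * b := by
    rw [sum_mul, ← sum_add_distrib]
    exact sum_congr rfl fun i hi => (hρ i hi).symm
  obtain ⟨c, hc⟩ := Nat.exists_eq_add_of_le hle
  have h7 : b ∣ c + u * b := by
    have : c + u * b = ∑ i ∈ univ \ J, a i + ∑ i ∈ J \ R, a i + (∑ i ∈ R, e i) * b := by omega
    rw [this]
    exact dvd_add (dvd_add h2 h1) (dvd_mul_left _ _)
  obtain ⟨N, hN⟩ := (Nat.dvd_add_left (dvd_mul_left b u)).1 h7
  exact ⟨N, by rw [hc, hN]; ring⟩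

end OneAux

theorem one (b : ℕ) (hb : 0 < b) : ONE b := by
  obtain ⟨q, t1, hF⟩ := fill b (2 * (2 * b * b))
  obtain ⟨t2, hS⟩ := segs (b * b) (2 * b * b) 2 (by positivity)
  refine ⟨q * b, 3 * b, t2 + b * (t1 + 1), ?_⟩
  intro V _ _ G hT hnc k a ha _ hsum hq
  set J := (univ : Finset (Fin k)).filter fun i => a i ≠ b with hJd
  have hJ : ∀ i, i ∉ J → a i = b := fun i hi => by simpa [hJd] using hi
  have hJ3 : ∀ i ∈ J, 3 * b ≤ a i := fun i hi => (ha i).resolve_left (mem_filter.1 hi).2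
  obtain ⟨N, w, D, hw, hD, hDc, hN, hRT⟩ := hS V G
    (hT.mono (Subset.refl _) (by exact_mod_cast Nat.le_add_right _ _)) hnc
  obtain ⟨R, grp, pos, g1, g2, g3, g4, g5, g6⟩ := grp_exists b hb a J
  obtain ⟨x, x1, x2, x3⟩ := cuts_exist hb a (J \ R) grp pos g3 g4 g6
    fun i hi => hJ3 i (mem_sdiff.1 hi).1
  choose! dG hdG using x3
  have hρ : ∀ i, ∃ ρ e, i ∈ J → 0 < ρ ∧ ρ ≤ b ∧ ρ + e * b = a i := fun i =>
    ⟨(a i - 1) % b + 1, (a i - 1) / b, fun hi => ⟨Nat.succ_pos _, Nat.mod_lt _ hb, by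
      have h1 := Nat.mod_add_div' (a i - 1) b
      have h2 := hJ3 i hi
      omega⟩⟩
  choose ρ dR hρ using hρ
  have hA := card_sdiff_add_card_eq_card (subset_univ D)
  rw [card_univ, hDc] at hA
  obtain ⟨Na, hNa⟩ := OneAux.atoms a J R g1 hJ grp g6 ρ dR (fun i hi => (hρ i (g1 hi)).2.2)
    (m := (univ \ D).card) (u := N * (2 * b)) (by rw [hsum, ← hA]; ring) (by
      have h1 := OneAux.rt_card hRT hnc
      have h2 := sum_le_card_nsmul R ρ b fun i hi => (hρ i (g1 hi)).2.1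
      have h3 := Nat.mul_le_mul_right b g2
      rw [smul_eq_mul] at h2
      nlinarith)
  let sz : Fin Na ⊕ R → ℕ := Sum.elim (fun _ => b) fun i => ρ i
  have hsz : ∀ z, 0 < sz z ∧ sz z ≤ b := by
    rintro (z | i)
    · exact ⟨hb, le_rfl⟩
    · exact ⟨(hρ i (g1 i.2)).1, (hρ i (g1 i.2)).2.1⟩
  have hszs : ∑ z, sz z = (univ \ D).card := by
    rw [Fintype.sum_sum_type, ← hNa, ← sum_coe_sort R ρ]
    simp [sz]
  have hbb : b ≤ b * b := Nat.le_mul_self b
  obtain ⟨φ, c1, c2, c3, c4⟩ := cells_exist hb hw hD sz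
    (small_unit hRT (by exact_mod_cast Nat.mul_pos hb hb) (Subset.refl _) univ sz
      (fun z _ => (hsz z).1) (fun z _ => by exact_mod_cast (hsz z).2.trans hbb) hszs) hszs
  have hle : ∀ p, (univ.filter fun x => φ x = p).card ≤ b := by
    rintro (y | z)
    · exact (c3 y).le
    · exact (c2 z).trans_le (hsz z).2
  set n := Fintype.card V with hn
  set m := Fintype.card ((Fin N × Fin (2 * b)) ⊕ (Fin Na ⊕ R)) with hm
  have hnm : n ≤ m * b := by
    rw [hn, hm, ← card_univ, ← card_univ, card_eq_sum_card_fiberwise (f := φ) (t := univ)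
      fun _ _ => mem_coe.2 (mem_univ _)]
    exact sum_le_card_nsmul _ _ b fun p _ => hle p
  have hmn : m ≤ n := Fintype.card_le_of_surjective φ fun p => by
    obtain ⟨y, hy⟩ := (c1 p).1
    exact ⟨y, (mem_filter.1 hy).2⟩
  have hV : 2 * (t2 + b * (t1 + 1)) + 2 ≤ n := by exact_mod_cast hT.card_ge hnc
  let rt : Fin k → (Fin N × Fin (2 * b)) ⊕ (Fin Na ⊕ R) := fun i =>
    if h : i ∈ R then Sum.inr (Sum.inr ⟨i, h⟩) else φ hnc.choose
  have hrt : ∀ i (h : i ∈ R), rt i = Sum.inr (Sum.inr ⟨i, h⟩) := fun i h => dif_pos h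
  let d : Fin k → ℕ := fun i => if i ∈ R then dR i else dG i
  have hx : ∀ g j j', j ≤ j' → x g j ≤ x g j' := by
    intro g j j' hj
    rcases hj.eq_or_lt with rfl | hj
    · exact le_rfl
    · have h1 := (x1 g j).2
      have h2 := (x1 g j').1
      have h3 : (2 * j + 1) * b ≤ 2 * j' * b := Nat.mul_le_mul_right _ (by omega)
      omega
  have hd : ∀ i ∈ J, d i + 1 ≤ a i := by
    intro i hi
    by_cases h : i ∈ R
    · obtain ⟨h1, -, h2⟩ := hρ i hi
      have h3 : dR i * 1 ≤ dR i * b := Nat.mul_le_mul_left _ hb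
      simp only [d, if_pos h]
      omega
    · have h1 := hdG i (mem_sdiff.2 ⟨hi, h⟩)
      have h2 := (x1 (grp i) (pos i)).2
      have h3 := (x1 (grp i) (pos i + 1)).1
      have h4 : (2 * pos i + 1) * b ≤ 2 * (pos i + 1) * b := Nat.mul_le_mul_right _ (by omega)
      have h5 : dG i * 1 ≤ dG i * b := Nat.mul_le_mul_left _ hb
      simp only [d, if_neg h]
      omega
  obtain ⟨un, X, f1, f2, f3⟩ := hF _ (AS.quo G φ)
    (AS.quo_rt hb (hT.mono (Subset.refl _) (by
      have : b * t1 ≤ t2 + b * (t1 + 1) := by nlinarith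
      exact_mod_cast this)) (fun p => (c1 p).1) hle)
    (by
      rw [← hm]
      refine lt_of_mul_lt_mul_right (a := b) ?_ (Nat.zero_le _)
      nlinarith)
    (Fin k) (Fin N) J R rt grp pos d (fun u => univ.image fun y => Sum.inl (u, y))
    (fun u j => Sum.inl (u, ⟨(2 * j + 1) % (2 * b), Nat.mod_lt _ (by omega)⟩)) g2 g3 g4
    (fun u u' hne => disjoint_left.2 fun p hp hp' => by
      obtain ⟨y, -, rfl⟩ := mem_image.1 hp
      obtain ⟨y', -, e⟩ := mem_image.1 hp'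
      exact hne (congrArg Prod.fst (Sum.inl.inj e)).symm)
    (fun j _ u u' e => congrArg Prod.fst (Sum.inl.inj e))
    (by
      rw [← hm, Fintype.card_fin, mul_assoc, mul_comm _ N]
      omega)
    (by
      rw [← hm]
      refine Nat.le_of_mul_le_mul_right (c := b) ?_ hb
      have h1 := Nat.mul_le_mul_left (q * b) (sum_le_sum hd)
      nlinarith)
  let P : Fin k → Finset V := fun i =>
    if i ∈ R then univ.filter fun y => φ y = rt i
    else (range (x (grp i) (pos i + 1) - x (grp i) (pos i))).image fun y =>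
      w (un (grp i)) (x (grp i) (pos i) + y)
  have hPR : ∀ i ∈ R, ∀ y, y ∈ P i ↔ φ y = rt i := fun i h y => by simp [P, h]
  have hPG : ∀ i, i ∉ R → ∀ y, y ∈ P i ↔
      ∃ z, x (grp i) (pos i) ≤ z ∧ z < x (grp i) (pos i + 1) ∧ y = w (un (grp i)) z := by
    intro i h y
    simp only [P, if_neg h, mem_image, mem_range]
    constructor
    · rintro ⟨z, hz, rfl⟩
      exact ⟨_, Nat.le_add_right _ _, by omega, rfl⟩
    · rintro ⟨z, h1, h2, rfl⟩
      exact ⟨z - x (grp i) (pos i), by omega, by rw [Nat.add_sub_cancel' h1]⟩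
  have htop : ∀ i ∈ J \ R, x (grp i) (pos i + 1) ≤ 2 * b * b := fun i hi =>
    (hx _ _ _ (g3 i hi)).trans (x2 _).2.le
  have hwi : ∀ (u u' : Fin N) z z', z < 2 * b * b → z' < 2 * b * b → w u z = w u' z' →
      u = u' ∧ z = z' := fun u u' z z' h h' e =>
    (hw.inj _ (mem_range.2 u.2) _ (mem_range.2 u'.2) _ (by omega) _ (by omega) e).imp_left Fin.ext
  have hPφ : ∀ i ∈ J \ R, ∀ y ∈ P i, ∃ s, φ y = Sum.inl (un (grp i), s) := by
    intro i hi y hy
    obtain ⟨z, -, h2, rfl⟩ := (hPG i (mem_sdiff.1 hi).2 y).1 hy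
    have h3 := htop i hi
    exact ⟨⟨z / b, (Nat.div_lt_iff_lt_mul hb).2 (by omega)⟩, (c4 _ _ _).2
      ⟨z % b, Nat.mod_lt _ hb, by simp only [Nat.div_add_mod']⟩⟩
  refine OneAux.asm c1 a hb hsum J hJ P X _ (fun i hi => ⟨?_, ?_, (f2 i hi).2.1, ?_⟩) ?_ f3 ?_ ?_ ?_
  · by_cases h : i ∈ R
    · simp only [P, if_pos h]
      exact c1 _
    · have h1 := htop i (mem_sdiff.2 ⟨hi, h⟩)
      have h2 := (x1 (grp i) (pos i)).2
      have h3 := (x1 (grp i) (pos i + 1)).1
      have h4 : (2 * pos i + 1) * b ≤ 2 * (pos i + 1) * b := Nat.mul_le_mul_right _ (by omega)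
      simp only [P, if_neg h]
      exact conn_run (fun y => w (un (grp i)) (x (grp i) (pos i) + y)) _ (by omega) fun y hy =>
        hw.adj _ (mem_range.2 (un (grp i)).2) _ (by omega)
  · intro y hy
    by_cases h : i ∈ R
    · rw [if_pos h] at hy
      exact (hPR i h y).2 hy
    · rw [if_neg h] at hy
      obtain ⟨s, hs, e⟩ := (c4 _ _ _).1 hy
      have h1 := g3 i (mem_sdiff.2 ⟨hi, h⟩)
      have h2 := (x1 (grp i) (pos i)).2
      have h3 := (x1 (grp i) (pos i + 1)).1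
      have h4 : 2 * (pos i + 1) * b = (2 * pos i + 1) * b + b := by ring
      simp only [Nat.mod_eq_of_lt (show 2 * pos i + 1 < 2 * b by omega)] at e
      exact (hPG i h y).2 ⟨_, by omega, by omega, e⟩
  · rw [(f2 i hi).1]
    by_cases h : i ∈ R
    · simp only [P, d, if_pos h, hrt i h, c2]
      exact (hρ i hi).2.2
    · have hi' := mem_sdiff.2 ⟨hi, h⟩
      have h1 := htop i hi'
      have h2 := hdG i hi'
      have h3 := hx (grp i) (pos i) (pos i + 1) (Nat.le_succ _)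
      simp only [P, d, if_neg h]
      rw [card_image_of_injOn fun y hy y' hy' e => ?_, card_range]
      · omega
      · have a1 := mem_range.1 (mem_coe.1 hy)
        have a2 := mem_range.1 (mem_coe.1 hy')
        have := (hwi _ _ _ _ (by omega) (by omega) e).2
        omega
  · intro i hi i' hi' hne
    refine disjoint_left.2 fun y hy hy' => ?_
    by_cases h : i ∈ R <;> by_cases h' : i' ∈ R
    · have e := ((hPR i h y).1 hy).symm.trans ((hPR i' h' y).1 hy')
      rw [hrt i h, hrt i' h'] at e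
      exact hne (congrArg Subtype.val (Sum.inr.inj (Sum.inr.inj e)))
    · obtain ⟨s, e⟩ := hPφ i' (mem_sdiff.2 ⟨hi', h'⟩) y hy'
      rw [(hPR i h y).1 hy, hrt i h] at e
      exact Sum.inr_ne_inl e
    · obtain ⟨s, e⟩ := hPφ i (mem_sdiff.2 ⟨hi, h⟩) y hy
      rw [(hPR i' h' y).1 hy', hrt i' h'] at e
      exact Sum.inr_ne_inl e
    · have a1 := mem_sdiff.2 ⟨hi, h⟩
      have a2 := mem_sdiff.2 ⟨hi', h'⟩
      obtain ⟨z, z1, z2, e⟩ := (hPG i h y).1 hy
      obtain ⟨z', z3, z4, e'⟩ := (hPG i' h' y).1 hy'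
      have a3 := htop i a1
      have a4 := htop i' a2
      obtain ⟨e1, e2⟩ := hwi _ _ _ _ (by omega) (by omega) (e.symm.trans e')
      have e3 := f1 i a1 i' a2 e1
      refine hne (g4 i a1 i' a2 e3 ?_)
      rw [← e3] at z3 z4
      by_contra hp
      rcases Nat.lt_or_gt_of_ne hp with hp | hp
      · have := hx (grp i) (pos i + 1) (pos i') hp
        omega
      · have := hx (grp i) (pos i' + 1) (pos i) hp
        omega
  · intro i hi i' hi' y hy hX
    obtain ⟨a1, a2⟩ := (f2 i' hi').2.2 _ hX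
    by_cases h : i ∈ R
    · exact a1 i h ((hPR i h y).1 hy).symm
    · obtain ⟨s, e⟩ := hPφ i (mem_sdiff.2 ⟨hi, h⟩) y hy
      exact a2 i (mem_sdiff.2 ⟨hi, h⟩) (mem_image.2 ⟨s, mem_univ _, e.symm⟩)
  · intro i hi y hy y' e
    by_cases h : i ∈ R
    · exact ⟨i, hi, (hPR i h y').2 (e ▸ (hPR i h y).1 hy)⟩
    · have hi' := mem_sdiff.2 ⟨hi, h⟩
      obtain ⟨s, e'⟩ := hPφ i hi' y hy
      obtain ⟨r, hr, e''⟩ := (c4 _ _ _).1 (e.symm.trans e')
      have h1 : s * b + r < x (grp i) b := by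
        have := Nat.mul_le_mul_right b (Nat.succ_le_of_lt s.2)
        rw [Nat.succ_mul] at this
        rw [(x2 _).2]
        omega
      have h2 : ∃ j, s * b + r < x (grp i) j := ⟨b, h1⟩
      have h3 := Nat.find_spec h2
      have h4 : Nat.find h2 ≤ b := Nat.find_min' h2 h1
      have h5 : Nat.find h2 ≠ 0 := fun e0 => by
        rw [e0, (x2 _).1] at h3
        omega
      obtain ⟨j, hj⟩ := Nat.exists_eq_succ_of_ne_zero h5
      have h6 := Nat.find_min h2 (show j < Nat.find h2 by omega)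
      rw [hj] at h3
      obtain ⟨i', hi'', e1, e2⟩ := g5 i hi' j (by omega)
      refine ⟨i', (mem_sdiff.1 hi'').1, (hPG i' (mem_sdiff.1 hi'').2 y').2 ⟨s * b + r, ?_⟩⟩
      rw [e1, e2]
      exact ⟨not_lt.1 h6, h3, e''⟩
  · intro y hy
    rcases e : φ y with s | s | i
    · exact c3 s
    · exact c2 (Sum.inl s)
    · exact absurd ((hPR i i.2 y).2 (e.trans (hrt i i.2).symm)) (hy i (g1 i.2))

end Pool.Agent.Lib.MP_f20cd2_co.EX
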