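import Pool.Agent.Lib.MP_f20cd2_co.EX.Big
import Pool.Agent.Lib.MP_f20cd2_co.EX.One
import Pool.Agent.Lib.MP_f20cd2_co.EX.Final

/-!
Sufficiently tough graphs are arbitrarily partitionable.
-/

set_option autoImplicit false

namespace Pool.Agent.Lib.MP_f20cd2_co.EX

theorem big_def : BIG := by
  obtain ⟨K, t, -, h⟩ := big_fin
  exact ⟨K, t, fun V _ _ G hT _ k a ha hs => h V G hT k a ha hs⟩

theorem tough_ap : ∃ c : ℝ, 0 < c ∧ ∀ (V : Type) [Finite V] (G : SimpleGraph V),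
    (∀ S : Set V, 1 < Nat.card (G.induce Sᶜ).ConnectedComponent →
      c * Nat.card (G.induce Sᶜ).ConnectedComponent ≤ S.ncard) →
    ∀ (k : ℕ) (a : Fin k → ℕ), (∀ i, 0 < a i) → ∑ i, a i = Nat.card V →
      ∃ f : V → Fin k, ∀ i, (f ⁻¹' {i}).ncard = a i ∧ (G.induce (f ⁻¹' {i})).Connected := by
  obtain ⟨t, ht⟩ := final_of big_def one
  refine ⟨(t + 1 : ℕ), by positivity, fun V _ G hG => ht V G fun S hS => ?_⟩
  have h1 : (t + 1) * Nat.card (G.induce Sᶜ).ConnectedComponent ≤ S.ncard := by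
    exact_mod_cast hG S hS
  exact le_trans (Nat.mul_le_mul_right _ (Nat.le_succ t)) h1

end Pool.Agent.Lib.MP_f20cd2_co.EX
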