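import Pool.Agent.Lib.MP_f20cd2_co.EX.Round

/-!
The numerical core of the exact cutting of two paths.
-/

set_option autoImplicit false
set_option linter.unusedSectionVars false

namespace Pool.Agent.Lib.MP_f20cd2_co.EX

open Finset
open scoped Classical

namespace NumAux

/-- The total weight of the positions below `x`. -/
def pre (f : ℕ → ℕ) (x : ℕ) : ℕ := ∑ y ∈ range x, f y

lemma pre_succ (f : ℕ → ℕ) (x : ℕ) : pre f (x + 1) = pre f x + f x := sum_range_succ _ _

lemma pre_le {f : ℕ → ℕ} {B c x : ℕ} (hc : c ≤ x) (h : ∀ y, c ≤ y → y < x → f y ≤ B) :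
    pre f x ≤ pre f c + B * (x - c) := by
  induction x, hc using Nat.le_induction with
  | base => simp
  | succ x hx ih =>
    have h1 := ih fun y h1 h2 => h y h1 (by omega)
    have h2 := h x hx (by omega)
    rw [pre_succ, show x + 1 - c = (x - c) + 1 by omega, mul_add, mul_one]
    omega

lemma pre_mono {f : ℕ → ℕ} {c x : ℕ} (hc : c ≤ x) : pre f c ≤ pre f x :=
  sum_le_sum_of_subset (range_mono hc)

lemma pre_lt {f : ℕ → ℕ} {c x : ℕ} (hc : c < x) (h : 1 ≤ f c) : pre f c < pre f x := by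
  have h1 := pre_mono (f := f) (show c + 1 ≤ x from hc)
  rw [pre_succ] at h1
  omega

lemma pre_one {f : ℕ → ℕ} {c x : ℕ} (hc : c ≤ x) (h : ∀ y, c ≤ y → y < x → f y = 1) :
    pre f x + c = pre f c + x := by
  induction x, hc using Nat.le_induction with
  | base => rfl
  | succ x hx ih =>
    have h1 := ih fun y h1 h2 => h y h1 (by omega)
    have h2 := h x hx (by omega)
    rw [pre_succ]
    omega

lemma last_le (f : ℕ → ℕ) (T N : ℕ) : ∃ x, x ≤ N ∧ pre f x ≤ T ∧
    (∀ c ≤ N, pre f c ≤ T → c ≤ x) ∧ (x < N → T < pre f x + f x) := by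
  refine ⟨Nat.findGreatest (fun x => pre f x ≤ T) N, Nat.findGreatest_le N,
    Nat.findGreatest_spec (P := fun x => pre f x ≤ T) (Nat.zero_le N) (by simp [pre]),
    fun c h1 h2 => Nat.le_findGreatest h1 h2, fun h => ?_⟩
  have := Nat.findGreatest_is_greatest (P := fun x => pre f x ≤ T) (Nat.lt_succ_self _) h
  rw [pre_succ] at this
  exact not_le.1 this

variable {σ : Type} [DecidableEq σ]

/-- A free zone around `x`. -/
def Zone (Λ : Finset ℕ) (u : σ → ℕ) (U : Finset σ) (L' N2 x : ℕ) : Prop :=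
  L' ≤ x ∧ x + L' ≤ N2 ∧ ∀ y, x ≤ y + L' → y < x + L' → y ∉ Λ ∧ ∀ s ∈ U, u s ≠ y

/-- The weight below `x` with the items of `U`. -/
def PU (β : ℕ → ℕ) (u : σ → ℕ) (U : Finset σ) (x : ℕ) : ℕ :=
  pre β x + (U.filter fun s => u s < x).card

lemma sweep_step {β : ℕ → ℕ} {Λ : Finset ℕ} {u : σ → ℕ} {S : Finset σ} {N2 L' B M2 Q K : ℕ}
    (hM : 0 < M2) (hβ : ∀ y < N2, β y ≤ B)
    (hΛ : ∀ y ∈ Λ, ∀ y' ∈ Λ, y < y' → y + 4 * L' < y')
    (hS : ∀ m, (m + 1) * M2 ≤ N2 → Q ≤ (S.filter fun s => m * M2 ≤ u s ∧ u s < (m + 1) * M2).card)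
    (hQ : B * (3 * L' + 1) ≤ Q) (hK : B * (5 * L' + 2 * M2 + 1) < K)
    {U : Finset σ} {c a T : ℕ} (hc : c ≤ N2) (hU : ∀ s ∈ U, u s < c) (ha : PU β u U c = a)
    (hT : a + K ≤ T) (hT2 : T ≤ PU β u U N2) :
    ∃ W ⊆ S, ∃ x, (∀ s ∈ W, c + L' ≤ u s ∧ u s < x) ∧ c ≤ x ∧ Zone Λ u (U ∪ W) L' N2 x ∧
      PU β u (U ∪ W) x = T := by
  have e1 : ∀ z, c ≤ z → PU β u U z = pre β z + U.card := fun z hz => by
    unfold PU
    rw [filter_true_of_mem fun s hs => (hU s hs).trans_le hz]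
  rw [e1 c le_rfl] at ha
  rw [e1 N2 hc] at hT2
  obtain ⟨x0, h1, h2, h3, h4⟩ := last_le β (T - U.card) N2
  have h5 : c ≤ x0 := h3 c hc (by omega)
  have h6 : T - U.card ≤ pre β x0 + B := by
    rcases h1.eq_or_lt with e | e
    · rw [e]
      omega
    · have := h4 e
      have := hβ x0 e
      omega
  have h7 := pre_le (B := B) h5 fun y _ hy => hβ y (by omega)
  have h8 : c + 5 * L' + 2 * M2 ≤ x0 := by
    by_contra hn
    have h9 : B * (x0 - c) ≤ B * (5 * L' + 2 * M2) := Nat.mul_le_mul_left _ (by omega)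
    rw [mul_add B _ 1, mul_one] at hK
    omega
  obtain ⟨x, hx1, hx2, hx3⟩ : ∃ x, x0 ≤ x + 3 * L' ∧ x + L' ≤ x0 ∧
      ∀ y, x ≤ y + L' → y < x + L' → y ∉ Λ := by
    by_cases hz : ∀ y, x0 - L' ≤ y + L' → y < x0 - L' + L' → y ∉ Λ
    · exact ⟨x0 - L', by omega, by omega, hz⟩
    · push Not at hz
      obtain ⟨y', g1, g2, g3⟩ := hz
      refine ⟨x0 - 3 * L', by omega, by omega, fun y g4 g5 g6 => ?_⟩
      have := hΛ y g6 y' g3 (by omega)
      omega
  have h10 := pre_le (f := β) (B := B) (c := x) (x := x0) (by omega) fun y _ hy => hβ y (by omega)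
  have h11 : B * (x0 - x) ≤ B * (3 * L') := Nat.mul_le_mul_left _ (by omega)
  have h12 := pre_mono (f := β) (show x ≤ x0 by omega)
  rw [mul_add B _ 1, mul_one] at hQ
  set m := (c + L') / M2 + 1 with hm
  have h13 : c + L' ≤ m * M2 ∧ (m + 1) * M2 ≤ c + L' + 2 * M2 := by
    have g1 := Nat.div_add_mod (c + L') M2
    have g2 := Nat.mod_lt (c + L') hM
    rw [hm, add_mul, add_mul, add_mul, mul_comm ((c + L') / M2) M2]
    omega
  obtain ⟨W, hW1, hW2⟩ := exists_subset_card_eq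
    (n := T - U.card - pre β x) (le_trans (by omega) (hS m (by omega)))
  have hW : ∀ s ∈ W, c + L' ≤ u s ∧ u s + L' < x := fun s hs => by
    have := (mem_filter.1 (hW1 hs)).2
    omega
  refine ⟨W, hW1.trans (filter_subset _ _), x, fun s hs => by have := hW s hs; omega, by omega,
    ⟨by omega, by omega, fun y g1 g2 => ⟨hx3 y g1 g2, fun s hs => ?_⟩⟩, ?_⟩
  · rcases mem_union.1 hs with hs | hs
    · have := hU s hs
      omega
    · have := hW s hs
      omega
  · unfold PU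
    rw [filter_true_of_mem, card_union_of_disjoint, hW2]
    · omega
    · rw [disjoint_left]
      intro s g1 g2
      have := hU s g1
      have := hW s g2
      omega
    · intro s hs
      rcases mem_union.1 hs with hs | hs
      · have := hU s hs
        omega
      · have := hW s hs
        omega

lemma A_mono {A : ℕ → ℕ} {K k : ℕ} (hA : ∀ i < k, A i + K ≤ A (i + 1)) {i j : ℕ} (hij : i < j)
    (hj : j ≤ k) : A i + K ≤ A j := by
  induction j, hij using Nat.le_induction with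
  | base => exact hA i hj
  | succ j h ih =>
    have := ih (by omega)
    have := hA j hj
    omega

lemma sweep {β : ℕ → ℕ} {Λ : Finset ℕ} {u : σ → ℕ} {S : Finset σ} {N2 L' B M2 Q K : ℕ}
    (hM : 0 < M2) (hβ : ∀ y < N2, β y ≤ B)
    (hΛ : ∀ y ∈ Λ, ∀ y' ∈ Λ, y < y' → y + 4 * L' < y')
    (hS : ∀ m, (m + 1) * M2 ≤ N2 → Q ≤ (S.filter fun s => m * M2 ≤ u s ∧ u s < (m + 1) * M2).card)
    (hQ : B * (3 * L' + 1) ≤ Q) (hK : B * (5 * L' + 2 * M2 + 1) < K)
    {A : ℕ → ℕ} {k : ℕ} (h0 : A 0 = 0) (hA : ∀ i < k, A i + K ≤ A (i + 1)) (n : ℕ) (hn : n ≤ k) :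
    ∃ U ⊆ S, (PU β u U N2 < A n ∨ ∃ c ≤ N2, (∀ s ∈ U, u s < c) ∧ PU β u U c = A n ∧
        ∀ i, 1 ≤ i → i ≤ n → ∃ x ≤ c, Zone Λ u U L' N2 x ∧ PU β u U x = A i) ∧
      ∀ i, 1 ≤ i → i ≤ n → PU β u U N2 < A i ∨ ∃ x, Zone Λ u U L' N2 x ∧ PU β u U x = A i := by
  induction n with
  | zero =>
    refine ⟨∅, empty_subset _, Or.inr ⟨0, Nat.zero_le _, by simp, by simp [PU, pre, h0],
      fun i h1 h2 => by omega⟩, fun i h1 h2 => by omega⟩
  | succ n ih =>
    obtain ⟨U, hU, h1, h2⟩ := ih (by omega)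
    have h3 := hA n hn
    by_cases hT : PU β u U N2 < A (n + 1)
    · refine ⟨U, hU, Or.inl hT, fun i g1 g2 => ?_⟩
      rcases g2.eq_or_lt with rfl | g2
      · exact Or.inl hT
      · exact h2 i g1 (by omega)
    · obtain ⟨c, c1, c2, c3, c4⟩ := h1.resolve_left (by omega)
      obtain ⟨W, w1, x, w2, w3, w4, w5⟩ := sweep_step hM hβ hΛ hS hQ hK c1 c2 c3 h3 (not_lt.1 hT)
      have key : ∀ i, 1 ≤ i → i ≤ n + 1 →
          ∃ x' ≤ x, Zone Λ u (U ∪ W) L' N2 x' ∧ PU β u (U ∪ W) x' = A i := by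
        intro i g1 g2
        rcases g2.eq_or_lt with rfl | g2
        · exact ⟨x, le_rfl, w4, w5⟩
        · obtain ⟨x', g3, ⟨z1, z2, z3⟩, g5⟩ := c4 i g1 (by omega)
          refine ⟨x', g3.trans w3, ⟨z1, z2, fun y y1 y2 => ⟨(z3 y y1 y2).1, fun s hs => ?_⟩⟩, ?_⟩
          · rcases mem_union.1 hs with hs | hs
            · exact (z3 y y1 y2).2 s hs
            · have := w2 s hs
              omega
          · rw [← g5]
            unfold PU
            rw [filter_union, filter_false_of_mem (s := W), union_empty]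
            intro s hs
            have := w2 s hs
            omega
      refine ⟨U ∪ W, union_subset hU w1, Or.inr ⟨x, by have := w4.2.1; omega, fun s hs => ?_, w5,
        key⟩, fun i g1 g2 => ?_⟩
      · rcases mem_union.1 hs with hs | hs
        · exact (c2 s hs).trans_le w3
        · exact (w2 s hs).2
      · obtain ⟨x', -, g3⟩ := key i g1 g2
        exact Or.inr ⟨x', g3⟩

lemma cuts {ω ld : ℕ → ℕ} {Rt : Finset ℕ} {N N2 L M K : ℕ} (hN : N2 ≤ N)
    (hω : ∀ y, N2 ≤ y → y < N → ω y ≤ L + 1) (hRt : ∀ p ∈ Rt, N2 ≤ p ∧ p < N ∧ ld p < N2)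
    (hM : ∀ c, N2 ≤ c → c + M ≤ N → ∃ p ∈ Rt, c ≤ p ∧ p < c + M)
    (hK : (L + 1) * (2 * M + 2) ≤ K) {A : ℕ → ℕ} {k : ℕ} (h0 : A 0 = 0)
    (hA : ∀ i < k, A i + K ≤ A (i + 1)) (hk : A k = pre ω N)
    (hz : ∀ i, 1 ≤ i → i ≤ k → pre ω N2 ≤ A i ∨ ∃ x, (L + 1) ^ 2 ≤ x ∧ x + (L + 1) ^ 2 ≤ N2 ∧
      (∀ p ∈ Rt, ld p + (L + 1) ^ 2 < x ∨ x + (L + 1) ^ 2 ≤ ld p) ∧
      ∀ z, x ≤ z + (L + 1) ^ 2 → z ≤ x + (L + 1) ^ 2 → pre ω z + x = A i + z) :
    ∃ ε : ℕ → ℤ, (∀ p, |ε p| ≤ L) ∧ ∀ i ≤ k, ∃ x ≤ N,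
      (pre ω x : ℤ) + ∑ p ∈ Rt, (if p < x then ε p else 0) -
        ∑ p ∈ Rt, (if ld p < x then ε p else 0) = A i := by
  choose y y1 y2 y3 y4 using fun j => last_le ω (A j) N
  obtain ⟨J, hJ⟩ : ∃ J : Finset ℕ, ∀ j, j ∈ J ↔ j < k ∧ pre ω N2 ≤ A j :=
    ⟨(range k).filter fun j => pre ω N2 ≤ A j, fun j => by rw [mem_filter, mem_range]⟩
  have hJ1 : ∀ j ∈ J, j < k ∧ pre ω N2 ≤ A j := fun j hj => (hJ j).1 hj
  have hy2 : ∀ j ∈ J, N2 ≤ y j := fun j hj => y3 j N2 hN (hJ1 j hj).2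
  have hy3 : ∀ j ∈ J, y j + 2 * M + 2 ≤ N := by
    intro j hj
    have g1 := A_mono hA (hJ1 j hj).1 le_rfl
    have g2 := pre_le (f := ω) (B := L + 1) (y1 j) fun z z1 z2 => hω z ((hy2 j hj).trans z1) z2
    have g3 := y2 j
    have g4 := y1 j
    by_contra hn
    have g5 : (L + 1) * (N - y j) < (L + 1) * (2 * M + 2) :=
      Nat.mul_lt_mul_of_pos_left (by omega) (by omega)
    omega
  have hy4 : ∀ j ∈ J, ∀ j' ∈ J, j < j' → y j + 2 * M + 2 ≤ y j' := by
    intro j hj j' hj' h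
    have g1 := A_mono hA h (hJ1 j' hj').1.le
    have g0 := hy3 j' hj'
    have g6 : y j ≤ y j' := y3 j' _ (y1 j) (by have := y2 j; omega)
    have g2 := pre_le (f := ω) (B := L + 1) (c := y j) (x := y j' + 1) (by omega)
      fun z z1 z2 => hω z ((hy2 j hj).trans z1) (by omega)
    have g3 := y2 j
    have g4 := y4 j' (by omega)
    rw [pre_succ] at g2
    by_contra hn
    have g5 : (L + 1) * (y j' + 1 - y j) ≤ (L + 1) * (2 * M + 2) :=
      Nat.mul_le_mul_left _ (by omega)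
    omega
  have hr : ∀ j, ∃ p, j ∈ J → p ∈ Rt ∧ y j < p ∧ p ≤ y j + M := fun j => by
    by_cases hj : j ∈ J
    · obtain ⟨p, p1, p2, p3⟩ := hM (y j + 1) (by have := hy2 j hj; omega)
        (by have := hy3 j hj; omega)
      exact ⟨p, fun _ => ⟨p1, by omega, by omega⟩⟩
    · exact ⟨0, fun h => absurd h hj⟩
  have hl : ∀ j, ∃ p, j ∈ J → N2 + M ≤ y j → p ∈ Rt ∧ y j ≤ p + M ∧ p < y j := fun j => by
    by_cases hj : N2 + M ≤ y j
    · obtain ⟨p, p1, p2, p3⟩ := hM (y j - M) (by omega) (by have := y1 j; omega)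
      exact ⟨p, fun _ _ => ⟨p1, by omega, by omega⟩⟩
    · exact ⟨0, fun _ h => absurd h hj⟩
  choose pr hpr using hr
  choose pl hpl using hl
  obtain ⟨e, he, hF⟩ := round J (fun j => if N2 + M ≤ y j then ld (pl j) else N2)
    (fun j => ld (pr j)) (fun j => ω (y j)) (fun j => A j - pre ω (y j)) (L + 1) fun j hj => by
      have g1 := y4 j (by have := hy3 j hj; omega)
      have g2 := y2 j
      exact ⟨by omega, hω _ (hy2 j hj) (by have := hy3 j hj; omega)⟩
  have heL : ∀ j ∈ J, |e j| ≤ L := by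
    intro j hj
    have g1 := y4 j (by have := hy3 j hj; omega)
    have g2 := y2 j
    have g3 := hω _ (hy2 j hj) (by have := hy3 j hj; omega)
    rw [abs_le]
    rcases he j hj with g | ⟨g, g'⟩ <;> rw [g] <;> constructor <;> omega
  let ε : ℕ → ℤ := fun p => ∑ j ∈ J, ((if pr j = p then e j else 0) -
    (if N2 + M ≤ y j ∧ pl j = p then e j else 0))
  have hε : ∀ φ : ℕ → Prop, ∀ [DecidablePred φ], ∑ p ∈ Rt, (if φ p then ε p else 0) =
      ∑ j ∈ J, ((if φ (pr j) then e j else 0) -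
        (if N2 + M ≤ y j ∧ φ (pl j) then e j else 0)) := by
    intro φ _
    have g1 : ∀ p, (if φ p then ε p else 0) = ∑ j ∈ J, ((if pr j = p then
        (if φ p then e j else 0) else 0) -
        (if pl j = p then (if N2 + M ≤ y j ∧ φ p then e j else 0) else 0)) := by
      intro p
      by_cases hp : φ p
      · rw [if_pos hp]
        refine sum_congr rfl fun j _ => ?_
        by_cases a1 : N2 + M ≤ y j <;> by_cases a2 : pl j = p <;> simp [hp, a1, a2]
      · simp [hp]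
    rw [sum_congr rfl fun p _ => g1 p, sum_comm]
    refine sum_congr rfl fun j hj => ?_
    rw [sum_sub_distrib, sum_ite_eq, sum_ite_eq, if_pos (hpr j hj).1]
    by_cases a1 : N2 + M ≤ y j
    · rw [if_pos (hpl j hj a1).1]
    · simp [a1]
  refine ⟨ε, fun p => ?_, fun i hi => ?_⟩
  · by_cases h1 : ∃ j ∈ J, pr j = p ∨ (N2 + M ≤ y j ∧ pl j = p)
    · obtain ⟨j, hj, h1⟩ := h1
      have h2 : y j ≤ p + M ∧ p ≤ y j + M := by
        rcases h1 with h1 | ⟨h1, h2⟩
        · have := hpr j hj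
          omega
        · have := hpl j hj h1
          omega
      simp only [ε]
      rw [sum_eq_single_of_mem j hj]
      · have h3 := heL j hj
        split_ifs <;> simp [h3]
      · intro j' hj' hne
        have h3 : p + M < y j' ∨ y j' + M < p := by
          rcases lt_or_gt_of_ne hne with h | h
          · have := hy4 j' hj' j hj h
            omega
          · have := hy4 j hj j' hj' h
            omega
        rw [if_neg, if_neg, sub_self]
        · rintro ⟨a1, a2⟩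
          have := hpl j' hj' a1
          omega
        · intro a2
          have := hpr j' hj'
          omega
    · push Not at h1
      simp only [ε]
      rw [sum_eq_zero]
      · simp
      · intro j hj
        rw [if_neg (h1 j hj).1, if_neg fun a => (h1 j hj).2 a.1 a.2, sub_self]
  rcases hi.eq_or_lt with rfl | hi
  · refine ⟨N, le_rfl, ?_⟩
    rw [sum_congr rfl fun p hp => if_pos (hRt p hp).2.1,
      sum_congr rfl fun p hp => if_pos ((hRt p hp).2.2.trans_le hN), hk]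
    ring
  rcases Nat.eq_zero_or_pos i with rfl | hi0
  · exact ⟨0, Nat.zero_le _, by simp [pre, h0]⟩
  rcases hz i hi0 hi.le with g | ⟨x, x1, x2, x3, x4⟩
  · have hiJ : i ∈ J := (hJ i).2 ⟨hi, g⟩
    obtain ⟨x, x1, x2, x3⟩ : ∃ x, y i ≤ x ∧ x ≤ y i + 1 ∧ (pre ω x : ℤ) = A i + e i := by
      have g2 := y2 i
      rcases he i hiJ with g1 | ⟨g1, -⟩
      · exact ⟨y i, le_rfl, by omega, by rw [g1]; omega⟩
      · exact ⟨y i + 1, by omega, le_rfl, by rw [g1, pre_succ]; omega⟩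
    have g3 := hy3 i hiJ
    have g4 := hy2 i hiJ
    refine ⟨x, by omega, ?_⟩
    rw [hε fun p => p < x, hε fun p => ld p < x, x3, add_sub_assoc, ← sum_sub_distrib,
      sum_eq_single_of_mem i hiJ]
    · have a1 := hpr i hiJ
      have a2 := hRt _ a1.1
      rw [if_neg (by omega), if_pos (show ld (pr i) < x by omega)]
      by_cases a3 : N2 + M ≤ y i
      · have a4 := hpl i hiJ a3
        have a5 := hRt _ a4.1
        rw [if_pos ⟨a3, by omega⟩, if_pos ⟨a3, by omega⟩]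
        ring
      · rw [if_neg fun a => a3 a.1, if_neg fun a => a3 a.1]
        ring
    · intro j hj hne
      have a1 := hpr j hj
      have a2 := hRt _ a1.1
      rw [if_pos (show ld (pr j) < x by omega)]
      rcases lt_or_gt_of_ne hne with h | h
      · have a6 := hy4 j hj i hiJ h
        rw [if_pos (show pr j < x by omega)]
        by_cases a3 : N2 + M ≤ y j
        · have a4 := hpl j hj a3
          have a5 := hRt _ a4.1
          rw [if_pos ⟨a3, by omega⟩, if_pos ⟨a3, by omega⟩, sub_self]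
        · rw [if_neg fun a => a3 a.1, if_neg fun a => a3 a.1, sub_self]
      · have a6 := hy4 i hiJ j hj h
        have a3 : N2 + M ≤ y j := by omega
        have a4 := hpl j hj a3
        have a5 := hRt _ a4.1
        rw [if_neg (by omega), if_neg (by omega), if_pos ⟨a3, by omega⟩]
        ring
  · let Φ : ℕ → ℤ := fun z => ∑ p ∈ Rt, (if ld p < z then ε p else 0)
    have b1 : |Φ x| ≤ ((L + 1) ^ 2 : ℕ) := by
      have b2 := hF x
      rw [sum_filter, sum_filter, abs_sub_comm, ← sum_sub_distrib] at b2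
      simp only [Φ]
      rw [hε fun p => ld p < x]
      refine le_of_eq_of_le (congrArg _ (sum_congr rfl fun j _ => ?_))
        (b2.trans (by push_cast; exact le_rfl))
      by_cases a3 : N2 + M ≤ y j
      · simp [a3]
      · have a4 : ¬ N2 < x := by omega
        simp [a3, a4]
    rw [abs_le] at b1
    obtain ⟨z, hz1⟩ : ∃ z : ℕ, (z : ℤ) = x + Φ x := Int.eq_ofNat_of_zero_le (by omega) |>.imp
      fun _ h => h.symm
    have b3 := x4 z (by omega) (by omega)
    refine ⟨z, by omega, ?_⟩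
    have b4 : ∑ p ∈ Rt, (if ld p < z then ε p else 0) = Φ x := by
      refine sum_congr rfl fun p hp => ?_
      have := x3 p hp
      exact if_congr (by omega) rfl rfl
    rw [b4, sum_eq_zero fun p hp => if_neg (by have := hRt p hp; omega)]
    omega

end NumAux

variable {σ : Type} [DecidableEq σ]

/-- The weight of the position `y`: the items of `U` sit at `u`, the other items of `S` at `v`;
the bridge at the root `p` leaves `δ p` vertices at `p` and the others at `ld p`. -/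
def wt (b : ℕ → ℕ) (S : Finset σ) (u v : σ → ℕ) (Rt : Finset ℕ) (ld : ℕ → ℕ) (L : ℕ)
    (U : Finset σ) (δ : ℕ → ℕ) (y : ℕ) : ℕ :=
  b y + (U.filter fun s => u s = y).card + ((S \ U).filter fun s => v s = y).card +
    (if y ∈ Rt then δ y else 0) + ∑ p ∈ Rt.filter (fun p => ld p = y), (2 * L - δ p)

namespace NumAux

lemma card_lt (U : Finset σ) (u : σ → ℕ) (x : ℕ) :
    ∑ y ∈ range x, (U.filter fun s => u s = y).card = (U.filter fun s => u s < x).card := by
  rw [card_eq_sum_card_fiberwise (s := U.filter fun s => u s < x) (t := range x) (f := u)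
    fun s hs => mem_coe.2 (mem_range.2 (mem_filter.1 (mem_coe.1 hs)).2)]
  refine sum_congr rfl fun y hy => congrArg _ ?_
  rw [filter_filter]
  refine filter_congr fun s _ => ⟨fun h => ⟨h ▸ mem_range.1 hy, h⟩, fun h => h.2⟩

lemma pre_wt (b : ℕ → ℕ) (S : Finset σ) (u v : σ → ℕ) (Rt : Finset ℕ) (ld : ℕ → ℕ) (L : ℕ)
    (U : Finset σ) (δ : ℕ → ℕ) (x : ℕ) :
    pre (wt b S u v Rt ld L U δ) x = pre b x + (U.filter fun s => u s < x).card +
      ((S \ U).filter fun s => v s < x).card + ∑ p ∈ Rt, (if p < x then δ p else 0) +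
      ∑ p ∈ Rt, (if ld p < x then 2 * L - δ p else 0) := by
  unfold pre wt
  rw [sum_add_distrib, sum_add_distrib, sum_add_distrib, sum_add_distrib, card_lt, card_lt]
  congr 1
  · congr 1
    rw [sum_ite_mem, ← sum_filter]
    refine sum_congr ?_ fun _ _ => rfl
    ext p
    simp only [mem_inter, mem_range, mem_filter, and_comm]
  · simp only [sum_filter]
    rw [sum_comm]
    refine sum_congr rfl fun p _ => ?_
    rw [sum_ite_eq]
    simp only [mem_range]

end NumAux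

open NumAux in
theorem num {b : ℕ → ℕ} {S : Finset σ} {u v : σ → ℕ} {Rt : Finset ℕ} {ld : ℕ → ℕ}
    {N N2 L B M M2 Q K : ℕ} (hN : N2 ≤ N) (hM2 : 0 < M2)
    (hS : ∀ s ∈ S, u s < N2 ∧ N2 ≤ v s ∧ v s < N ∧ v s ∉ Rt)
    (hRt : ∀ p ∈ Rt, N2 ≤ p ∧ p < N ∧ ld p < N2 ∧ b p ≤ 1)
    (hb1 : ∀ y < N2, (∀ p ∈ Rt, ld p ≠ y) → b y = 1) (hb2 : ∀ y < N2, b y ≤ B)
    (hb3 : ∀ y, N2 ≤ y → y < N → y ∉ Rt → b y + (S.filter fun s => v s = y).card ≤ L + 1)
    (hld : ∀ p ∈ Rt, ∀ p' ∈ Rt, p ≠ p' →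
      ld p + 4 * (L + 1) ^ 2 < ld p' ∨ ld p' + 4 * (L + 1) ^ 2 < ld p)
    (hM : ∀ c, N2 ≤ c → c + M ≤ N → ∃ p ∈ Rt, c ≤ p ∧ p < c + M)
    (hW : ∀ m, (m + 1) * M2 ≤ N2 → Q ≤ (S.filter fun s => m * M2 ≤ u s ∧ u s < (m + 1) * M2).card)
    (hQ : (B + L) * (3 * (L + 1) ^ 2 + 1) ≤ Q)
    (hK1 : (B + L) * (5 * (L + 1) ^ 2 + 2 * M2 + 1) < K) (hK2 : (L + 1) * (2 * M + 2) ≤ K)
    {A : ℕ → ℕ} {k : ℕ} (h0 : A 0 = 0) (hA : ∀ i < k, A i + K ≤ A (i + 1))
    (hk : A k = ∑ y ∈ range N, b y + S.card + 2 * L * Rt.card) :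
    ∃ U ⊆ S, ∃ δ : ℕ → ℕ, (∀ p, δ p ≤ 2 * L) ∧
      ∀ i ≤ k, ∃ x ≤ N, ∑ y ∈ range x, wt b S u v Rt ld L U δ y = A i := by
  let β : ℕ → ℕ := fun y => b y + ∑ p ∈ Rt.filter (fun p => ld p = y), (2 * L - L)
  have hβ : ∀ y < N2, β y ≤ B + L := by
    intro y hy
    have g1 : (Rt.filter fun p => ld p = y).card ≤ 1 := card_le_one.2 fun p hp p' hp' => by
      by_contra hn
      have g2 := hld p (mem_filter.1 hp).1 p' (mem_filter.1 hp').1 hn
      have g3 := (mem_filter.1 hp).2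
      have g4 := (mem_filter.1 hp').2
      omega
    have g2 := hb2 y hy
    have g3 := Nat.mul_le_mul_right (2 * L - L) g1
    simp only [β]
    rw [sum_const, smul_eq_mul]
    omega
  obtain ⟨U, hU, -, hz⟩ := sweep (β := β) (Λ := Rt.image ld) (u := u) (S := S) hM2 hβ
    (fun y hy y' hy' h => by
      obtain ⟨p, hp, rfl⟩ := mem_image.1 hy
      obtain ⟨p', hp', rfl⟩ := mem_image.1 hy'
      have := hld p hp p' hp' fun e => by rw [e] at h; exact lt_irrefl _ h
      omega) hW hQ hK1 h0 hA k le_rfl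
  obtain ⟨ω, hω⟩ : ∃ ω, ω = wt b S u v Rt ld L U fun _ => L := ⟨_, rfl⟩
  have hω1 : ∀ y < N2, ω y = β y + (U.filter fun s => u s = y).card := by
    intro y hy
    rw [hω]
    unfold wt
    rw [if_neg fun h => by have := hRt y h; omega, filter_false_of_mem (s := S \ U) fun s hs => by
      have := hS s (mem_sdiff.1 hs).1
      omega, card_empty]
    simp only [β]
    omega
  have hω2 : ∀ x ≤ N2, pre ω x = PU β u U x := by
    intro x hx
    unfold PU pre
    rw [← card_lt, ← sum_add_distrib]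
    exact sum_congr rfl fun y hy => hω1 y ((mem_range.1 hy).trans_le hx)
  have hω3 : ∀ y, N2 ≤ y → y < N → ω y ≤ L + 1 := by
    intro y h1 h2
    rw [hω]
    unfold wt
    rw [filter_false_of_mem (s := U) fun s hs => by have := hS s (hU hs); omega,
      filter_false_of_mem (s := Rt) fun p hp => by have := hRt p hp; omega, card_empty, sum_empty]
    by_cases hy : y ∈ Rt
    · rw [if_pos hy, filter_false_of_mem fun s hs e =>
        (hS s (mem_sdiff.1 hs).1).2.2.2 (by rw [e]; exact hy), card_empty]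
      have := hRt y hy
      change b y + 0 + 0 + L + 0 ≤ L + 1
      omega
    · have g1 := hb3 y h1 h2 hy
      have g2 : ((S \ U).filter fun s => v s = y).card ≤ (S.filter fun s => v s = y).card :=
        card_le_card (filter_subset_filter _ sdiff_subset)
      rw [if_neg hy]
      omega
  have hω4 : A k = pre ω N := by
    rw [hω, pre_wt, hk, filter_true_of_mem fun s hs => (hS s (hU hs)).1.trans_le hN,
      filter_true_of_mem fun s hs => (hS s (mem_sdiff.1 hs).1).2.2.1,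
      sum_congr rfl fun p hp => if_pos (hRt p hp).2.1,
      sum_congr rfl fun p hp => if_pos ((hRt p hp).2.2.1.trans_le hN), sum_const, sum_const,
      smul_eq_mul, smul_eq_mul, show 2 * L - L = L by omega, ← card_sdiff_add_card_eq_card hU]
    unfold pre
    ring
  obtain ⟨ε, h1, h2⟩ := cuts (ω := ω) (ld := ld) hN hω3
    (fun p hp => by have := hRt p hp; omega) hM hK2 h0 hA hω4 fun i i1 i2 => by
      rcases hz i i1 i2 with g | ⟨x, ⟨z1, z2, z3⟩, g⟩
      · exact Or.inl (by rw [hω2 N2 le_rfl]; exact g.le)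
      · have g1 : ∀ y, x ≤ y + (L + 1) ^ 2 → y < x + (L + 1) ^ 2 → ω y = 1 := by
          intro y y1 y2
          obtain ⟨a1, a2⟩ := z3 y y1 y2
          have a3 : ∀ p ∈ Rt, ld p ≠ y := fun p hp e => a1 (mem_image.2 ⟨p, hp, e⟩)
          rw [hω1 y (by omega), filter_false_of_mem a2, card_empty]
          simp only [β]
          rw [filter_false_of_mem a3, sum_empty, hb1 y (by omega) a3]
          rfl
        rw [← hω2 x (by omega)] at g
        refine Or.inr ⟨x, z1, z2, fun p hp => ?_, fun z a1 a2 => ?_⟩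
        · by_contra hn
          exact (z3 (ld p) (by omega) (by omega)).1 (mem_image_of_mem _ hp)
        · rcases le_total z x with a3 | a3
          · have := pre_one (f := ω) a3 fun y y1 y2 => g1 y (by omega) (by omega)
            omega
          · have := pre_one (f := ω) a3 fun y y1 y2 => g1 y (by omega) (by omega)
            omega
  have h3 : ∀ p, (((L : ℤ) + ε p).toNat : ℤ) = L + ε p ∧ ((L : ℤ) + ε p).toNat ≤ 2 * L := by
    intro p
    have := abs_le.1 (h1 p)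
    omega
  refine ⟨U, hU, fun p => ((L : ℤ) + ε p).toNat, fun p => (h3 p).2, fun i hi => ?_⟩
  obtain ⟨x, hx, h4⟩ := h2 i hi
  refine ⟨x, hx, ?_⟩
  have h5 := pre_wt b S u v Rt ld L U (fun p => ((L : ℤ) + ε p).toNat) x
  have h6 := pre_wt b S u v Rt ld L U (fun _ => L) x
  rw [← hω] at h6
  have h7 : ((∑ p ∈ Rt, (if p < x then ((L : ℤ) + ε p).toNat else 0) : ℕ) : ℤ) =
      (∑ p ∈ Rt, (if p < x then L else 0) : ℕ) + ∑ p ∈ Rt, (if p < x then ε p else 0) := by
    rw [Nat.cast_sum, Nat.cast_sum, ← sum_add_distrib]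
    refine sum_congr rfl fun p _ => ?_
    have := h3 p
    split_ifs <;> omega
  have h8 : ((∑ p ∈ Rt, (if ld p < x then 2 * L - ((L : ℤ) + ε p).toNat else 0) : ℕ) : ℤ) =
      (∑ p ∈ Rt, (if ld p < x then 2 * L - L else 0) : ℕ) -
        ∑ p ∈ Rt, (if ld p < x then ε p else 0) := by
    rw [Nat.cast_sum, Nat.cast_sum, ← sum_sub_distrib]
    refine sum_congr rfl fun p _ => ?_
    have := h3 p
    split_ifs <;> omega
  change pre _ x = A i
  omega

end Pool.Agent.Lib.MP_f20cd2_co.EX
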