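import Pool.Agent.Lib.MP_f20cd2_co.AS.Rch

/-!
Reservation of connected regions in a graph of bounded degree.
-/

set_option autoImplicit false
set_option linter.unusedSectionVars false

namespace Pool.Agent.Lib.MP_f20cd2_co.EX

open Finset
open Pool.Agent.Lib.MP_f20cd2_co.H83 (Conn Cells)
open Pool.Agent.Lib.MP_f20cd2_co.PL
open Pool.Agent.Lib.MP_f20cd2_co.AS
open scoped Classical

variable {V : Type} [Fintype V] [DecidableEq V]

/-- All components of `L` inside `U` have at least `A` vertices. -/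
def Fat (L : SimpleGraph V) (U : Finset V) (A : ℕ) : Prop := ∀ v ∈ U, A ≤ (cmp L U v).card

theorem Fat.mono {L : SimpleGraph V} {U : Finset V} {A A' : ℕ} (h : Fat L U A) (hA : A' ≤ A) :
    Fat L U A' := fun v hv => hA.trans (h v hv)

namespace ResAux

theorem rch_mem {L : SimpleGraph V} {Y : Finset V} {p q : V} (h : Rch L Y p q) (hp : p ∈ Y) :
    q ∈ Y := by
  unfold Rch at h
  induction h with
  | refl => exact hp
  | tail _ h2 _ => exact h2.2.1

/-- A chain stays inside every set that contains the component. -/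
theorem rch_in {L : SimpleGraph V} {Y Z : Finset V} {p q : V} (h : Rch L Y p q)
    (hZ : ∀ x, Rch L Y p x → x ∈ Z) : Rch L Z p q := by
  unfold Rch at h hZ ⊢
  induction h with
  | refl => exact Relation.ReflTransGen.refl
  | tail h1 h2 ih => exact ih.tail ⟨hZ _ h1, hZ _ (h1.tail h2), h2.2.2⟩

/-- A chain that leaves `R` has a first edge out of `R`. -/
theorem exit {L : SimpleGraph V} {Y : Finset V} (P : V → Prop) {p q : V} (h : Rch L Y p q)
    (hp : P p) (hq : ¬ P q) : ∃ x y, P x ∧ ¬ P y ∧ x ∈ Y ∧ y ∈ Y ∧ L.Adj x y := by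
  unfold Rch at h
  induction h with
  | refl => exact absurd hp hq
  | @tail x y _ h2 ih =>
    by_cases hx : P x
    · exact ⟨x, y, hx, hq, h2.1, h2.2.1, h2.2.2⟩
    · exact ih hx

theorem conn_of_rch {L : SimpleGraph V} {R : Finset V} {h : V} (hh : h ∈ R)
    (hc : ∀ v ∈ R, Rch L R h v) : Conn L R := by
  refine BasicAux.of_const hh fun P hP v hv => ?_
  have h1 := hc v hv
  unfold Rch at h1
  clear hv
  induction h1 with
  | refl => exact Iff.rfl
  | tail _ h2 ih => exact (hP _ h2.1 _ h2.2.1 h2.2.2).symm.trans ih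

theorem rch_of_conn {L : SimpleGraph V} {R : Finset V} (hc : Conn L R) {p q : V} (hp : p ∈ R)
    (hq : q ∈ R) : Rch L R p q :=
  (BasicAux.const hc (fun x => Rch L R p x) (fun _ ha _ hb hab =>
    ⟨fun h => Relation.ReflTransGen.tail h ⟨ha, hb, hab⟩,
      fun h => Relation.ReflTransGen.tail h ⟨hb, ha, hab.symm⟩⟩) p hp q hq).1
    Relation.ReflTransGen.refl

/-- One vertex with the small components that its removal creates. -/
theorem step {L : SimpleGraph V} {D : ℕ} (hD : ∀ v, AS.dg L v ≤ D) {U : Finset V} {A : ℕ}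
    (hU : Fat L U A) {h : V} (hh : h ∈ U) :
    ∃ Z ⊆ U, h ∈ Z ∧ (∀ v ∈ Z, Rch L Z h v) ∧ Z.card ≤ 1 + D * (A - 1) ∧ Fat L (U \ Z) A := by
  set U' := U.erase h with hU'
  set Z0 := U'.filter fun v => (cmp L U' v).card < A with hZ0
  have hin : ∀ v ∈ Z0, ∀ x, Rch L U' v x → x ∈ Z0 := fun v hv x hx =>
    mem_filter.2 ⟨rch_mem hx (mem_filter.1 hv).1, by
      rw [← cmp_eq_iff.2 hx]
      exact (mem_filter.1 hv).2⟩
  have hatt : ∀ v ∈ Z0, ∃ x, Rch L U' v x ∧ L.Adj h x := by
    intro v hv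
    obtain ⟨hv1, hv2⟩ := mem_filter.1 hv
    have h1 := hU v (mem_of_mem_erase hv1)
    obtain ⟨w, hw1, hw2⟩ := exists_mem_notMem_of_card_lt_card (lt_of_lt_of_le hv2 h1)
    obtain ⟨x, y, hx, hy, -, hyU, hxy⟩ := exit (fun x => Rch L U' v x) (mem_cmp.1 hw1)
      Relation.ReflTransGen.refl fun h' => hw2 (mem_cmp.2 h')
    by_cases e : y = h
    · exact ⟨x, hx, e ▸ hxy.symm⟩
    · exact absurd (Relation.ReflTransGen.tail hx
        ⟨rch_mem hx hv1, mem_erase.2 ⟨e, hyU⟩, hxy⟩) hy
  refine ⟨insert h Z0, insert_subset hh ((filter_subset _ _).trans (erase_subset _ _)),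
    mem_insert_self _ _, ?_, ?_, ?_⟩
  · intro v hv
    rcases mem_insert.1 hv with rfl | hv
    · exact Relation.ReflTransGen.refl
    · obtain ⟨x, hx, hadj⟩ := hatt v hv
      have h1 : Rch L (insert h Z0) v x :=
        rch_in hx fun y hy => mem_insert_of_mem (hin v hv y hy)
      exact Relation.ReflTransGen.head
        ⟨mem_insert_self _ _, mem_insert_of_mem (hin v hv x hx), hadj⟩ (rch_symm h1)
  · have h1 : Z0 ⊆ (Z0.filter fun x => L.Adj h x).biUnion (cmp L U') := by
      intro v hv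
      obtain ⟨x, hx, hadj⟩ := hatt v hv
      exact mem_biUnion.2 ⟨x, mem_filter.2 ⟨hin v hv x hx, hadj⟩, mem_cmp.2 (rch_symm hx)⟩
    have h2 := (card_le_card h1).trans (card_biUnion_le_card_mul _ _ (A - 1) fun x hx => by
      have := (mem_filter.1 (mem_filter.1 hx).1).2
      omega)
    have h3 : (Z0.filter fun x => L.Adj h x).card ≤ D :=
      le_trans (card_le_card (filter_subset_filter _ (subset_univ _))) (hD h)
    have h4 := card_insert_le h Z0
    have h5 := Nat.mul_le_mul_right (A - 1) h3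
    omega
  · intro v hv
    obtain ⟨hv1, hv2⟩ := mem_sdiff.1 hv
    have hv3 : v ∈ U' := mem_erase.2 ⟨fun e => hv2 (e ▸ mem_insert_self _ _), hv1⟩
    have hv4 : A ≤ (cmp L U' v).card := by
      by_contra hc
      exact hv2 (mem_insert_of_mem (mem_filter.2 ⟨hv3, by omega⟩))
    refine hv4.trans (card_le_card fun w hw => mem_cmp.2 (rch_in (mem_cmp.1 hw) fun x hx => ?_))
    have hx1 := rch_mem hx hv3
    refine mem_sdiff.2 ⟨mem_of_mem_erase hx1, fun hc => ?_⟩
    rcases mem_insert.1 hc with e | hc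
    · exact ne_of_mem_erase hx1 e
    · exact hv2 (mem_insert_of_mem (hin x hc v (rch_symm hx)))

theorem grow {L : SimpleGraph V} {D : ℕ} (hD : ∀ v, AS.dg L v ≤ D) {U : Finset V} {A : ℕ}
    (hU : Fat L U A) {h : V} (hh : h ∈ U) : ∀ (k : ℕ) (R : Finset V), R ⊆ U → h ∈ R →
      (∀ v ∈ R, Rch L R h v) → R.card ≤ (D + 1) * A + 1 → Fat L (U \ R) A → A ≤ R.card + k →
      ∃ R ⊆ U, h ∈ R ∧ Conn L R ∧ A ≤ R.card ∧ R.card ≤ (D + 1) * A + 1 ∧ Fat L (U \ R) A := by
  intro k
  induction k with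
  | zero =>
    intro R h1 h2 h3 h4 h5 h6
    exact ⟨R, h1, h2, conn_of_rch h2 h3, h6, h4, h5⟩
  | succ k ih =>
    intro R h1 h2 h3 h4 h5 h6
    by_cases hA : A ≤ R.card
    · exact ⟨R, h1, h2, conn_of_rch h2 h3, hA, h4, h5⟩
    obtain ⟨w, hw1, hw2⟩ := exists_mem_notMem_of_card_lt_card
      (lt_of_lt_of_le (not_le.1 hA) (hU h hh))
    obtain ⟨x, y, hx, hy, -, hyU, hxy⟩ := exit (fun x => x ∈ R) (mem_cmp.1 hw1) h2 hw2
    obtain ⟨Z, z1, z2, z3, z4, z5⟩ := step hD h5 (mem_sdiff.2 ⟨hyU, hy⟩)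
    have hd : Disjoint R Z := disjoint_left.2 fun a ha hz => (mem_sdiff.1 (z1 hz)).2 ha
    have hc := card_union_of_disjoint hd
    have hp := card_pos.2 ⟨y, z2⟩
    refine ih (R ∪ Z) (union_subset h1 (z1.trans sdiff_subset)) (mem_union_left _ h2) ?_ ?_ ?_
      (by omega)
    · intro v hv
      rcases mem_union.1 hv with hv | hv
      · exact rch_mono le_rfl subset_union_left (h3 v hv)
      · exact Relation.ReflTransGen.trans
          (Relation.ReflTransGen.tail (rch_mono le_rfl subset_union_left (h3 x hx))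
            ⟨mem_union_left _ hx, mem_union_right _ z2, hxy⟩)
          (rch_mono le_rfl subset_union_right (z3 v hv))
    · have h7 : D * (A - 1) ≤ D * A := Nat.mul_le_mul_left _ (Nat.sub_le _ _)
      rw [Nat.add_mul]
      omega
    · rwa [sdiff_sdiff_left] at z5

end ResAux

/-- A connected region around any vertex whose removal leaves no small component. -/
theorem reserve {L : SimpleGraph V} {D : ℕ} (hD : ∀ v, AS.dg L v ≤ D) {U : Finset V} {A : ℕ}
    (hU : Fat L U A) {h : V} (hh : h ∈ U) :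
    ∃ R ⊆ U, h ∈ R ∧ Conn L R ∧ A ≤ R.card ∧ R.card ≤ (D + 1) * A + 1 ∧ Fat L (U \ R) A := by
  obtain ⟨Z, z1, z2, z3, z4, z5⟩ := ResAux.step hD hU hh
  refine ResAux.grow hD hU hh A Z z1 z2 z3 ?_ z5 (by omega)
  have h7 : D * (A - 1) ≤ D * A := Nat.mul_le_mul_left _ (Nat.sub_le _ _)
  rw [Nat.add_mul]
  omega

/-- A connected set is fat. -/
theorem fat_of_conn {L : SimpleGraph V} {U : Finset V} (hU : Conn L U) {A : ℕ}
    (hA : A ≤ U.card) : Fat L U A := fun _ hv =>
  hA.trans (card_le_card fun _ hw => mem_cmp.2 (ResAux.rch_of_conn hU hv hw))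

/-- A connected subset of prescribed size that contains a prescribed vertex. -/
theorem conn_sub_at {L : SimpleGraph V} {P : Finset V} (hP : Conn L P) {h : V} (hh : h ∈ P)
    (s : ℕ) (hs : 0 < s) (hsP : s ≤ P.card) : ∃ Q ⊆ P, h ∈ Q ∧ Q.card = s ∧ Conn L Q := by
  induction s, hs using Nat.le_induction with
  | base => exact ⟨{h}, singleton_subset_iff.2 hh, mem_singleton_self h, card_singleton h,
      Conn.single h⟩
  | succ s hs ih =>
    obtain ⟨Q, hQ, hq, hc, hQc⟩ := ih (by omega)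
    obtain ⟨a, ha, b, hb, hbQ, hab⟩ := hP.2 Q hQ hQc.1 fun e => by
      rw [e] at hc
      omega
    exact ⟨insert b Q, insert_subset hb hQ, mem_insert_of_mem hq,
      by rw [card_insert_of_notMem hbQ, hc], hQc.insert ha hab.symm⟩

/-- Groups are placed by decreasing radius: each group `g` picks its own unit `k` and, in every
world `j < w`, a connected region around the hook `hk g k j`. -/
theorem place {ι κ : Type} [DecidableEq ι] [DecidableEq κ] [Inhabited κ] (w D lam : ℕ)
    (L : ℕ → SimpleGraph V)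
    (hD : ∀ j < w, ∀ v, AS.dg (L j) v ≤ D) (A : ι → ℕ) (hk : ι → κ → ℕ → V) (W : ℕ → Finset V)
    (Γ : Finset ι) : ∀ (K : Finset κ) (U : ℕ → Finset V) (E B : ℕ),
      (∀ g ∈ Γ, ∀ j < w, ∀ v, (K.filter fun k => hk g k j = v).card ≤ lam) →
      (∀ g ∈ Γ, ∀ k ∈ K, ∀ j < w, hk g k j ∈ W j) → (∀ g ∈ Γ, A g ≤ B) →
      (∀ j < w, Fat (L j) (U j) B) → (∀ j < w, (W j \ U j).card ≤ E) →
      Γ.card + w * (lam * (E + ∑ g ∈ Γ, ((D + 1) * A g + 1))) ≤ K.card →
      ∃ (un : ι → κ) (R : ι → ℕ → Finset V), (∀ g ∈ Γ, un g ∈ K) ∧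
        (∀ g ∈ Γ, ∀ g' ∈ Γ, un g = un g' → g = g') ∧
        (∀ g ∈ Γ, ∀ j < w, R g j ⊆ U j ∧ hk g (un g) j ∈ R g j ∧ Conn (L j) (R g j) ∧
          A g ≤ (R g j).card) ∧
        ∀ g ∈ Γ, ∀ g' ∈ Γ, g ≠ g' → ∀ j < w, Disjoint (R g j) (R g' j) := by
  induction Γ using Finset.induction_on_max_value A with
  | empty =>
    intro K U E B _ _ _ _ _ _
    exact ⟨fun _ => default, fun _ _ => ∅, by simp, by simp, by simp, by simp⟩
  | insert a s has hmax ih =>
    intro K U E B h1 h2 h3 h4 h5 h6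
    have ha := mem_insert_self a s
    rw [card_insert_of_notMem has, sum_insert has] at h6
    have hbad : (K.filter fun k => ∃ j < w, hk a k j ∉ U j).card ≤ w * (lam * E) := by
      have h7 : (K.filter fun k => ∃ j < w, hk a k j ∉ U j) ⊆ (range w).biUnion fun j =>
          (W j \ U j).biUnion fun v => K.filter fun k => hk a k j = v := by
        intro k hk'
        obtain ⟨hK, j, hj, hU⟩ := mem_filter.1 hk'
        exact mem_biUnion.2 ⟨j, mem_range.2 hj, mem_biUnion.2
          ⟨_, mem_sdiff.2 ⟨h2 a ha k hK j hj, hU⟩, mem_filter.2 ⟨hK, rfl⟩⟩⟩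
      refine (card_le_card h7).trans ((card_biUnion_le_card_mul _ _ (lam * E) fun j hj => ?_).trans
        (by rw [card_range]))
      refine (card_biUnion_le_card_mul _ _ lam fun v _ => h1 a ha j (mem_range.1 hj) v).trans ?_
      rw [Nat.mul_comm]
      exact Nat.mul_le_mul_left _ (h5 j (mem_range.1 hj))
    have h8 : w * (lam * E) ≤
        w * (lam * (E + ((D + 1) * A a + 1 + ∑ g ∈ s, ((D + 1) * A g + 1)))) :=
      Nat.mul_le_mul_left _ (Nat.mul_le_mul_left _ (Nat.le_add_right _ _))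
    obtain ⟨k, hkK, hkb⟩ := exists_mem_notMem_of_card_lt_card
      (s := K.filter fun k => ∃ j < w, hk a k j ∉ U j) (t := K) (by omega)
    have h9 : ∀ j, ∃ R : Finset V, j < w → R ⊆ U j ∧ hk a k j ∈ R ∧ Conn (L j) R ∧ A a ≤ R.card ∧
        R.card ≤ (D + 1) * A a + 1 ∧ Fat (L j) (U j \ R) (A a) := by
      intro j
      by_cases hj : j < w
      · have hm : hk a k j ∈ U j := by
          by_contra hc
          exact hkb (mem_filter.2 ⟨hkK, j, hj, hc⟩)
        obtain ⟨R, hR⟩ := reserve (hD j hj) ((h4 j hj).mono (h3 a ha)) hm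
        exact ⟨R, fun _ => hR⟩
      · exact ⟨∅, fun h => absurd h hj⟩
    choose R0 hR0 using h9
    obtain ⟨un, R, i1, i2, i3, i4⟩ := ih (K.erase k) (fun j => U j \ R0 j)
      (E + ((D + 1) * A a + 1)) (A a)
      (fun g hg j hj v => le_trans (card_le_card (filter_subset_filter _ (erase_subset _ _)))
        (h1 g (mem_insert_of_mem hg) j hj v))
      (fun g hg k' hk' => h2 g (mem_insert_of_mem hg) k' (mem_of_mem_erase hk')) hmax
      (fun j hj => (hR0 j hj).2.2.2.2.2)
      (fun j hj => by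
        have e1 : W j \ (U j \ R0 j) ⊆ (W j \ U j) ∪ R0 j := fun x hx => by
          simp only [mem_sdiff, mem_union] at hx ⊢
          tauto
        have e2 := (card_le_card e1).trans (card_union_le _ _)
        have e3 := h5 j hj
        have e4 := (hR0 j hj).2.2.2.2.1
        omega)
      (by
        rw [card_erase_of_mem hkK, Nat.add_assoc E]
        omega)
    have hne : ∀ g ∈ s, g ≠ a := fun g hg e => has (e ▸ hg)
    refine ⟨fun g => if g = a then k else un g, fun g => if g = a then R0 else R g, ?_, ?_, ?_, ?_⟩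
    · intro g hg
      rcases mem_insert.1 hg with rfl | hg
      · simpa using hkK
      · simpa [hne g hg] using mem_of_mem_erase (i1 g hg)
    · intro g hg g' hg' e
      rw [mem_insert] at hg hg'
      rcases hg with rfl | hg <;> rcases hg' with rfl | hg'
      · rfl
      · simp only [if_true, if_neg (hne g' hg')] at e
        exact absurd e.symm (ne_of_mem_erase (i1 g' hg'))
      · simp only [if_true, if_neg (hne g hg)] at e
        exact absurd e (ne_of_mem_erase (i1 g hg))
      · simp only [if_neg (hne g hg), if_neg (hne g' hg')] at e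
        exact i2 g hg g' hg' e
    · intro g hg j hj
      rcases mem_insert.1 hg with rfl | hg
      · obtain ⟨r1, r2, r3, r4, -⟩ := hR0 j hj
        simpa using ⟨r1, r2, r3, r4⟩
      · obtain ⟨r1, r2, r3, r4⟩ := i3 g hg j hj
        simp only [if_neg (hne g hg)]
        exact ⟨r1.trans sdiff_subset, r2, r3, r4⟩
    · have key : ∀ g ∈ s, ∀ j < w, Disjoint (R0 j) (R g j) := fun g hg j hj =>
        disjoint_left.2 fun x hx hx' => (mem_sdiff.1 ((i3 g hg j hj).1 hx')).2 hx
      intro g hg g' hg' e j hj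
      rw [mem_insert] at hg hg'
      rcases hg with rfl | hg <;> rcases hg' with rfl | hg'
      · exact absurd rfl e
      · simpa [hne g' hg'] using key g' hg' j hj
      · simpa [hne g hg] using (key g hg j hj).symm
      · simpa [hne g hg, hne g' hg'] using i4 g hg g' hg' e j hj

end Pool.Agent.Lib.MP_f20cd2_co.EX
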