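import Mathlib

/-!
Rounding of a circulation, and of the errors at the cuts.
-/

set_option autoImplicit false
set_option linter.unusedSectionVars false

namespace Pool.Agent.Lib.MP_f20cd2_co.EX

open Finset
open scoped Classical

namespace RoundAux

variable {ι ν : Type} [DecidableEq ι] [DecidableEq ν]

/-- Conservation at every node. -/
def Cons (E : Finset ι) (t h : ι → ν) (f : ι → ℝ) : Prop :=
  ∀ v, ∑ a ∈ E, (if t a = v then f a else 0) = ∑ a ∈ E, (if h a = v then f a else 0)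

lemma ker (A : Finset ι) (hA : A.Nonempty) (t h : ι → ν)
    (hd : ∀ v, (A.filter fun a => t a = v).card + (A.filter fun a => h a = v).card ≠ 1) :
    ∃ δ : ι → ℝ, (∃ a ∈ A, δ a ≠ 0) ∧ Cons A t h δ := by
  obtain ⟨a0, ha0⟩ := hA
  let N : Finset ν := A.image t ∪ A.image h
  have ht : ∀ a ∈ A, t a ∈ N := fun a ha => mem_union_left _ (mem_image_of_mem _ ha)
  have hh : ∀ a ∈ A, h a ∈ N := fun a ha => mem_union_right _ (mem_image_of_mem _ ha)
  have h1 : N.card ≤ A.card := by
    have e1 := card_eq_sum_card_fiberwise (s := A) (t := N) (f := t) fun a ha => ht a ha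
    have e2 := card_eq_sum_card_fiberwise (s := A) (t := N) (f := h) fun a ha => hh a ha
    have e3 : ∀ v ∈ N,
        2 ≤ (A.filter fun a => t a = v).card + (A.filter fun a => h a = v).card := by
      intro v hv
      have h2 := hd v
      have h3 : 0 < (A.filter fun a => t a = v).card + (A.filter fun a => h a = v).card := by
        rcases mem_union.1 hv with hv | hv
        · obtain ⟨a, ha, e⟩ := mem_image.1 hv
          have := card_pos.2 (⟨a, mem_filter.2 ⟨ha, e⟩⟩ : (A.filter fun a => t a = v).Nonempty)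
          omega
        · obtain ⟨a, ha, e⟩ := mem_image.1 hv
          have := card_pos.2 (⟨a, mem_filter.2 ⟨ha, e⟩⟩ : (A.filter fun a => h a = v).Nonempty)
          omega
      omega
    have e4 := card_nsmul_le_sum N _ 2 e3
    rw [sum_add_distrib, ← e1, ← e2, smul_eq_mul] at e4
    omega
  let vec : A → (N.erase (t a0) → ℝ) := fun a v =>
    (if t a = v then 1 else 0) - (if h a = v then 1 else 0)
  have h2 : ¬ LinearIndependent ℝ vec := by
    intro hl
    have h3 := hl.fintype_card_le_finrank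
    rw [Module.finrank_fintype_fun_eq_card, Fintype.card_coe, Fintype.card_coe,
      card_erase_of_mem (ht a0 ha0)] at h3
    have := card_pos.2 ⟨_, ht a0 ha0⟩
    omega
  obtain ⟨g, hg, i, hi⟩ := Fintype.not_linearIndependent_iff.1 h2
  let δ : ι → ℝ := fun a => if ha : a ∈ A then g ⟨a, ha⟩ else 0
  let φ : ν → ℝ := fun v =>
    ∑ a ∈ A, (if t a = v then δ a else 0) - ∑ a ∈ A, (if h a = v then δ a else 0)
  have h4 : ∀ v ∈ N.erase (t a0), φ v = 0 := by
    intro v hv
    have h5 := congrFun hg ⟨v, hv⟩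
    simp only [Finset.sum_apply, Pi.smul_apply, smul_eq_mul, Pi.zero_apply, vec] at h5
    simp only [φ]
    rw [← sum_sub_distrib, ← sum_attach A]
    refine Eq.trans (sum_congr rfl fun a _ => ?_) h5
    simp only [δ, dif_pos a.2]
    split_ifs <;> simp
  have h5 : ∑ v ∈ N, φ v = 0 := by
    simp only [φ]
    rw [sum_sub_distrib, sum_comm, sum_comm (s := N)]
    rw [sum_congr rfl fun a ha => (sum_ite_eq N (t a) fun _ => δ a).trans (if_pos (ht a ha)),
      sum_congr rfl fun a ha => (sum_ite_eq N (h a) fun _ => δ a).trans (if_pos (hh a ha)),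
      sub_self]
  refine ⟨δ, ⟨i.1, i.2, by simpa [δ] using hi⟩, fun v => sub_eq_zero.1 (show φ v = 0 from ?_)⟩
  by_cases hv : v ∈ N
  · by_cases e : v = t a0
    · rw [← add_sum_erase N φ (ht a0 ha0), sum_eq_zero h4, add_zero] at h5
      rw [e, h5]
    · exact h4 v (mem_erase.2 ⟨e, hv⟩)
  · simp only [φ]
    rw [sum_eq_zero fun a ha => if_neg fun e : t a = v => hv (e ▸ ht a ha),
      sum_eq_zero fun a ha => if_neg fun e : h a = v => hv (e ▸ hh a ha), sub_self]

/-- Integers among the reals. -/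
def Z (x : ℝ) : Prop := ∃ z : ℤ, x = z

lemma Z_sum {s : Finset ι} {f : ι → ℝ} (h : ∀ a ∈ s, Z (f a)) : Z (∑ a ∈ s, f a) := by
  refine sum_induction f Z ?_ ⟨0, by simp⟩ h
  rintro _ _ ⟨a, rfl⟩ ⟨b, rfl⟩
  exact ⟨a + b, by simp⟩

lemma one_side {E : Finset ι} {t h : ι → ν} {f : ι → ℝ} {v : ν}
    (hc : ∑ a ∈ E, (if t a = v then f a else 0) = ∑ a ∈ E, (if h a = v then f a else 0))
    (h1 : ((E.filter fun a => ¬ Z (f a)).filter fun a => t a = v).card = 1)
    (h0 : ((E.filter fun a => ¬ Z (f a)).filter fun a => h a = v).card = 0) : False := by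
  obtain ⟨b, hb⟩ := card_eq_one.1 h1
  have hb1 : b ∈ (E.filter fun a => ¬ Z (f a)).filter fun a => t a = v := by
    rw [hb]
    exact mem_singleton_self b
  obtain ⟨hb2, hb3⟩ := mem_filter.1 hb1
  obtain ⟨hb4, hb5⟩ := mem_filter.1 hb2
  have z1 : Z (∑ a ∈ E, (if h a = v then f a else 0)) := by
    refine Z_sum fun a ha => ?_
    split_ifs with e
    · by_contra hn
      have : a ∈ (E.filter fun a => ¬ Z (f a)).filter fun a => h a = v :=
        mem_filter.2 ⟨mem_filter.2 ⟨ha, hn⟩, e⟩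
      rw [card_eq_zero.1 h0] at this
      exact notMem_empty _ this
    · exact ⟨0, by simp⟩
  have z2 : Z (∑ a ∈ E.erase b, (if t a = v then f a else 0)) := by
    refine Z_sum fun a ha => ?_
    split_ifs with e
    · by_contra hn
      have : a ∈ (E.filter fun a => ¬ Z (f a)).filter fun a => t a = v :=
        mem_filter.2 ⟨mem_filter.2 ⟨mem_of_mem_erase ha, hn⟩, e⟩
      rw [hb, mem_singleton] at this
      exact ne_of_mem_erase ha this
    · exact ⟨0, by simp⟩
  rw [← hc, ← add_sum_erase E _ hb4, if_pos hb3] at z1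
  obtain ⟨x, hx⟩ := z1
  obtain ⟨y, hy⟩ := z2
  exact hb5 ⟨x - y, by push_cast; linarith⟩

lemma step {E : Finset ι} {t h : ι → ν} {f : ι → ℝ} (hc : Cons E t h f)
    (hA : (E.filter fun a => ¬ Z (f a)).Nonempty) :
    ∃ f' : ι → ℝ, Cons E t h f' ∧ (∀ a, (⌊f a⌋ : ℝ) ≤ f' a ∧ f' a ≤ ⌈f a⌉) ∧
      (E.filter fun a => ¬ Z (f' a)).card < (E.filter fun a => ¬ Z (f a)).card := by
  set A := E.filter fun a => ¬ Z (f a) with hAd
  obtain ⟨δ, hδ, hk⟩ := ker A hA t h fun v e => by
    rcases Nat.add_eq_one_iff.1 e with ⟨e0, e1⟩ | ⟨e1, e0⟩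
    · exact one_side (hc v).symm e1 e0
    · exact one_side (hc v) e1 e0
  let τ : ι → ℝ := fun a => ((if 0 < δ a then (⌈f a⌉ : ℝ) else ⌊f a⌋) - f a) / δ a
  obtain ⟨b, hb, hmin⟩ := exists_min_image (A.filter fun a => δ a ≠ 0) τ
    (by obtain ⟨a, h1, h2⟩ := hδ; exact ⟨a, mem_filter.2 ⟨h1, h2⟩⟩)
  obtain ⟨hb1, hb2⟩ := mem_filter.1 hb
  have hτ : ∀ a, 0 ≤ τ a := by
    intro a
    simp only [τ]
    split_ifs with e
    · exact div_nonneg (sub_nonneg.2 (Int.le_ceil _)) e.le
    · exact div_nonneg_of_nonpos (sub_nonpos.2 (Int.floor_le _)) (not_lt.1 e)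
  have hτ2 : ∀ a, δ a ≠ 0 → f a + τ a * δ a = if 0 < δ a then (⌈f a⌉ : ℝ) else ⌊f a⌋ := by
    intro a ha
    simp only [τ]
    rw [div_mul_cancel₀ _ ha]
    ring
  refine ⟨fun a => f a + τ b * (if a ∈ A then δ a else 0), fun v => ?_, fun a => ?_, ?_⟩
  · have key : ∀ k : ι → ν, ∑ a ∈ E, (if k a = v then f a + τ b * (if a ∈ A then δ a else 0)
        else 0) = ∑ a ∈ E, (if k a = v then f a else 0) +
          τ b * ∑ a ∈ A, (if k a = v then δ a else 0) := by
      intro k
      have e1 : ∑ a ∈ A, (if k a = v then δ a else 0) =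
          ∑ a ∈ E, (if a ∈ A then (if k a = v then δ a else 0) else 0) := by
        rw [sum_ite_mem, inter_eq_right.2 (filter_subset _ _)]
      rw [e1, mul_sum, ← sum_add_distrib]
      refine sum_congr rfl fun a _ => ?_
      split_ifs <;> simp
    rw [key t, key h, hc v, hk v]
  · have f1 := Int.floor_le (f a)
    have f2 := Int.le_ceil (f a)
    by_cases ha : a ∈ A
    · by_cases h0 : δ a = 0
      · simp only [if_pos ha, h0, mul_zero, add_zero]
        exact ⟨f1, f2⟩
      · have h1 := hmin a (mem_filter.2 ⟨ha, h0⟩)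
        have h2 := hτ2 a h0
        have h3 := hτ b
        simp only [if_pos ha]
        by_cases e : 0 < δ a
        · rw [if_pos e] at h2
          constructor <;> nlinarith
        · rw [if_neg e] at h2
          have e' : δ a ≤ 0 := not_lt.1 e
          constructor <;> nlinarith
    · simp only [if_neg ha, mul_zero, add_zero]
      exact ⟨f1, f2⟩
  · refine card_lt_card ⟨fun a ha => ?_, fun hs => ?_⟩
    · by_contra hn
      obtain ⟨h1, h2⟩ := mem_filter.1 ha
      simp only [if_neg hn, mul_zero, add_zero] at h2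
      exact hn (mem_filter.2 ⟨h1, h2⟩)
    · have h1 := (mem_filter.1 (hs hb1)).2
      simp only [if_pos hb1] at h1
      rw [hτ2 b hb2] at h1
      apply h1
      split_ifs
      · exact ⟨_, rfl⟩
      · exact ⟨_, rfl⟩

lemma circ (E : Finset ι) (t h : ι → ν) (n : ℕ) : ∀ f : ι → ℝ, Cons E t h f →
    (E.filter fun a => ¬ Z (f a)).card ≤ n →
    ∃ g : ι → ℝ, Cons E t h g ∧ ∀ a ∈ E, Z (g a) ∧ (⌊f a⌋ : ℝ) ≤ g a ∧ g a ≤ ⌈f a⌉ := by
  induction n with
  | zero =>
    intro f hc h0
    refine ⟨f, hc, fun a ha => ⟨?_, Int.floor_le _, Int.le_ceil _⟩⟩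
    by_contra hn
    have := card_pos.2 (⟨a, mem_filter.2 ⟨ha, hn⟩⟩ : (E.filter fun a => ¬ Z (f a)).Nonempty)
    omega
  | succ n ih =>
    intro f hc h0
    rcases (E.filter fun a => ¬ Z (f a)).eq_empty_or_nonempty with he | he
    · exact ih f hc (by rw [he]; simp)
    · obtain ⟨f', h1, h2, h3⟩ := step hc he
      obtain ⟨g, h4, h5⟩ := ih f' h1 (by omega)
      refine ⟨g, h4, fun a ha => ⟨(h5 a ha).1, le_trans ?_ (h5 a ha).2.1,
        le_trans (h5 a ha).2.2 ?_⟩⟩
      · exact_mod_cast Int.le_floor.2 (h2 a).1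
      · exact_mod_cast Int.ceil_le.2 (h2 a).2

/-- The flow across the position `x`. -/
noncomputable def F (J : Finset ℕ) (lam rho : ℕ → ℕ) (y : ℕ → ℝ) (x : ℕ) : ℝ :=
  ∑ j ∈ J, (if lam j < x then y j else 0) - ∑ j ∈ J, (if rho j < x then y j else 0)

lemma F_zero (J : Finset ℕ) (lam rho : ℕ → ℕ) (y : ℕ → ℝ) : F J lam rho y 0 = 0 := by
  simp [F]

lemma F_succ (J : Finset ℕ) (lam rho : ℕ → ℕ) (y : ℕ → ℝ) (x : ℕ) :
    F J lam rho y (x + 1) = F J lam rho y x + ∑ j ∈ J, (if lam j = x then y j else 0) -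
      ∑ j ∈ J, (if rho j = x then y j else 0) := by
  have key : ∀ k : ℕ → ℕ, ∑ j ∈ J, (if k j < x + 1 then y j else 0) =
      ∑ j ∈ J, (if k j < x then y j else 0) + ∑ j ∈ J, (if k j = x then y j else 0) := by
    intro k
    rw [← sum_add_distrib]
    refine sum_congr rfl fun j _ => ?_
    split_ifs <;> first | omega | simp
  unfold F
  rw [key lam, key rho]
  ring

lemma F_top {J : Finset ℕ} {lam rho : ℕ → ℕ} (y : ℕ → ℝ) {x : ℕ}
    (h : ∀ j ∈ J, lam j < x ∧ rho j < x) : F J lam rho y x = 0 := by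
  unfold F
  rw [sum_congr rfl fun j hj => if_pos (h j hj).1, sum_congr rfl fun j hj => if_pos (h j hj).2,
    sub_self]

lemma cons_iff (J : Finset ℕ) (lam rho : ℕ → ℕ) (X : ℕ) (g : ℕ ⊕ ℕ → ℝ) :
    Cons (J.disjSum (range X)) (Sum.elim rho id) (Sum.elim lam (· + 1)) g ↔ ∀ v,
      ∑ j ∈ J, (if rho j = v then g (Sum.inl j) else 0) +
        ∑ x ∈ range X, (if x = v then g (Sum.inr x) else 0) =
      ∑ j ∈ J, (if lam j = v then g (Sum.inl j) else 0) +
        ∑ x ∈ range X, (if x + 1 = v then g (Sum.inr x) else 0) := by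
  unfold Cons
  simp only [sum_disjSum]
  exact Iff.rfl

lemma line (J : Finset ℕ) (lam rho : ℕ → ℕ) (y : ℕ → ℝ) :
    ∃ g : ℕ → ℝ, (∀ j ∈ J, Z (g j) ∧ (⌊y j⌋ : ℝ) ≤ g j ∧ g j ≤ ⌈y j⌉) ∧
      ∀ x, |F J lam rho g x - F J lam rho y x| ≤ 1 := by
  obtain ⟨X, hX⟩ : ∃ X, ∀ j ∈ J, lam j < X ∧ rho j < X :=
    ⟨J.sup lam + J.sup rho + 1, fun j hj => by
      have h1 := le_sup (f := lam) hj
      have h2 := le_sup (f := rho) hj
      omega⟩
  have s1 : ∀ (k : ℕ → ℝ) (v : ℕ), ∑ x ∈ range X, (if x = v then k x else 0) =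
      if v < X then k v else 0 := by
    intro k v
    rw [sum_ite_eq' (range X) v k]
    simp only [mem_range]
  have s2 : ∀ (k : ℕ → ℝ) (v : ℕ), ∑ x ∈ range X, (if x + 1 = v + 1 then k x else 0) =
      if v < X then k v else 0 := by
    intro k v
    rw [← s1 k v]
    simp only [Nat.add_right_cancel_iff]
  have s3 : ∀ k : ℕ → ℝ, ∑ x ∈ range X, (if x + 1 = 0 then k x else 0) = 0 := by
    intro k
    simp
  obtain ⟨g, hg, hb⟩ := circ (J.disjSum (range X)) (Sum.elim rho id) (Sum.elim lam (· + 1)) _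
    (Sum.elim y fun x => F J lam rho y (x + 1)) ((cons_iff J lam rho X _).2 fun v => by
      simp only [Sum.elim_inl, Sum.elim_inr]
      have h1 := F_succ J lam rho y v
      have h2 : (if v < X then F J lam rho y (v + 1) else 0) = F J lam rho y (v + 1) := by
        split_ifs with e
        · rfl
        · exact (F_top y fun j hj => by have := hX j hj; omega).symm
      rw [s1 (fun x => F J lam rho y (x + 1)) v, h2]
      rcases v with _ | v
      · rw [s3]
        rw [F_zero] at h1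
        linarith
      · rw [s2 (fun x => F J lam rho y (x + 1)) v]
        have h3 : (if v < X then F J lam rho y (v + 1) else 0) = F J lam rho y (v + 1) := by
          split_ifs with e
          · rfl
          · exact (F_top y fun j hj => by have := hX j hj; omega).symm
        rw [h3]
        linarith) le_rfl
  refine ⟨fun j => g (Sum.inl j), fun j hj => hb (Sum.inl j) (inl_mem_disjSum.2 hj), fun x => ?_⟩
  have key : ∀ x < X, F J lam rho (fun j => g (Sum.inl j)) (x + 1) = g (Sum.inr x) := by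
    intro x
    induction x with
    | zero =>
      intro hx
      have h1 := (cons_iff J lam rho X _).1 hg 0
      rw [s1 (fun x => g (Sum.inr x)) 0, if_pos hx, s3] at h1
      rw [F_succ, F_zero]
      linarith
    | succ x ih =>
      intro hx
      have h1 := (cons_iff J lam rho X _).1 hg (x + 1)
      rw [s1 (fun x => g (Sum.inr x)) (x + 1), if_pos hx, s2 (fun x => g (Sum.inr x)) x,
        if_pos (by omega)] at h1
      rw [F_succ, ih (by omega)]
      linarith
  rcases x with _ | x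
  · simp [F_zero]
  · by_cases hx : x < X
    · rw [key x hx]
      obtain ⟨-, h1, h2⟩ := hb (Sum.inr x) (inr_mem_disjSum.2 (mem_range.2 hx))
      simp only [Sum.elim_inr] at h1 h2
      have h3 := Int.lt_floor_add_one (F J lam rho y (x + 1))
      have h4 := Int.ceil_lt_add_one (F J lam rho y (x + 1))
      rw [abs_le]
      constructor <;> linarith
    · rw [F_top _ fun j hj => by have := hX j hj; omega,
        F_top _ fun j hj => by have := hX j hj; omega]
      simp

lemma one_type (J : Finset ℕ) (lam rho d : ℕ → ℕ) (u : ℕ) (hd : ∀ j ∈ J, d j < u) :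
    ∃ e : ℕ → ℤ, (∀ j ∈ J, e j = -(d j : ℤ) ∨ (e j = (u : ℤ) - d j ∧ 0 < d j)) ∧
      ∀ x, |∑ j ∈ J, (if lam j < x then e j else 0) - ∑ j ∈ J, (if rho j < x then e j else 0)| ≤
        u := by
  rcases Nat.eq_zero_or_pos u with rfl | hu
  · refine ⟨fun _ => 0, fun j hj => absurd (hd j hj) (Nat.not_lt_zero _), fun x => by simp⟩
  have hu' : (0 : ℝ) < u := by exact_mod_cast hu
  obtain ⟨g, h1, h2⟩ := line J lam rho fun j => (d j : ℝ) / u
  have h3 : ∀ j ∈ J, g j = 0 ∨ (g j = 1 ∧ 0 < d j) := by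
    intro j hj
    obtain ⟨⟨z, hz⟩, h4, h5⟩ := h1 j hj
    have h6 : (0 : ℤ) ≤ ⌊(d j : ℝ) / u⌋ := Int.floor_nonneg.2 (by positivity)
    have h7 : ⌈(d j : ℝ) / u⌉ ≤ 1 := Int.ceil_le.2 (by
      rw [Int.cast_one, div_le_one hu']
      exact_mod_cast (hd j hj).le)
    rw [hz] at h4 h5 ⊢
    have h8 : ⌊(d j : ℝ) / u⌋ ≤ z := by exact_mod_cast h4
    have h9 : z ≤ ⌈(d j : ℝ) / u⌉ := by exact_mod_cast h5
    by_cases e : z = 0
    · left
      rw [e, Int.cast_zero]
    · right
      have e1 : z = 1 := by omega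
      refine ⟨by rw [e1, Int.cast_one], Nat.pos_of_ne_zero fun e0 => ?_⟩
      rw [e0] at h9
      simp only [Nat.cast_zero, zero_div, Int.ceil_zero] at h9
      omega
  refine ⟨fun j => if g j = 0 then -(d j : ℤ) else (u : ℤ) - d j, fun j hj => ?_, fun x => ?_⟩
  · rcases h3 j hj with e | ⟨e, e'⟩
    · exact Or.inl (if_pos e)
    · exact Or.inr ⟨if_neg (by rw [e]; exact one_ne_zero), e'⟩
  · have key : ∀ k : ℕ → ℕ, ((∑ j ∈ J, (if k j < x then
        (if g j = 0 then -(d j : ℤ) else (u : ℤ) - d j) else 0) : ℤ) : ℝ) =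
        u * (∑ j ∈ J, (if k j < x then g j else 0) -
          ∑ j ∈ J, (if k j < x then (d j : ℝ) / u else 0)) := by
      intro k
      rw [Int.cast_sum, ← sum_sub_distrib, mul_sum]
      refine sum_congr rfl fun j hj => ?_
      by_cases e : k j < x
      · simp only [if_pos e]
        rcases h3 j hj with e1 | ⟨e1, -⟩
        · rw [if_pos e1, e1]
          push_cast
          field_simp
          ring
        · rw [if_neg (by rw [e1]; exact one_ne_zero), e1]
          push_cast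
          field_simp
      · simp only [if_neg e]
        simp
    have h4 := h2 x
    unfold F at h4
    rw [← Int.cast_le (R := ℝ), Int.cast_abs, Int.cast_sub, key lam, key rho, ← mul_sub,
      abs_mul, abs_of_pos hu', Int.cast_natCast]
    refine mul_le_of_le_one_right hu'.le (le_of_eq_of_le ?_ h4)
    congr 1
    ring

end RoundAux

theorem round (J : Finset ℕ) (lam rho w d : ℕ → ℕ) (W : ℕ)
    (hw : ∀ j ∈ J, d j < w j ∧ w j ≤ W) :
    ∃ e : ℕ → ℤ, (∀ j ∈ J, e j = -(d j : ℤ) ∨ (e j = (w j : ℤ) - d j ∧ 0 < d j)) ∧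
      ∀ x : ℕ, |∑ j ∈ J.filter (fun j => lam j < x), e j -
        ∑ j ∈ J.filter (fun j => rho j < x), e j| ≤ (W : ℤ) ^ 2 := by
  choose e h1 h2 using fun u => RoundAux.one_type (J.filter fun j => w j = u) lam rho d u
    fun j hj => (mem_filter.1 hj).2 ▸ (hw j (mem_filter.1 hj).1).1
  refine ⟨fun j => e (w j) j, fun j hj => h1 (w j) j (mem_filter.2 ⟨hj, rfl⟩), fun x => ?_⟩
  have hm : ∀ j ∈ J, w j ∈ Icc 1 W := fun j hj => by
    have := hw j hj
    rw [mem_Icc]
    omega
  have key : ∀ k : ℕ → ℕ, ∑ j ∈ J.filter (fun j => k j < x), e (w j) j =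
      ∑ u ∈ Icc 1 W, ∑ j ∈ J.filter (fun j => w j = u), (if k j < x then e u j else 0) := by
    intro k
    rw [sum_filter, ← sum_fiberwise_of_maps_to hm]
    refine sum_congr rfl fun u _ => sum_congr rfl fun j hj => ?_
    rw [(mem_filter.1 hj).2]
  rw [key lam, key rho, ← sum_sub_distrib]
  refine (abs_sum_le_sum_abs _ _).trans ?_
  refine (sum_le_card_nsmul _ _ (W : ℤ) fun u hu => (h2 u x).trans ?_).trans ?_
  · exact_mod_cast (mem_Icc.1 hu).2
  · simp [sq]

end Pool.Agent.Lib.MP_f20cd2_co.EX
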