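import Pool.Agent.Lib.MP_f20cd2_co.DP.NB
import Pool.Agent.Lib.MP_f20cd2_co.DP.Col
import Pool.Agent.Lib.MP_f20cd2_co.DP.Cover
import Pool.Agent.Lib.MP_f20cd2_co.PL.Basic

/-!
Almost all vertices lie on disjoint paths of equal length that can be deleted.
-/

set_option autoImplicit false
set_option linter.unusedSectionVars false

namespace Pool.Agent.Lib.MP_f20cd2_co.EX

open Finset
open Pool.Agent.Lib.MP_f20cd2_co.H83 (Conn Cells)
open Pool.Agent.Lib.MP_f20cd2_co.PL
open Pool.Agent.Lib.MP_f20cd2_co.DP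
open scoped Classical

variable {V : Type} [Fintype V] [DecidableEq V] {G : SimpleGraph V}

/-- A stretch of a path is connected. -/
theorem conn_run (x : ℕ → V) : ∀ a : ℕ, 0 < a → (∀ i, i + 1 < a → G.Adj (x i) (x (i + 1))) →
    Conn G ((range a).image x) := by
  intro a
  induction a with
  | zero => intro h; omega
  | succ a ih =>
    intro _ h
    rcases Nat.eq_zero_or_pos a with rfl | ha
    · simpa using Conn.single (G := G) (x 0)
    · rw [range_add_one, image_insert]
      have h1 := h (a - 1) (by omega)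
      rw [Nat.sub_add_cancel ha] at h1
      exact (ih ha fun i hi => h i (by omega)).insert
        (mem_image_of_mem _ (mem_range.2 (by omega))) h1.symm

/-- The number of vertices on paths of equal length. -/
theorem card_segs {ι : Type} {P : Finset ι} {l : ℕ} {w : ι → ℕ → V}
    (h : Pf G P (fun _ => l - 1) w) :
    (P.biUnion fun σ => (range l).image (w σ)).card = P.card * l := by
  rw [card_biUnion, sum_const_nat]
  · intro σ hσ
    rw [card_image_of_injOn, card_range]
    intro i hi j hj e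
    have h1 := mem_range.1 (mem_coe.1 hi)
    have h2 := mem_range.1 (mem_coe.1 hj)
    exact (h.inj σ hσ σ hσ i (by omega) j (by omega) e).2
  · intro σ hσ σ' hσ' hne
    refine disjoint_left.2 fun v h1 h2 => hne ?_
    obtain ⟨i, hi, rfl⟩ := mem_image.1 h1
    obtain ⟨j, hj, e⟩ := mem_image.1 h2
    have h3 := mem_range.1 hi
    have h4 := mem_range.1 hj
    exact (h.inj σ hσ σ' hσ' i (by omega) j (by omega) e.symm).1

/-- The paths can be numbered. -/
theorem reindex {ι : Type} {P : Finset ι} {c : ℕ} {w : ι → ℕ → V} (h : Pf G P (fun _ => c) w)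
    (v0 : V) : ∃ w' : ℕ → ℕ → V, Pf G (range P.card) (fun _ => c) w' ∧
      (∀ a < P.card, ∃ σ ∈ P, w' a = w σ) ∧ ∀ σ ∈ P, ∃ a < P.card, w' a = w σ := by
  refine ⟨fun a => if ha : a < P.card then w (P.equivFin.symm ⟨a, ha⟩) else fun _ => v0,
    ⟨fun a ha i hi => ?_, fun a ha b hb i hi j hj e => ?_⟩, fun a ha => ?_, fun σ hσ => ?_⟩
  · simp only [dif_pos (mem_range.1 ha)]
    exact h.adj _ (P.equivFin.symm _).2 i hi
  · simp only [dif_pos (mem_range.1 ha), dif_pos (mem_range.1 hb)] at e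
    obtain ⟨h1, h2⟩ := h.inj _ (P.equivFin.symm _).2 _ (P.equivFin.symm _).2 i hi j hj e
    exact ⟨congrArg Fin.val (P.equivFin.symm.injective (Subtype.ext h1)), h2⟩
  · exact ⟨_, (P.equivFin.symm ⟨a, ha⟩).2, by simp only [dif_pos ha]⟩
  · refine ⟨P.equivFin ⟨σ, hσ⟩, (P.equivFin ⟨σ, hσ⟩).2, ?_⟩
    simp only [dif_pos (P.equivFin ⟨σ, hσ⟩).2, Fin.eta, Equiv.symm_apply_apply]

/-- A set is covered by paths of equal length up to the tails. -/
theorem cover_segs (G : SimpleGraph V) (A : Finset V) {l : ℕ} (hl : 0 < l) (v0 : V) :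
    ∃ (N : ℕ) (w : ℕ → ℕ → V) (I : Finset V), Pf G (range N) (fun _ => l - 1) w ∧ Ind G I ∧
      (∀ a < N, ∀ i < l, w a i ∈ A) ∧ A.card ≤ N * l + I.card * l := by
  obtain ⟨I, n, w, h1, -, h2, h3, h4⟩ := cover G A
  set P : Finset ((_ : V) × ℕ) := I.sigma fun σ => range ((n σ + 1) / l) with hP
  have hb : ∀ p ∈ P, p.1 ∈ I ∧ p.2 * l + l ≤ n p.1 + 1 := by
    intro p hp
    obtain ⟨h5, h6⟩ := mem_sigma.1 hp
    have h7 := Nat.mul_le_mul_right l (Nat.succ_le_of_lt (mem_range.1 h6))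
    have h8 := Nat.div_mul_le_self (n p.1 + 1) l
    rw [Nat.succ_mul] at h7
    exact ⟨h5, by omega⟩
  have hPf : Pf G P (fun _ => l - 1) fun p i => w p.1 (p.2 * l + i) := by
    refine ⟨fun p hp i hi => ?_, fun p hp p' hp' i hi i' hi' e => ?_⟩
    · obtain ⟨h5, h6⟩ := hb p hp
      exact h1.adj _ h5 _ (by omega)
    · obtain ⟨h5, h6⟩ := hb p hp
      obtain ⟨h7, h8⟩ := hb p' hp'
      obtain ⟨h9, h10⟩ := h1.inj _ h5 _ h7 _ (by omega) _ (by omega) e
      have h11 : p.2 = p'.2 := by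
        have e1 : (p.2 * l + i) / l = p.2 := by
          rw [mul_comm, Nat.mul_add_div hl, Nat.div_eq_of_lt (by omega), add_zero]
        have e2 : (p'.2 * l + i') / l = p'.2 := by
          rw [mul_comm, Nat.mul_add_div hl, Nat.div_eq_of_lt (by omega), add_zero]
        rw [← e1, h10, e2]
      refine ⟨Sigma.ext h9 (heq_of_eq h11), ?_⟩
      rw [h11] at h10
      omega
  obtain ⟨w', a1, a2, -⟩ := reindex hPf v0
  refine ⟨_, w', I, a1, h2, fun a ha i hi => ?_, ?_⟩
  · obtain ⟨p, hp, e⟩ := a2 a ha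
    obtain ⟨h5, h6⟩ := hb p hp
    rw [e]
    exact h3 _ h5 _ (by omega)
  · have h5 : A ⊆ I.biUnion fun σ => (range (n σ + 1)).image (w σ) := fun v hv => by
      obtain ⟨σ, hσ, i, hi, e⟩ := h4 v hv
      exact mem_biUnion.2 ⟨σ, hσ, mem_image.2 ⟨i, mem_range.2 (by omega), e.symm⟩⟩
    refine (card_le_card h5).trans (card_biUnion_le.trans ?_)
    rw [hP, card_sigma, sum_mul, ← smul_eq_mul I.card l, ← sum_const, ← sum_add_distrib]
    refine sum_le_sum fun σ _ => card_image_le.trans ?_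
    rw [card_range, card_range]
    have h6 := Nat.div_add_mod' (n σ + 1) l
    have h7 := Nat.mod_lt (n σ + 1) hl
    omega

/-- Disjoint paths on `l` vertices that cover all but a small share of the vertices, such that
every separator has many vertices outside them. -/
theorem segs (K0 l g : ℕ) (hl : 0 < l) : ∃ t : ℕ, ∀ (V : Type) [Fintype V] [DecidableEq V]
    (G : SimpleGraph V), RT G univ (t : ℝ) → (∃ u v, u ≠ v ∧ ¬ G.Adj u v) →
    ∃ (N : ℕ) (w : ℕ → ℕ → V) (D : Finset V), Pf G (range N) (fun _ => l - 1) w ∧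
      (∀ v, v ∈ D ↔ ∃ σ < N, ∃ i < l, v = w σ i) ∧ D.card = N * l ∧
      g * (Fintype.card V - N * l) ≤ Fintype.card V ∧ RT G (univ \ D) K0 := by
  obtain ⟨q, hq⟩ : ∃ q, q = 6 * g + 1 := ⟨_, rfl⟩
  obtain ⟨r, hr⟩ : ∃ r, r = 16 * K0 + 1 := ⟨_, rfl⟩
  obtain ⟨M, hM⟩ : ∃ M, M = q * (2 * r + 3) := ⟨_, rfl⟩
  have hq0 : 0 < q := by omega
  have hrM : r < M := by
    have : 1 * (2 * r + 3) ≤ q * (2 * r + 3) := Nat.mul_le_mul_right _ hq0
    omega
  obtain ⟨L, hL, hP⟩ := exists_L M r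
  obtain ⟨c, hc⟩ : ∃ c, c = M * L := ⟨_, rfl⟩
  obtain ⟨β, hβ⟩ := nb_exists l q (q * l) hq0
  refine ⟨2 * r * AS.Cst (20 * c) (201 * c) + 1 + 2 * (10 * c) +
    2 * K0 * (1 + β * (1 + 4 * (10 * c))) + q * (q * l), ?_⟩
  intro V _ _ G hT hnc
  have : Nonempty V := ⟨hnc.choose⟩
  set t := 2 * r * AS.Cst (20 * c) (201 * c) + 1 + 2 * (10 * c) +
    2 * K0 * (1 + β * (1 + 4 * (10 * c))) + q * (q * l) with ht
  set n := Fintype.card V with hn
  have hE := hT.expd (Nat.cast_nonneg _) hnc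
  have hV : 2 * t + 2 ≤ n := by exact_mod_cast hT.card_ge hnc
  obtain ⟨χ, Op, hLN, hcol⟩ := col_exists (G := G) M L r hrM hL hP
    (fun I hI => (mul_le_mul_of_nonneg_right (by rw [← hc]; exact_mod_cast (by omega))
      (Nat.cast_nonneg _)).trans (hE I hI)) hT (by rw [← hc]; exact_mod_cast (by omega))
  rw [← hc] at hLN hcol
  obtain ⟨N0, w, I, hw, hI, hA, hcard⟩ := cover_segs G (univ.filter fun v => χ v = 0) hl hnc.choose
  have hinj : ∀ a < N0, ∀ b < N0, ∀ v, v ∈ (range l).image (w a) → v ∈ (range l).image (w b) →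
      a = b := by
    intro a ha b hb v h1 h2
    obtain ⟨i, hi, rfl⟩ := mem_image.1 h1
    obtain ⟨j, hj, e⟩ := mem_image.1 h2
    have h3 := mem_range.1 hi
    have h4 := mem_range.1 hj
    exact (hw.inj a (mem_range.2 ha) b (mem_range.2 hb) i (by omega) j (by omega) e.symm).1
  have hNq := Nat.div_mul_le_self N0 q
  have hlt : ∀ k : Fin (N0 / q), ∀ i < q, k.val * q + i < N0 := by
    intro k i hi
    have h1 := Nat.mul_le_mul_right q (Nat.succ_le_of_lt k.2)
    rw [Nat.succ_mul] at h1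
    omega
  obtain ⟨f, Bd, hf, hB, hNB⟩ := hβ V G (Fin (N0 / q)) univ
    (fun k i => (range l).image (w (k.val * q + i)))
    (fun k _ i _ => card_image_le.trans (card_range l).le) fun k _ k' _ i hi i' hi' v h1 h2 => by
      have h3 := hinj _ (hlt k i hi) _ (hlt k' i' hi') v h1 h2
      have e1 : (k.val * q + i) / q = k.val := by
        rw [mul_comm, Nat.mul_add_div hq0, Nat.div_eq_of_lt hi, add_zero]
      have e2 : (k'.val * q + i') / q = k'.val := by
        rw [mul_comm, Nat.mul_add_div hq0, Nat.div_eq_of_lt hi', add_zero]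
      have h4 : k.val = k'.val := by rw [← e1, h3, e2]
      refine ⟨Fin.ext h4, ?_⟩
      rw [h4] at h3
      omega
  set P1 := (univ : Finset (Fin (N0 / q))).image fun k => k.val * q + f k with hP1
  set P2 := (range N0).filter fun a => ∃ v ∈ Bd, v ∈ (range l).image (w a) with hP2
  set Kp := (range (N0 / q * q) \ P1) \ P2 with hKp
  have hK : ∀ a ∈ Kp, a < N0 / q * q := fun a ha =>
    mem_range.1 (mem_sdiff.1 (mem_sdiff.1 ha).1).1
  have hPf : Pf G Kp (fun _ => l - 1) w :=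
    ⟨fun a ha => hw.adj a (mem_range.2 ((hK a ha).trans_le hNq)), fun a ha b hb =>
      hw.inj a (mem_range.2 ((hK a ha).trans_le hNq)) b (mem_range.2 ((hK b hb).trans_le hNq))⟩
  obtain ⟨w', a1, a2, a3⟩ := reindex hPf hnc.choose
  refine ⟨Kp.card, w', Kp.biUnion fun σ => (range l).image (w σ), a1, fun v => ?_, card_segs hPf,
    ?_, rt_del (β := β) hLN (fun v hv => ?_) (hNB.mono fun v hv => ?_) hT (by omega) (by omega)
      (by exact_mod_cast (by omega))⟩
  · simp only [mem_biUnion, mem_image, mem_range]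
    constructor
    · rintro ⟨σ, hσ, i, hi, rfl⟩
      obtain ⟨a, ha, e⟩ := a3 σ hσ
      exact ⟨a, ha, i, hi, by rw [e]⟩
    · rintro ⟨a, ha, i, hi, rfl⟩
      obtain ⟨σ, hσ, e⟩ := a2 a ha
      exact ⟨σ, hσ, i, hi, by rw [e]⟩
  · have h1 : P1.card ≤ N0 / q := card_image_le.trans (by simp)
    have h2 : P2.card ≤ Bd.card := by
      have h3 : ∀ a ∈ P2, ∃ v, v ∈ Bd ∧ v ∈ (range l).image (w a) := fun a ha => (mem_filter.1 ha).2
      choose! y hy using h3
      exact card_le_card_of_injOn y (fun a ha => (hy a ha).1) fun a ha b hb e =>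
        hinj a (mem_range.1 (mem_filter.1 ha).1) b (mem_range.1 (mem_filter.1 hb).1) _
          (hy a ha).2 (e ▸ (hy b hb).2)
    have h3 : N0 / q * q ≤ Kp.card + N0 / q + Bd.card := by
      have h4 := le_card_sdiff P2 (range (N0 / q * q) \ P1)
      have h5 := le_card_sdiff P1 (range (N0 / q * q))
      rw [card_range] at h5
      rw [← hKp] at h4
      omega
    have h4 : N0 ≤ Kp.card + N0 / q + Bd.card + q := by
      have h5 := Nat.div_add_mod' N0 q
      have h6 := Nat.mod_lt N0 hq0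
      omega
    have h5 : N0 * l ≤ n := by
      have := card_segs hw
      rw [card_range] at this
      exact this ▸ card_le_univ _
    have h6 : q * (univ.filter fun v => χ v ≠ 0).card ≤ 2 * n := by
      have b1 : q * ((2 * r + 1) * L + 2) ≤ c := by
        rw [hc, hM, mul_assoc]
        exact Nat.mul_le_mul_left _ (by nlinarith)
      have b2 := Nat.mul_div_le n c
      calc _ ≤ q * (((2 * r + 1) * L + 2) * (n / c + 1)) := Nat.mul_le_mul_left _ hcol
        _ = q * ((2 * r + 1) * L + 2) * (n / c + 1) := by ring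
        _ ≤ c * (n / c + 1) := Nat.mul_le_mul_right _ b1
        _ ≤ _ := by rw [mul_add]; omega
    have h7 : q * (I.card * l) ≤ n := by
      have b1 : t * I.card ≤ (nbr G I).card := by exact_mod_cast hE I hI
      have b2 : q * l ≤ t := by
        have : 1 * (q * l) ≤ q * (q * l) := Nat.mul_le_mul_right _ hq0
        omega
      calc _ = q * l * I.card := by ring
        _ ≤ t * I.card := Nat.mul_le_mul_right _ b2
        _ ≤ _ := b1.trans (card_le_univ _)
    have h8 : (univ.filter fun v => χ v = 0).card + (univ.filter fun v => χ v ≠ 0).card = n :=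
      (card_filter_add_card_filter_not (s := univ) fun v => χ v = 0).trans card_univ
    have h9 : q * (N0 / q * l) ≤ n := by
      calc _ = N0 / q * q * l := by ring
        _ ≤ N0 * l := Nat.mul_le_mul_right _ hNq
        _ ≤ _ := h5
    have h10 : q * (Bd.card * l) ≤ n := by
      calc _ = q * l * Bd.card := by ring
        _ ≤ _ := hB
    have h11 := Nat.mul_le_mul_right l h4
    rw [add_mul, add_mul, add_mul] at h11
    obtain ⟨d, hd⟩ : ∃ d, d = n - Kp.card * l := ⟨_, rfl⟩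
    have h12 : q * d ≤ q * ((univ.filter fun v => χ v ≠ 0).card + I.card * l + N0 / q * l +
        Bd.card * l + q * l) := Nat.mul_le_mul_left _ (by omega)
    rw [mul_add, mul_add, mul_add, mul_add] at h12
    have h13 : q * d = 6 * (g * d) + d := by rw [hq]; ring
    rw [← hd]
    omega
  · obtain ⟨σ, hσ, h1⟩ := mem_biUnion.1 hv
    obtain ⟨i, hi, rfl⟩ := mem_image.1 h1
    exact (mem_filter.1 (hA σ ((hK σ hσ).trans_le hNq) i (mem_range.1 hi))).2
  · obtain ⟨σ, hσ, h1⟩ := mem_biUnion.1 hv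
    have h2 := hK σ hσ
    obtain ⟨h3, h4⟩ := mem_sdiff.1 hσ
    have h5 : σ / q < N0 / q := (Nat.div_lt_iff_lt_mul hq0).2 h2
    have h6 : σ / q * q + σ % q = σ := Nat.div_add_mod' σ q
    refine mem_sdiff.2 ⟨mem_unp.2 ⟨⟨σ / q, h5⟩, mem_univ _, σ % q, Nat.mod_lt _ hq0, fun e => ?_,
      by simpa only [h6] using h1⟩, fun h7 => h4 ?_⟩
    · exact (mem_sdiff.1 h3).2 (mem_image.2 ⟨⟨σ / q, h5⟩, mem_univ _, by rw [← e]; exact h6⟩)
    · exact mem_filter.2 ⟨mem_range.2 (h2.trans_le hNq), v, h7, h1⟩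

/-- Small parts are cut out of the first `N1` paths. -/
theorem cut_segs {N l T N1 : ℕ} {w : ℕ → ℕ → V} (hw : Pf G (range N) (fun _ => l - 1) w)
    (hT : T < l) (hN : N1 ≤ N) {ι : Type} (J : Finset ι) (a : ι → ℕ) (h0 : ∀ i ∈ J, 0 < a i)
    (h1 : ∀ i ∈ J, a i ≤ T) (hs : ∑ i ∈ J, a i ≤ N1 * (l - T)) :
    ∃ p : ι → Finset V, (∀ i ∈ J, (p i).card = a i ∧ Conn G (p i) ∧
        ∀ v ∈ p i, ∃ σ < N1, ∃ j < l, v = w σ j) ∧
      ∀ i ∈ J, ∀ j ∈ J, i ≠ j → Disjoint (p i) (p j) := by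
  obtain ⟨key, hkey⟩ : ∃ key : ι → ℕ, ∀ i ∈ J, ∀ j ∈ J, key i = key j → i = j := by
    refine ⟨fun i => if h : i ∈ J then (J.equivFin ⟨i, h⟩ : ℕ) else 0, fun i hi j hj e => ?_⟩
    simp only [dif_pos hi, dif_pos hj] at e
    exact congrArg Subtype.val (J.equivFin.injective (Fin.ext e))
  set A : ι → ℕ := fun i => ∑ j ∈ J.filter (fun j => key j < key i), a j with hA
  have hA1 : ∀ i ∈ J, ∀ S ⊆ J, i ∈ S → (∀ j ∈ J, key j < key i → j ∈ S) →
      A i + a i ≤ ∑ j ∈ S, a j := by
    intro i hi S _ h2 h3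
    rw [add_comm, hA, ← sum_insert (f := a) (by simp)]
    exact sum_le_sum_of_subset (insert_subset h2 fun j hj =>
      h3 j (mem_filter.1 hj).1 (mem_filter.1 hj).2)
  have hd : 0 < l - T := by omega
  have hσ : ∀ i ∈ J, A i / (l - T) < N1 := by
    intro i hi
    have h2 := hA1 i hi J Subset.rfl hi fun j hj _ => hj
    have h3 := h0 i hi
    exact (Nat.div_lt_iff_lt_mul hd).2 (by omega)
  have hm : ∀ i ∈ J, ∀ x < a i, A i % (l - T) + x < l - 1 := by
    intro i hi x hx
    have h2 := Nat.mod_lt (A i) hd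
    have h3 := h1 i hi
    omega
  have hinj : ∀ i ∈ J, ∀ j ∈ J, ∀ x < a i, ∀ y < a j,
      w (A i / (l - T)) (A i % (l - T) + x) = w (A j / (l - T)) (A j % (l - T) + y) →
      A i + x = A j + y := by
    intro i hi j hj x hx y hy e
    obtain ⟨h2, h3⟩ := hw.inj _ (mem_range.2 ((hσ i hi).trans_le hN)) _
      (mem_range.2 ((hσ j hj).trans_le hN)) _ (hm i hi x hx).le _ (hm j hj y hy).le e
    have h4 := Nat.div_add_mod (A i) (l - T)
    have h5 := Nat.div_add_mod (A j) (l - T)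
    rw [h2] at h4
    omega
  refine ⟨fun i => (range (a i)).image fun x => w (A i / (l - T)) (A i % (l - T) + x),
    fun i hi => ⟨?_, conn_run _ _ (h0 i hi) fun x hx => ?_, fun v hv => ?_⟩,
    fun i hi j hj hne => disjoint_left.2 fun v h2 h3 => ?_⟩
  · rw [card_image_of_injOn, card_range]
    intro x hx y hy e
    have := hinj i hi i hi x (mem_range.1 (mem_coe.1 hx)) y (mem_range.1 (mem_coe.1 hy)) e
    omega
  · exact hw.adj _ (mem_range.2 ((hσ i hi).trans_le hN)) _ (hm i hi x (by omega))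
  · obtain ⟨x, hx, rfl⟩ := mem_image.1 hv
    exact ⟨_, hσ i hi, _, by have := hm i hi x (mem_range.1 hx); omega, rfl⟩
  · obtain ⟨x, hx, rfl⟩ := mem_image.1 h2
    obtain ⟨y, hy, e⟩ := mem_image.1 h3
    have h4 := mem_range.1 hx
    have h5 := mem_range.1 hy
    have h6 := hinj i hi j hj x h4 y h5 e.symm
    rcases lt_trichotomy (key i) (key j) with h | h | h
    · have : A i + a i ≤ A j := hA1 i hi _ (filter_subset _ _) (mem_filter.2 ⟨hi, h⟩)
        fun k hk h7 => mem_filter.2 ⟨hk, h7.trans h⟩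
      omega
    · exact hne (hkey i hi j hj h)
    · have : A j + a j ≤ A i := hA1 j hj _ (filter_subset _ _) (mem_filter.2 ⟨hj, h⟩)
        fun k hk h7 => mem_filter.2 ⟨hk, h7.trans h⟩
      omega

end Pool.Agent.Lib.MP_f20cd2_co.EX
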