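import Pool.Agent.Lib.MP_f20cd2_co.DP.MainS

/-!
A dominating cycle inside an interval of colours, with short routes inside these colours.
-/

set_option autoImplicit false
set_option linter.unusedSectionVars false

namespace Pool.Agent.Lib.MP_f20cd2_co.EX

open Finset
open Pool.Agent.Lib.MP_f20cd2_co.H83 (Conn Cells)
open Pool.Agent.Lib.MP_f20cd2_co.PL
open Pool.Agent.Lib.MP_f20cd2_co.DP
open Pool.Agent.Lib.MP_f20cd2_co.HM (dg)
open scoped Classical

variable {V : Type} [Fintype V] [DecidableEq V] {G : SimpleGraph V}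

namespace WorldAux

/-- Keep the colours `a, ..., a + q` only. -/
lemma sub_ln {r s : ℕ} {χ : V → ℕ} {Op : V → Finset V} (h : LN G r s χ Op) {a q : ℕ}
    (ha : a + q ≤ r) :
    LN G q s (fun v => if a ≤ χ v ∧ χ v ≤ a + q then χ v - a else q + 1)
      (fun u => (Op u).filter fun w => a ≤ χ w ∧ χ w ≤ a + q) := by
  have key : ∀ j ≤ q, ∀ v, (if a ≤ χ v ∧ χ v ≤ a + q then χ v - a else q + 1) = j ↔
      χ v = a + j := by
    intro j hj v
    split_ifs with h1 <;> omega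
  refine ⟨fun u w hw => h.adj u w (mem_filter.1 hw).1,
    fun u => (card_filter_le _ _).trans (h.card u),
    fun w => le_trans (card_le_card fun u hu => ?_) (h.load w), fun u j hj => ?_, fun j hj => ?_⟩
  · exact mem_filter.2 ⟨mem_univ _, (mem_filter.1 (mem_filter.1 hu).2).1⟩
  · refine (h.rich u (a + j) (by omega)).trans (card_le_card fun w hw => ?_)
    obtain ⟨h1, h2⟩ := mem_filter.1 hw
    exact mem_filter.2 ⟨mem_filter.2 ⟨h1, by omega⟩, (key j hj w).2 h2⟩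
  · have e : (univ.filter fun v => (if a ≤ χ v ∧ χ v ≤ a + q then χ v - a else q + 1) = j + 1)
        = univ.filter fun v => χ v = a + j + 1 :=
      filter_congr fun v _ => key (j + 1) hj v
    rw [e]
    exact h.tree (a + j) (by omega)

/-- Seeds, with routes that use options only. -/
lemma seeds4 {r s : ℕ} {χ : V → ℕ} {Op : V → Finset V} (h : LN G r s χ Op) :
    ∃ (I : Finset V) (x : V → ℕ → V) (Sd : Finset V) (ft : ℕ → V → V),
      Pf G I (fun _ => 7) x ∧ (∀ σ ∈ I, ∀ i ≤ 7, x σ i ∈ Sd) ∧ (∀ v ∈ Sd, χ v = 0) ∧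
        LS G r (lane χ) Sd ft ∧ (∀ _ : V, I.Nonempty) ∧
        ∀ P : ℕ → V → Prop, (∀ d v, P d v → P (d + 1) v) →
          (∀ d v w, (og G Op).Adj v w → (∃ u, w ∈ Op u) → P d w → P (d + 1) v) →
          (∀ σ ∈ I, ∃ i ≤ 7, P 0 (x σ i)) → ∀ u, P 17 u := by
  choose x h0 h1 h2 h3 using fun u => SeedsAux.exists_path h u 7 le_rfl
  let Ω : V → Finset V := fun u => (range 8).biUnion fun i => insert (x u i) (Op (x u i))
  have hx : ∀ u, ∀ i ≤ 7, x u i ∈ Ω u := fun u i hi =>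
    mem_biUnion.2 ⟨i, mem_range.2 (by omega), mem_insert_self _ _⟩
  have hop : ∀ u, ∀ i ≤ 7, Op (x u i) ⊆ Ω u := fun u i hi w hw =>
    mem_biUnion.2 ⟨i, mem_range.2 (by omega), mem_insert_of_mem hw⟩
  obtain ⟨I, hI, hmeet⟩ := SeedsAux.exists_maximal Ω fun u => ⟨_, hx u 0 (by omega)⟩
  have hown : ∀ σ ∈ I, ∀ σ' ∈ I, ∀ i ≤ 7, ∀ i' ≤ 7, x σ i = x σ' i' → σ = σ' := by
    intro σ hσ σ' hσ' i hi i' hi' e
    by_contra hne
    exact disjoint_left.1 (hI σ hσ σ' hσ' hne) (hx σ i hi) (e ▸ hx σ' i' hi')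
  have hbl : ∀ v, ∃ k : V, ∀ σ ∈ I, ∀ i ≤ 7, x σ i = v → k = σ := by
    intro v
    by_cases hv : ∃ σ ∈ I, ∃ i ≤ 7, x σ i = v
    · obtain ⟨σ, hσ, i, hi, e⟩ := hv
      exact ⟨σ, fun σ' hσ' i' hi' e' => hown σ hσ σ' hσ' i hi i' hi' (e.trans e'.symm)⟩
    · exact ⟨v, fun σ hσ i hi e => absurd ⟨σ, hσ, i, hi, e⟩ hv⟩
  choose bl hbl using hbl
  let Sd : Finset V := I.biUnion fun σ => (range 8).image (x σ)
  have hSd : ∀ v ∈ Sd, ∃ σ ∈ I, ∃ i ≤ 7, x σ i = v := by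
    intro v hv
    obtain ⟨σ, hσ, hv⟩ := mem_biUnion.1 hv
    obtain ⟨i, hi, e⟩ := mem_image.1 hv
    rw [mem_range] at hi
    exact ⟨σ, hσ, i, by omega, e⟩
  have hS0 : ∀ v ∈ Sd, χ v = 0 := fun v hv => by
    obtain ⟨σ, -, i, hi, rfl⟩ := hSd v hv
    exact h2 σ i hi
  obtain ⟨ft, hft⟩ := ls_of h Sd hS0 bl
    (fun k => by
      have hs : (Sd.filter fun v => bl v = k) ⊆ (range 8).image (x k) := by
        intro v hv
        rw [mem_filter] at hv
        obtain ⟨σ, hσ, i, hi, e⟩ := hSd v hv.1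
        have : k = σ := hv.2.symm.trans (hbl v σ hσ i hi e)
        subst this
        exact mem_image.2 ⟨i, mem_range.2 (by omega), e⟩
      have := card_image_le (s := range 8) (f := x k)
      rw [card_range] at this
      exact (card_le_card hs).trans this)
    (fun u hu v hv hb => by
      obtain ⟨σ, hσ, i, hi, e⟩ := hSd u hu
      obtain ⟨σ', hσ', i', hi', e'⟩ := hSd v hv
      rw [hbl u σ hσ i hi e, hbl v σ' hσ' i' hi' e'] at hb
      rw [← e, ← e']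
      exact (hI σ hσ σ' hσ' hb).mono (hop σ i hi) (hop σ' i' hi'))
  refine ⟨I, x, Sd, ft, ⟨?_, ?_⟩, ?_, hS0, hft, fun u => ?_, ?_⟩
  · intro σ _ i hi
    exact h.adj _ _ (h1 σ i hi)
  · intro σ hσ σ' hσ' i hi i' hi' e
    have := hown σ hσ σ' hσ' i hi i' hi' e
    subst this
    exact ⟨rfl, h3 σ i hi i' hi' e⟩
  · intro σ hσ i hi
    exact mem_biUnion.2 ⟨σ, hσ, mem_image.2 ⟨i, mem_range.2 (by omega), rfl⟩⟩
  · obtain ⟨σ, hσ, -⟩ := hmeet u
    exact ⟨σ, hσ⟩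
  intro P mono step base u
  have mono' : ∀ d d' v, d ≤ d' → P d v → P d' v := fun d d' v hd hp => by
    induction d', hd using Nat.le_induction with
    | base => exact hp
    | succ m _ ih => exact mono _ _ ih
  have ad : ∀ v w, w ∈ Op v → (og G Op).Adj v w := fun v w hw => ⟨h.adj v w hw, Or.inl hw⟩
  have xo : ∀ σ, ∀ i ≤ 7, ∃ v, x σ i ∈ Op v := fun σ i hi => by
    cases i with
    | zero => exact ⟨σ, h0 σ⟩
    | succ i => exact ⟨_, h1 σ i (by omega)⟩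
  have down : ∀ σ d k, ∀ i, i + k ≤ 7 → P d (x σ (i + k)) → P (d + k) (x σ i) := by
    intro σ d k
    induction k with
    | zero => exact fun i _ hp => hp
    | succ k ih =>
      intro i hi hp
      exact step _ _ _ (ad _ _ (h1 σ i (by omega))) (xo σ (i + 1) (by omega))
        (ih (i + 1) (by omega) (by rwa [show i + 1 + k = i + (k + 1) by omega]))
  have up : ∀ σ d i, P d (x σ i) → ∀ k, i + k ≤ 7 → P (d + k) (x σ (i + k)) := by
    intro σ d i hp k
    induction k with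
    | zero => exact fun _ => hp
    | succ k ih =>
      intro hk
      exact step _ _ _ (ad _ _ (h1 σ (i + k) (by omega))).symm (xo σ (i + k) (by omega))
        (ih (by omega))
  obtain ⟨σ, hσ, w, hw, hw'⟩ := hmeet u
  obtain ⟨i0, hi0, hb⟩ := base σ hσ
  have a1 : ∀ j ≤ 7, P 7 (x σ j) := fun j hj => by
    rcases le_total j i0 with c | c
    · obtain ⟨k, rfl⟩ := Nat.exists_eq_add_of_le c
      exact mono' _ _ _ (by omega) (down σ 0 k j hi0 hb)
    · obtain ⟨k, rfl⟩ := Nat.exists_eq_add_of_le c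
      exact mono' _ _ _ (by omega) (up σ 0 i0 hb k hj)
  have a2 : P 8 w := by
    obtain ⟨j, hj, hw'⟩ := mem_biUnion.1 hw'
    rw [mem_range] at hj
    rcases mem_insert.1 hw' with rfl | hw'
    · exact mono _ _ (a1 j (by omega))
    · exact step _ _ _ (ad _ _ hw').symm (xo σ j (by omega)) (a1 j (by omega))
  obtain ⟨j, hj, hw⟩ := mem_biUnion.1 hw
  rw [mem_range] at hj
  have a3 : P 9 (x u j) := by
    rcases mem_insert.1 hw with rfl | hw
    · exact mono _ _ a2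
    · exact step _ _ _ (ad _ _ hw) ⟨_, hw⟩ a2
  have a4 : P 16 (x u 0) :=
    mono' _ _ _ (by omega) (down u 9 j 0 (by omega) (by rwa [Nat.zero_add]))
  exact step _ _ _ (ad _ _ (h0 u)) ⟨_, h0 u⟩ a4

/-- The vertices with a route of at most `d` steps through `W` to `l`. -/
def lev (H : SimpleGraph V) (W : Finset V) (l : List V) : ℕ → V → Prop
  | 0, v => v ∈ l
  | d + 1, v => lev H W l d v ∨ ∃ w ∈ W, H.Adj v w ∧ lev H W l d w

lemma forest (H : SimpleGraph V) (W : Finset V) (l : List V) {D : ℕ} (h : ∀ v, lev H W l D v) :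
    ∃ (par : V → V) (dp : V → ℕ), (∀ v, dp v ≤ D) ∧ (∀ v, dp v = 0 ↔ v ∈ l) ∧
      ∀ v, v ∉ l → H.Adj v (par v) ∧ par v ∈ W ∧ dp (par v) < dp v := by
  have ex : ∀ v, ∃ d, lev H W l d v := fun v => ⟨D, h v⟩
  have h0 : ∀ v, Nat.find (ex v) = 0 ↔ v ∈ l := fun v => Nat.find_eq_zero (ex v)
  have key : ∀ v, ∃ w, v ∉ l → H.Adj v w ∧ w ∈ W ∧ Nat.find (ex w) < Nat.find (ex v) := by
    intro v
    by_cases hv : v ∈ l
    · exact ⟨v, fun h' => absurd hv h'⟩
    obtain ⟨d, hd⟩ := Nat.exists_eq_succ_of_ne_zero fun e => hv ((h0 v).1 e)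
    have h1 := Nat.find_spec (ex v)
    have h2 := Nat.find_min (ex v) (m := d) (by omega)
    rw [hd] at h1
    rcases h1 with h1 | ⟨w, h3, h4, h5⟩
    · exact absurd h1 h2
    · have := Nat.find_min' (ex w) h5
      exact ⟨w, fun _ => ⟨h4, h3, by omega⟩⟩
  choose par hpar using key
  exact ⟨par, fun v => Nat.find (ex v), fun v => Nat.find_min' (ex v) (h v), h0, hpar⟩

end WorldAux

/-- A cycle inside the colours `a, ..., a + 9 K + 12` and a forest of routes to it. -/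
theorem world0 [Nonempty V] {r s : ℕ} {χ : V → ℕ} {Op : V → Finset V} (h : LN G r s χ Op)
    {K D0 : ℕ} {al : ℕ → ℕ} (hn : Num 9 K D0 al) (hal : ∀ c, 2 ≤ c → c ≤ 9 → al c + 1 ≤ K)
    {a : ℕ} (ha : a + (9 * K + 12) ≤ r) :
    ∃ (l : List V) (par : V → V) (dp : V → ℕ), 3 ≤ l.length ∧ (∀ j, IsP G (l.rotate j)) ∧
      (∀ v ∈ l, v ∈ col χ a (a + (9 * K + 13))) ∧ (∀ v, dp v ≤ 17) ∧ (∀ v, dp v = 0 ↔ v ∈ l) ∧
      ∀ v, v ∉ l → (og G Op).Adj v (par v) ∧ par v ∈ col χ a (a + (9 * K + 13)) ∧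
        dp (par v) < dp v := by
  have hL := WorldAux.sub_ln h ha
  obtain ⟨χ', hχ⟩ : ∃ χ' : V → ℕ, χ' = fun v =>
    if a ≤ χ v ∧ χ v ≤ a + (9 * K + 12) then χ v - a else 9 * K + 12 + 1 := ⟨_, rfl⟩
  obtain ⟨Op', hOp⟩ : ∃ Op' : V → Finset V, Op' = fun u =>
    (Op u).filter fun w => a ≤ χ w ∧ χ w ≤ a + (9 * K + 12) := ⟨_, rfl⟩
  rw [← hχ, ← hOp] at hL
  have hc : ∀ v, χ' v ≤ 9 * K + 12 → v ∈ col χ a (a + (9 * K + 13)) := fun v hv => by
    rw [hχ] at hv
    rw [mem_col]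
    dsimp only at hv
    split_ifs at hv with h1 <;> omega
  obtain ⟨I, x, Sd, ft, hx, hS, hS0, hLS, hne, hN⟩ := WorldAux.seeds4 hL
  obtain ⟨T, U, hF, hT⟩ := dunits (tj hLS (a := 0) (by omega)) (tj hLS (a := 4) (by omega))
    (hLS.disj_Rs le_rfl (by omega)) (hLS.sd_Rs (by omega)) (hLS.sd_Rs (by omega)) hx hS
  obtain ⟨F, hFG, hdg, hin, he, hreach⟩ := finish2 hLS hn hal (a := 8) (by omega) hF
    (disjoint_union_left.2 ⟨hLS.sd_Rs le_rfl, disjoint_union_left.2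
      ⟨hLS.disj_Rs (by omega) le_rfl, hLS.disj_Rs (by omega) le_rfl⟩⟩)
  obtain ⟨σ0, hσ0⟩ := hne (Classical.arbitrary V)
  obtain ⟨t0, ht0, -⟩ := hT σ0 hσ0
  obtain ⟨c, hc1, hc2⟩ := cyc_of (G := F) le_rfl hdg (he t0 ht0)
  obtain ⟨l, a1, a2, a3⟩ := list_of_cyc hc1
  have a4 : ∀ v, v ∈ l ↔ v ∈ c.support := fun v => by
    rw [← List.mem_toFinset, a2, List.mem_toFinset]
  have a5 : ∀ v ∈ l, v ∈ col χ a (a + (9 * K + 13)) := fun v hv => by
    have b1 : ∃ u, F.Adj v u := by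
      have p := c.dropUntil v ((a4 v).1 hv)
      cases p with
      | nil => exact HM.exists_adj (by rw [he t0 ht0]; norm_num)
      | cons b _ => exact ⟨_, b⟩
    obtain ⟨u, b1⟩ := b1
    refine hc v ?_
    have b2 := hin v u b1
    simp only [mem_union, mem_Rs_lane] at b2
    rcases b2 with (b2 | b2 | b2) | b2
    · rw [hS0 v b2]; omega
    all_goals omega
  obtain ⟨par, dp, b1, b2, b3⟩ := WorldAux.forest (og G Op) (col χ a (a + (9 * K + 13))) l
    (hN (WorldAux.lev (og G Op) (col χ a (a + (9 * K + 13))) l) (fun d v hp => Or.inl hp)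
      (fun d v w hvw ⟨u, hu⟩ hp => Or.inr ⟨w, by
        rw [hOp] at hu
        have := (mem_filter.1 hu).2
        exact mem_col.2 (by omega), ⟨hvw.1, hvw.2.imp
          (fun b => by rw [hOp] at b; exact (mem_filter.1 b).1)
          (fun b => by rw [hOp] at b; exact (mem_filter.1 b).1)⟩, hp⟩)
      fun σ hσ => by
        obtain ⟨t, ht, i, hi, b⟩ := hT σ hσ
        exact ⟨i, hi, (a4 _).2 (hc2 _ (hreach t0 ht0 t ht _ b))⟩)
  exact ⟨l, par, dp, a1 ▸ hc1.three_le_length, fun j => (a3 j).mono hFG, a5, b1, b2, b3⟩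

end Pool.Agent.Lib.MP_f20cd2_co.EX
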